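import Pool.Agent.TH115.GD.Defs

/-!
# The Tate conjecture at `ℓ` for the surface `y ^ ℓ = f(x, t)`: definitions

`k'` is a separable closure of `k`, `K = k(t)`, `F = k'(t)`, and `f` is a polynomial over `K` of
degree prime to `ℓ`. The curve `y ^ ℓ = f(x)` has one point at infinity, which is rational, so the
group `J(L)` of the points of its Jacobian over a separably closed field `L` is the Picard group of
the affine curve, `Pic(L[x, y] / (y ^ ℓ - f(x)))`.
-/

set_option autoImplicit false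
set_option linter.all false

open Polynomial IsDedekindDomain

namespace Pool.Agent.Y713.Tate

open Pool.Agent.TH115.GD (incl rs ak Sep Comp CompInf IsTower)

section pic

/-- The Picard group of `A`, written additively. -/
def PicA (A : Type) [CommRing A] : Type := Additive (CommRing.Pic A)

noncomputable instance picGroup (A : Type) [CommRing A] : AddCommGroup (PicA A) :=
  (inferInstance : AddCommGroup (Additive (CommRing.Pic A)))

/-- The homomorphism of the Picard groups given by a homomorphism of rings. -/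
noncomputable def picMap {A B : Type} [CommRing A] [CommRing B] (φ : A →+* B) : PicA A →+ PicA B :=
  MonoidHom.toAdditive (CommRing.Pic.mapRingHom φ)

end pic

section jac

variable (ℓ : ℕ) {K : Type} [Field K] (f : K[X])

/-- The coordinate ring `L[x, y] / (y ^ ℓ - f(x))` over an extension `L` of `K`. -/
def CoordRing (L : Type) [Field L] [Algebra K L] : Type :=
  AdjoinRoot (X ^ ℓ - C (f.map (algebraMap K L)) : L[X][X])

noncomputable instance coordCommRing (L : Type) [Field L] [Algebra K L] :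
    CommRing (CoordRing ℓ f L) :=
  (inferInstance : CommRing (AdjoinRoot (X ^ ℓ - C (f.map (algebraMap K L)) : L[X][X])))

/-- The function `y`. -/
noncomputable def fy (L : Type) [Field L] [Algebra K L] : CoordRing ℓ f L :=
  AdjoinRoot.root (X ^ ℓ - C (f.map (algebraMap K L)) : L[X][X])

/-- The functions which are polynomials in `x`. -/
noncomputable def fx (L : Type) [Field L] [Algebra K L] : L[X] →+* CoordRing ℓ f L :=
  AdjoinRoot.of (X ^ ℓ - C (f.map (algebraMap K L)) : L[X][X])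

/-- The homomorphism of the coordinate ring to a ring `S` given by `x`-polynomials going by `i` and
`y` going to `b`. -/
noncomputable def coordLift (L : Type) [Field L] [Algebra K L] {S : Type} [CommRing S]
    (i : L[X] →+* S) (b : S) (h : b ^ ℓ = i (f.map (algebraMap K L))) : CoordRing ℓ f L →+* S :=
  AdjoinRoot.lift i b (by rw [eval₂_sub, eval₂_X_pow, eval₂_C, h, sub_self])

theorem fy_pow (L : Type) [Field L] [Algebra K L] :
    fy ℓ f L ^ ℓ = fx ℓ f L (f.map (algebraMap K L)) := by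
  have h := AdjoinRoot.eval₂_root (X ^ ℓ - C (f.map (algebraMap K L)) : L[X][X])
  rw [eval₂_sub, eval₂_X_pow, eval₂_C, sub_eq_zero] at h
  exact h

/-- The group `J(L) = Pic(L[x, y] / (y ^ ℓ - f(x)))`, written additively. -/
def J (L : Type) [Field L] [Algebra K L] : Type := PicA (CoordRing ℓ f L)

noncomputable instance jGroup (L : Type) [Field L] [Algebra K L] : AddCommGroup (J ℓ f L) :=
  (inferInstance : AddCommGroup (PicA (CoordRing ℓ f L)))

/-- The homomorphism `J(L) → J(L')` given by a `K`-homomorphism `φ : L → L'`. -/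
noncomputable def mapJ {L L' : Type} [Field L] [Algebra K L] [Field L'] [Algebra K L']
    (φ : L →ₐ[K] L') : J ℓ f L →+ J ℓ f L' :=
  picMap (coordLift ℓ f L ((fx ℓ f L').comp (mapRingHom (φ : L →+* L'))) (fy ℓ f L') (by
    rw [fy_pow, RingHom.comp_apply, coe_mapRingHom, Polynomial.map_map, φ.comp_algebraMap]))

/-- The automorphism `σ` of `J(L)` given by `y ↦ ζ y`. -/
noncomputable def twist {ζ : K} (h : ζ ^ ℓ = 1) (L : Type) [Field L] [Algebra K L] :
    J ℓ f L →+ J ℓ f L :=
  picMap (coordLift ℓ f L (fx ℓ f L) (fx ℓ f L (C (algebraMap K L ζ)) * fy ℓ f L) (by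
    rw [mul_pow, fy_pow, ← map_pow, ← C_pow, ← map_pow, h, map_one, C_1, map_one, one_mul]))

/-- The action of a polynomial in `σ` on `J(L)`. -/
noncomputable def polyTwist {ζ : K} (h : ζ ^ ℓ = 1) (L : Type) [Field L] [Algebra K L] (p : ℤ[X])
    (x : J ℓ f L) : J ℓ f L := p.sum fun j z => z • (twist ℓ f h L)^[j] x

/-- The order of `J(K) / (1 - σ) J(K)`, zero if it is infinite. -/
noncomputable def quotOrder {ζ : K} (h : ζ ^ ℓ = 1) : ℕ :=
  (AddMonoidHom.id (J ℓ f K) - twist ℓ f h K).range.index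

end jac

section cocycles

variable (ℓ : ℕ) {K F Ω : Type} [Field K] [Field F] [Field Ω] [Algebra K F] [Algebra F Ω]
  [Algebra K Ω] [IsScalarTower K F Ω] (f : K[X])

/-- The coboundary of an element `R` of `J(Ω)`: the function `τ R - R` on `Gal(Ω / F)`. -/
noncomputable def cob (R : J ℓ f Ω) (τ : Ω ≃ₐ[F] Ω) : J ℓ f Ω := mapJ ℓ f (rs K τ) R - R

/-- Continuous 1-cocycles of `Gal(Ω / F)` with values in the discrete group `J(Ω)`. -/
structure IsCoc (c : (Ω ≃ₐ[F] Ω) → J ℓ f Ω) : Prop where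
  lc : IsLocallyConstant c
  mul : ∀ σ τ, c (σ * τ) = c σ + mapJ ℓ f (rs K σ) (c τ)

/-- `Q` is an element of the Tate module `T_ℓ J`: `Q 0 = 0`, `ℓ Q (n + 1) = Q n`. -/
structure IsTM (Q : ℕ → J ℓ f Ω) : Prop where
  zero : Q 0 = 0
  step : ∀ n, ℓ • Q (n + 1) = Q n

/-- `c` is a continuous 1-cocycle of `Gal(Ω / F)` with values in the Tate module `T_ℓ J`: `c n` is a
cocycle with values in the points of order `ℓ ^ n`, and `ℓ c (n + 1) = c n`. -/
structure IsTC (c : ℕ → (Ω ≃ₐ[F] Ω) → J ℓ f Ω) : Prop where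
  coc : ∀ n, IsCoc ℓ f (c n)
  zero : ∀ σ, c 0 σ = 0
  step : ∀ n σ, ℓ • c (n + 1) σ = c n σ

/-- The class of `c` in `H ^ 1 (F, V_ℓ J)` is fixed by `Gal(Ω / K)`: for each `τ` in `Gal(Ω / K)`
there is an `m` such that `ℓ ^ m (τ c - c)` is the coboundary of an element `Q` of the Tate module.
Here `(τ c) (σ) = τ (c (σ'))` with `σ' = τ⁻¹ σ τ`. -/
def IsInv (c : ℕ → (Ω ≃ₐ[F] Ω) → J ℓ f Ω) : Prop :=
  ∀ τ : Ω ≃ₐ[K] Ω, ∃ (m : ℕ) (Q : ℕ → J ℓ f Ω), IsTM ℓ f Q ∧
    ∀ (n : ℕ) (σ σ' : Ω ≃ₐ[F] Ω), (∀ x, τ (σ' x) = σ (τ x)) →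
      ℓ ^ m • (mapJ ℓ f (ak τ) (c n σ') - c n σ) = cob ℓ f (Q n) σ

/-- `L` is an extension of `F` (a completion) and `Ω'` a separable closure of `L`. The restriction
of `c` to `Gal(Ω' / L)`, with values in `J(Ω')`, is a coboundary: for an embedding `ι : Ω → Ω'`
there is an element `P` of `J(Ω')` with `c(τ|Ω) = τ P - P` for all `τ` in `Gal(Ω' / L)`. -/
def LocTriv (L Ω' : Type) [Field L] [Field Ω'] [Algebra K L] [Algebra L Ω'] [Algebra K Ω']
    [Algebra F Ω'] [IsScalarTower K L Ω'] [IsScalarTower K F Ω']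
    (c : (Ω ≃ₐ[F] Ω) → J ℓ f Ω) : Prop :=
  ∃ (ι : Ω →ₐ[F] Ω') (P : J ℓ f Ω'), ∀ (τ : Ω' ≃ₐ[L] Ω') (σ : Ω ≃ₐ[F] Ω),
    (∀ x, τ (ι x) = ι (σ x)) → mapJ ℓ f (ι.restrictScalars K) (c σ) = cob ℓ f P τ

end cocycles

section stmt

variable (ℓ : ℕ) {K F : Type} [Field K] [Field F] [Algebra K F] (k' : Type) [Field k']
  [Algebra k'[X] F] [IsFractionRing k'[X] F] (f : K[X])

/-- A cochain of `Gal(Sep F / F)` with values in `J` is locally trivial if its restriction to the
Galois group of the completion of `F = k'(t)` is a coboundary at every place of `F`: at the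
maximal ideals of `k'[t]` and at the place `t = ∞`. -/
def LocallyTrivial (c : (Sep F ≃ₐ[F] Sep F) → J ℓ f (Sep F)) : Prop :=
  (∀ v : HeightOneSpectrum k'[X], LocTriv ℓ f (Comp k'[X] F v) (Sep (Comp k'[X] F v)) c) ∧
  LocTriv ℓ f (CompInf k' F) (Sep (CompInf k' F)) c

/-- The Tate classes: the cocycles `c` of `Gal(Sep F / F)` with values in `T_ℓ J` which are
everywhere locally trivial and whose class in `H ^ 1 (F, V_ℓ J)` is fixed by the Galois group of
`K`. Their classes form the group `V_ℓ Sel(J / F)^G`, `G` the Galois group of `k`. -/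
structure IsTateClass (c : ℕ → (Sep F ≃ₐ[F] Sep F) → J ℓ f (Sep F)) : Prop where
  tc : IsTC ℓ f c
  loc : ∀ n, LocallyTrivial ℓ k' f (c n)
  inv : IsInv ℓ f c

/-- The cochain `c` with values in the points of order `ℓ ^ N` comes from `J(K)`: there are an
element `P` of `J(K)` and `R` with `ℓ ^ N R = P` such that `c` is the coboundary of `R`. -/
def FromK (N : ℕ) (c : (Sep F ≃ₐ[F] Sep F) → J ℓ f (Sep F)) : Prop :=
  ∃ (P : J ℓ f K) (R : J ℓ f (Sep F)), ℓ ^ N • R = mapJ ℓ f (incl K K (Sep F)) P ∧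
    ∀ τ, c τ = cob ℓ f R τ

/-- The Tate conjecture at the prime `ℓ` for the surface fibred over the projective line with
generic fibre `y ^ ℓ = f(x)` over `K = k(t)`: all the Tate classes come from `J(K)`. -/
def TateAt : Prop :=
  ∀ c : ℕ → (Sep F ≃ₐ[F] Sep F) → J ℓ f (Sep F), IsTateClass ℓ k' f c → ∀ N, FromK ℓ f N (c N)

/-- There are Tate classes `E 0, …, E (m - 1)` which generate all the Tate classes over `ℤ[σ]` modulo
the classes from `J(K)`: for every Tate class `c` and every `N` there are polynomials `p i` such that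
`c N` minus the sum of the `p i (σ) (E i N)` comes from `J(K)`. -/
def GeneratedBy {ζ : K} (h : ζ ^ ℓ = 1) (m : ℕ) : Prop :=
  ∃ E : Fin m → ℕ → (Sep F ≃ₐ[F] Sep F) → J ℓ f (Sep F), (∀ i, IsTateClass ℓ k' f (E i)) ∧
    ∀ c : ℕ → (Sep F ≃ₐ[F] Sep F) → J ℓ f (Sep F), IsTateClass ℓ k' f c → ∀ N,
      ∃ p : Fin m → ℤ[X],
        FromK ℓ f N fun τ => c N τ - ∑ i, polyTwist ℓ f h (Sep F) (p i) (E i N τ)

end stmt

end Pool.Agent.Y713.Tate
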