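import Pool.Agent.Y713.TG.Fam

/-! Irreducible differences. -/

set_option autoImplicit false
set_option linter.all false

open Polynomial IsDedekindDomain

namespace Pool.Agent.Y713.SE

/-- the differences `e i - e j` are irreducible, and not associated for different pairs -/
structure Irr {n : ℕ} {k : Type} [Field k] (e : Fin n → k[X]) : Prop where
  irr : ∀ i j, i ≠ j → Irreducible (e i - e j)
  dif : ∀ i j i' j', i ≠ j → i' ≠ j' → (e i - e j) ∣ (e i' - e j') →
    (i = i' ∧ j = j') ∨ (i = j' ∧ j = i')

section
variable {k : Type} [Field k] {n : ℕ} {e : Fin n → k[X]} (he : Irr e)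

include he

lemma Irr.inj : Function.Injective e := by
  intro i j h
  by_contra hij
  apply (he.irr i j hij).ne_zero
  rw [h, sub_self]

lemma Irr.coll : Coll e ≤ n * (n - 1) / 2 := by
  classical
  have hinj := he.inj
  have h1 : ∀ π ∈ pis e, n - nres e π ≤ 1 := by
    intro π hπ
    obtain ⟨hi, i, j, hij, hd⟩ := mem_pis hinj hπ
    have has : Associated π (e i - e j) := (hi.dvd_irreducible_iff_associated (he.irr i j hij)).1 hd
    have hpair : ∀ a b, a ≠ b → π ∣ e a - e b → (a = i ∧ b = j) ∨ (a = j ∧ b = i) := by
      intro a b hab h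
      rcases he.dif i j a b hij hab ((has.symm.dvd).trans h) with h' | h'
      · exact Or.inl ⟨h'.1.symm, h'.2.symm⟩
      · exact Or.inr ⟨h'.2.symm, h'.1.symm⟩
    have h3 : Set.InjOn (fun a : Fin n => Ideal.Quotient.mk (Ideal.span {π}) (e a))
        {a | a ≠ j} := by
      intro a ha b hb hab
      by_contra hne
      have hab' : Ideal.Quotient.mk (Ideal.span {π}) (e a) =
          Ideal.Quotient.mk (Ideal.span {π}) (e b) := hab
      rw [Ideal.Quotient.eq, Ideal.mem_span_singleton] at hab'
      rcases hpair a b hne hab' with h4 | h4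
      · exact hb h4.2
      · exact ha h4.1
    have h4 : (fun a : Fin n => Ideal.Quotient.mk (Ideal.span {π}) (e a)) '' {a | a ≠ j} ⊆
        Set.range (fun a => Ideal.Quotient.mk (Ideal.span {π}) (e a)) := Set.image_subset_range _ _
    have h5 := Set.ncard_le_ncard h4 (Set.finite_range _)
    rw [Set.ncard_image_of_injOn h3] at h5
    have h6 : ({a : Fin n | a ≠ j}).ncard = n - 1 := by
      have h7 : {a : Fin n | a ≠ j} = ({j} : Set (Fin n))ᶜ := rfl
      rw [h7, Set.ncard_compl, Set.ncard_singleton, Nat.card_eq_fintype_card, Fintype.card_fin]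
    have h7 : n - 1 ≤ nres e π := by
      unfold nres
      rw [← h6]
      exact h5
    have := j.pos
    omega
  have h2 : pis e ⊆ ((Finset.univ : Finset (Fin n × Fin n)).filter (fun p => p.1 < p.2)).image
      (fun p => normalize (e p.1 - e p.2)) := by
    intro π hπ
    obtain ⟨hi, i, j, hij, hd⟩ := mem_pis hinj hπ
    have has : Associated π (e i - e j) := (hi.dvd_irreducible_iff_associated (he.irr i j hij)).1 hd
    have h4 : normalize π = π := by
      unfold pis at hπ
      rw [Multiset.mem_toFinset] at hπ
      exact UniqueFactorizationMonoid.normalize_normalized_factor π hπ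
    rw [Finset.mem_image]
    rcases lt_or_gt_of_ne hij with h | h
    · refine ⟨(i, j), Finset.mem_filter.2 ⟨Finset.mem_univ _, h⟩, ?_⟩
      rw [← h4]
      exact (normalize_eq_normalize_iff_associated.2 has).symm
    · refine ⟨(j, i), Finset.mem_filter.2 ⟨Finset.mem_univ _, h⟩, ?_⟩
      rw [← h4]
      have h5 : Associated (e j - e i) (e i - e j) := by
        rw [← neg_sub (e i) (e j)]
        exact (Associated.refl _).neg_left
      exact normalize_eq_normalize_iff_associated.2 (h5.trans has.symm)
  have h3 : ((Finset.univ : Finset (Fin n × Fin n)).filter (fun p => p.1 < p.2)).card =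
      n * (n - 1) / 2 := by
    have h4 : ((Finset.univ : Finset (Fin n × Fin n)).filter (fun p => p.1 < p.2)).card =
        n.choose 2 := by
      have := Finset.card_powersetCard 2 (Finset.univ : Finset (Fin n))
      rw [Finset.card_univ, Fintype.card_fin] at this
      rw [← this]
      apply Finset.card_bij (fun p _ => ({p.1, p.2} : Finset (Fin n)))
      · intro p hp
        rw [Finset.mem_filter] at hp
        rw [Finset.mem_powersetCard]
        exact ⟨Finset.subset_univ _, Finset.card_pair hp.2.ne⟩
      · intro p hp q hq h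
        rw [Finset.mem_filter] at hp hq
        have hp1 : p.1 ∈ ({q.1, q.2} : Finset (Fin n)) := by
          rw [← h]
          exact Finset.mem_insert_self _ _
        have hp2 : p.2 ∈ ({q.1, q.2} : Finset (Fin n)) := by
          rw [← h]
          exact Finset.mem_insert_of_mem (Finset.mem_singleton_self _)
        have hq1 : q.1 ∈ ({p.1, p.2} : Finset (Fin n)) := by
          rw [h]
          exact Finset.mem_insert_self _ _
        rw [Finset.mem_insert, Finset.mem_singleton] at hp1 hp2 hq1
        apply Prod.ext
        · rcases hp1 with h1 | h1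
          · exact h1
          · rcases hp2 with h2 | h2
            · exact absurd (h1 ▸ h2 ▸ hp.2) (not_lt.2 hq.2.le)
            · exact absurd hp.2 (by rw [h1, h2]; exact lt_irrefl _)
        · rcases hp2 with h2 | h2
          · rcases hp1 with h1 | h1
            · exact absurd hp.2 (by rw [h1, h2]; exact lt_irrefl _)
            · exact absurd (h1 ▸ h2 ▸ hp.2) (not_lt.2 hq.2.le)
          · exact h2
      · intro s hs
        rw [Finset.mem_powersetCard] at hs
        obtain ⟨a, b, hab, rfl⟩ := Finset.card_eq_two.1 hs.2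
        rcases lt_or_gt_of_ne hab with h | h
        · exact ⟨(a, b), Finset.mem_filter.2 ⟨Finset.mem_univ _, h⟩, rfl⟩
        · exact ⟨(b, a), Finset.mem_filter.2 ⟨Finset.mem_univ _, h⟩, Finset.pair_comm _ _⟩
    rw [h4, Nat.choose_two_right]
  calc Coll e = ∑ π ∈ pis e, (n - nres e π) := rfl
    _ ≤ ∑ π ∈ pis e, 1 := Finset.sum_le_sum h1
    _ = (pis e).card := by rw [Finset.sum_const, smul_eq_mul, mul_one]
    _ ≤ _ := Finset.card_le_card h2
    _ ≤ _ := Finset.card_image_le
    _ = _ := h3

lemma Irr.rigid {ℓ : ℕ} (hℓ : ℓ.Prime) (hd : ∀ i j, i ≠ j → ¬ ℓ ∣ (e i - e j).natDegree) :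
    Rigid ℓ e := by
  classical
  intro a ha i j
  by_cases hij : i = j
  · rw [hij]
  have h1 := ha (e i - e j) (he.irr i j hij) (Kum.of_deg hℓ (he.irr i j hij) (hd i j hij)) i
  rw [Finset.sum_eq_single j] at h1
  · rw [multiplicity_self, Nat.cast_one, one_mul, sub_eq_zero] at h1
    exact h1
  · intro b hb hne
    have hib : i ≠ b := (Finset.ne_of_mem_erase hb).symm
    have h2 : ¬ (e i - e j) ∣ e i - e b := by
      intro h
      rcases he.dif i j i b hij hib h with h4 | h4
      · exact hne h4.2.symm
      · exact hij h4.2.symm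
    rw [multiplicity_eq_zero.2 h2, Nat.cast_zero, zero_mul]
  · intro h
    exact absurd (Finset.mem_erase.2 ⟨(Ne.symm hij), Finset.mem_univ _⟩) h

end

end Pool.Agent.Y713.SE
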