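import Pool.Agent.Y713.TG.Stm
import Pool.Agent.Y713.TG.Fam2

/-! Transport between the two sets of definitions. -/

set_option autoImplicit false
set_option linter.all false

open Polynomial IsDedekindDomain

namespace Pool.Agent.Y713.Tate

open Pool.Agent.TH115.GD (incl rs ak Sep Comp CompInf IsTower)
open Pool.Agent.Y160

section one
variable {ℓ : ℕ} {K F : Type} [Field K] [Field F] [Algebra K F] {k' : Type} [Field k']
  [Algebra k'[X] F] [IsFractionRing k'[X] F] {f : K[X]}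

theorem tateClass_iff {c : ℕ → (Sep F ≃ₐ[F] Sep F) → SE.Jac ℓ f (Sep F)} :
    IsTateClass ℓ k' f c ↔ SE.IsTateClass ℓ k' f c := by
  constructor
  · intro h
    exact ⟨⟨fun n => ⟨(h.tc.coc n).lc, (h.tc.coc n).mul⟩, h.tc.zero, h.tc.step⟩, h.loc, fun τ => by
      obtain ⟨m, Q, hQ, h2⟩ := h.inv τ
      exact ⟨m, Q, ⟨hQ.zero, hQ.step⟩, h2⟩⟩
  · intro h
    exact ⟨⟨fun n => ⟨(h.tc.coc n).lc, (h.tc.coc n).mul⟩, h.tc.zero, h.tc.step⟩, h.loc, fun τ => by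
      obtain ⟨m, Q, hQ, h2⟩ := h.inv τ
      exact ⟨m, Q, ⟨hQ.zero, hQ.step⟩, h2⟩⟩

theorem tateAt_of (h : SE.TateAt (F := F) ℓ k' f) : TateAt (F := F) ℓ k' f := by
  intro c hc N
  have hc' := tateClass_iff.1 hc
  obtain ⟨P, R, h1, h2⟩ := h c hc'.tc hc'.loc hc'.inv N
  exact ⟨P, R, h1, h2⟩

variable {ζ : K} (hg : SE.Good ℓ ζ f)

theorem polyTwist_eq (h : ζ ^ ℓ = 1) (L : Type) [Field L] [Algebra K L] (p : ℤ[X])
    (x : SE.Jac ℓ f L) : polyTwist ℓ f h L p x = SE.pe hg L p x := by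
  show (p.sum fun j z => z • (fun y : SE.Jac ℓ f L => SE.sg hg L y)^[j] x) = SE.pe hg L p x
  have h1 : ∀ j : ℕ, (fun y : SE.Jac ℓ f L => SE.sg hg L y)^[j] x = (SE.sg hg L ^ j) x := by
    intro j
    induction j with
    | zero => rfl
    | succ j ih =>
      rw [Function.iterate_succ_apply', ih, pow_succ']
      rfl
  unfold SE.pe
  rw [aeval_def, eval₂_eq_sum, Polynomial.sum, Polynomial.sum]
  have h2 : ∀ (s : Finset ℕ) (g : ℕ → AddMonoid.End (SE.Jac ℓ f L)),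
      (∑ j ∈ s, g j) x = ∑ j ∈ s, g j x := fun s g => AddMonoidHom.finset_sum_apply g s x
  refine Eq.trans ?_ (h2 _ _).symm
  refine Finset.sum_congr rfl fun j _ => ?_
  rw [h1]
  show _ = (algebraMap ℤ (AddMonoid.End (SE.Jac ℓ f L)) (p.coeff j)) ((SE.sg hg L ^ j) x)
  rw [Algebra.algebraMap_eq_smul_one]
  rfl

theorem quot_eq (h : ζ ^ ℓ = 1) : quotOrder ℓ f h =
    Nat.card (SE.Jac ℓ f K ⧸ (SE.pe hg K (1 - X)).range) := by
  have e2 : ∀ x : SE.Jac ℓ f K, SE.pe hg K (1 - X) x = x - SE.sg hg K x := by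
    intro x
    refine (SE.pe_sub hg 1 X x).trans ?_
    rw [SE.pe_one, SE.pe_X]
  have e1 : (AddMonoidHom.id (J ℓ f K) - twist ℓ f h K).range =
      (show AddSubgroup (J ℓ f K) from (SE.pe hg K (1 - X)).range) := by
    ext y
    constructor
    · rintro ⟨x, hx⟩
      exact ⟨x, (e2 x).trans hx⟩
    · rintro ⟨x, hx⟩
      exact ⟨x, (e2 x).symm.trans hx⟩
  unfold quotOrder
  rw [e1]
  rfl

end one

section main

variable {ℓ n : ℕ} {k k' K F : Type} [Field k] [Field k'] [Algebra k k'] [Field K] [Algebra k[X] K]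
  [Field F] [Algebra k'[X] F] [IsFractionRing k'[X] F] [Algebra K F]

theorem main' (hT : IsTower k k' K F) (hℓ : ℓ.Prime) {ζ : k} (hζ : IsPrimitiveRoot ζ ℓ)
    (h : algebraMap k[X] K (C ζ) ^ ℓ = 1)
    (hn : ¬ ℓ ∣ n) {e : Fin n → k[X]} (he : Function.Injective e)
    (hsep : ∀ i j, i ≠ j → ∀ π : k[X], Irreducible π → π ∣ e i - e j → π.Separable)
    (hR : Y713.SE.Rigid ℓ e) :
    quotOrder ℓ (Y713.SE.brp K e) h ≠ 0 ∧
      (∃ m, GeneratedBy (F := F) ℓ k' (Y713.SE.brp K e) h m ∧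
        ℓ ^ m * quotOrder ℓ (Y713.SE.brp K e) h ≤ ℓ ^ Y713.SE.Coll e ∧
        m + (n - 1) ≤ Y713.SE.Coll e) ∧
      (ℓ ^ Y713.SE.Coll e ≤ quotOrder ℓ (Y713.SE.brp K e) h →
        TateAt (F := F) ℓ k' (Y713.SE.brp K e)) ∧
      (Y713.SE.Coll e ≤ n - 1 → TateAt (F := F) ℓ k' (Y713.SE.brp K e)) := by
  obtain ⟨hg, h0, ⟨m, ⟨E, h1, h2⟩, h3, h4⟩, h5, h6⟩ :=
    Y713.SE.main (F := F) hT hℓ hζ hn he hsep hR
  have hq := quot_eq hg h
  have hpos : 0 < quotOrder ℓ (Y713.SE.brp K e) h := by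
    rw [hq]
    haveI := h0
    exact Nat.card_pos
  refine ⟨hpos.ne', ⟨m, ⟨E, fun i => tateClass_iff.2 (h1 i), fun c hc N => ?_⟩, ?_, h4⟩, ?_, ?_⟩
  · obtain ⟨p, P, R, h7, h8⟩ := h2 c (tateClass_iff.1 hc) N
    refine ⟨p, P, R, h7, fun τ => ?_⟩
    have h9 : ∀ i, polyTwist ℓ (Y713.SE.brp K e) h (Sep F) (p i) (E i N τ) =
        SE.pe hg (Sep F) (p i) (E i N τ) := fun i => polyTwist_eq hg h _ _ _
    have h10 : c N τ = ∑ i, polyTwist ℓ (Y713.SE.brp K e) h (Sep F) (p i) (E i N τ) +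
        cob ℓ (Y713.SE.brp K e) R τ := by
      refine (h8 τ).trans ?_
      exact congrArg (fun z : J ℓ (Y713.SE.brp K e) (Sep F) => z + cob ℓ (Y713.SE.brp K e) R τ)
        (Finset.sum_congr rfl fun i _ => (h9 i).symm)
    exact sub_eq_iff_eq_add'.2 h10
  · rw [hq]
    exact h3
  · intro h7
    refine tateAt_of (h5 ?_)
    rw [← hq]
    exact lt_of_le_of_lt h7 (lt_mul_of_one_lt_left hpos hℓ.one_lt)
  · intro h7
    exact tateAt_of (h6 h7)

end main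

end Pool.Agent.Y713.Tate
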