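import Pool.Agent.Y713.TG.Vec

/-! Invariant locally trivial classes: properties. -/

set_option autoImplicit false
set_option linter.all false

open Polynomial IsDedekindDomain

namespace Pool.Agent.Y713.SE

open Pool.Agent.TH115.GD (pl Preserves Comp Sep exists_conj lift restr preserves)

namespace Dat

section basic
variable {ℓ n : ℕ} {K F Ω : Type} [Field K] [Field F] [Algebra K F] [Field Ω] [Algebra F Ω]
  [Algebra K Ω] [IsScalarTower K F Ω] {D : Dat ℓ n K}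

lemma CocF.div {c c' : (Ω ≃ₐ[F] Ω) → ClassGroup (D.base Ω).A} (h : D.CocF c) (h' : D.CocF c') :
    D.CocF (fun σ => c σ / c' σ) := by
  refine ⟨h.1.comp₂ h'.1 (fun a b => a / b), fun σ τ => ?_⟩
  show c (σ * τ) / c' (σ * τ) = c σ / c' σ * D.mC (rs K σ) (c τ / c' τ)
  rw [h.2, h'.2, _root_.map_div, div_mul_div_comm]

lemma TrivF.div_cob {E Ω' : Type} [Field E] [Algebra K E] [Field Ω'] [Algebra K Ω'] [Algebra E Ω']
    [Algebra F Ω'] [IsScalarTower K E Ω'] [IsScalarTower K F Ω']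
    {c : (Ω ≃ₐ[F] Ω) → ClassGroup (D.base Ω).A} (h : D.TrivF E Ω' c)
    (Q : ClassGroup (D.base Ω).A) : D.TrivF E Ω' (fun σ => c σ / (D.mC (rs K σ) Q / Q)) := by
  obtain ⟨ι, P, hP⟩ := h
  refine ⟨ι, P / D.mC (ι.restrictScalars K) Q, fun τ σ hτσ => ?_⟩
  have e1 : (ι.restrictScalars K).comp (rs K σ) = (rs K τ).comp (ι.restrictScalars K) :=
    AlgHom.ext fun x => (hτσ x).symm
  rw [_root_.map_div, hP τ σ hτσ, _root_.map_div, _root_.map_div, mC_mC, mC_mC, e1]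
  generalize D.mC (rs K τ) P = a
  generalize D.mC ((rs K τ).comp (ι.restrictScalars K)) Q = b
  generalize D.mC (ι.restrictScalars K) Q = d
  rw [div_div_div_comm]

lemma TrivF.cob {E Ω' : Type} [Field E] [Algebra K E] [Field Ω'] [Algebra K Ω'] [Algebra E Ω']
    [Algebra F Ω'] [IsScalarTower K E Ω'] [IsScalarTower K F Ω'] (ι : Ω →ₐ[F] Ω')
    (Q : ClassGroup (D.base Ω).A) : D.TrivF E Ω' (fun σ : Ω ≃ₐ[F] Ω => D.mC (rs K σ) Q / Q) := by
  refine ⟨ι, D.mC (ι.restrictScalars K) Q, fun τ σ hτσ => ?_⟩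
  have e1 : (ι.restrictScalars K).comp (rs K σ) = (rs K τ).comp (ι.restrictScalars K) :=
    AlgHom.ext fun x => (hτσ x).symm
  rw [_root_.map_div, mC_mC, mC_mC, e1]

end basic

variable {ℓ n : ℕ} {k k' K F Ω : Type} [Field k] [Field k'] [Algebra k k'] [IsSepClosure k k']
  [Field K] [Algebra k[X] K] [IsFractionRing k[X] K] [Field F] [Algebra k'[X] F]
  [IsFractionRing k'[X] F] [Algebra K F] [Field Ω] [Algebra F Ω] [Algebra K Ω]
  [IsScalarTower K F Ω] [IsSepClosure F Ω] [IsGalois F Ω] [IsGalois K Ω] [IsSepClosed Ω]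
  {D : Dat ℓ n K}

/-- elements whose images under `1 - s` are fixed over `F` and fixed over `K` up to the branch
points -/
structure Adm (D : Dat ℓ n K) (F : Type) [Field F] [Algebra F Ω] [Algebra K F]
    [IsScalarTower K F Ω] (R : ClassGroup (D.base Ω).A) : Prop where
  fix : ∀ σ : Ω ≃ₐ[F] Ω, D.mC (rs K σ) ((D.base Ω).phi R) = (D.base Ω).phi R
  inv : ∀ τ : Ω ≃ₐ[K] Ω, ∃ m : Fin n → ℕ, D.mC (au τ) ((D.base Ω).phi R) =
    (D.base Ω).phi R * cl ((D.base Ω).PT m)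

lemma phi_eq_one_iff {E : Type} [Field E] {D : Dat ℓ n E} {c : ClassGroup D.A} :
    D.phi c = 1 ↔ D.sC c = c := by
  rw [phi_apply, div_eq_one]
  exact ⟨fun h => h.symm, fun h => h.symm⟩

lemma phi_eq_iff {E : Type} [Field E] {D : Dat ℓ n E} {c d : ClassGroup D.A} :
    D.phi c = d ↔ d * D.sC c = c := by
  rw [phi_apply, div_eq_iff_eq_mul]
  exact ⟨fun h => h.symm, fun h => h.symm⟩

lemma PT_inv {E : Type} [Field E] (D : Dat ℓ n E) (m : Fin n → ℕ) :
    (cl (D.PT m))⁻¹ = cl (D.PT ((ℓ - 1) • m)) := by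
  rw [inv_eq_iff_mul_eq_one, ← cl_PT_pow, ← pow_succ', Nat.sub_add_cancel D.pos, cl_PT_pow]
  apply D.cl_PT_of_modEq
  intro i j
  show ℓ * m i ≡ ℓ * m j [MOD ℓ]
  simp [Nat.ModEq]

omit [IsSepClosure k k'] [Algebra k k'] [Field k] [Algebra k[X] K] [IsFractionRing k[X] K]
  [IsSepClosure F Ω] in
theorem Adm.gd {R : ClassGroup (D.base Ω).A} (hR : D.Adm F R) :
    D.Gd k' (F := F) (fun σ : Ω ≃ₐ[F] Ω => D.mC (rs K σ) R / R) := by
  have hfix : ∀ σ : Ω ≃ₐ[F] Ω, (D.base Ω).phi (D.mC (rs K σ) R / R) = 1 := by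
    intro σ
    rw [_root_.map_div, ← mC_phi, hR.fix, div_self']
  refine ⟨D.cob_CocF R, fun σ => phi_eq_one_iff.1 (hfix σ), fun v => ?_, fun τ => ?_⟩
  · let ι : Ω →ₐ[F] Sep (Comp k'[X] F v) := IsSepClosed.lift
    exact TrivF.cob ι R
  · obtain ⟨m, hm⟩ := hR.inv τ
    refine ⟨D.mC (au τ) R / R, m, fun σ σ' h => ?_, ?_⟩
    · have hPT : D.mC (au τ) (D.mC (rs K σ') R / R) = D.mC (rs K σ') R / R := by
        obtain ⟨p, hp⟩ := ExpChar.exists Ω
        haveI := hp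
        obtain ⟨m', hm'⟩ := (D.base Ω).phi_ker (p := p) (phi_eq_one_iff.1 (hfix σ'))
        rw [hm', ← cl_PT, D.mC_PT]
      have e1 : (au τ).comp (rs K σ') = (rs K σ).comp (au τ) := AlgHom.ext fun x => h x
      rw [← hPT, _root_.map_div, _root_.map_div, mC_mC, mC_mC, e1]
      generalize D.mC ((rs K σ).comp (au τ)) R = a
      generalize D.mC (rs K σ) R = b
      generalize D.mC (au τ) R = d
      rw [div_div_div_comm, mul_comm, div_mul_cancel]
    · rw [← phi_eq_iff, _root_.map_div, ← mC_phi, hm, mul_div_cancel_left]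

omit [IsSepClosure k k'] [Algebra k k'] [Field k] [Algebra k[X] K] [IsFractionRing k[X] K]
  [IsSepClosure F Ω] in
theorem Gd.div_cob {c : (Ω ≃ₐ[F] Ω) → ClassGroup (D.base Ω).A} (hc : D.Gd k' c)
    {R : ClassGroup (D.base Ω).A} (hR : D.Adm F R) :
    D.Gd k' (fun σ => c σ / (D.mC (rs K σ) R / R)) := by
  have hg := hR.gd (k' := k')
  refine ⟨hc.coc.div hg.coc, fun σ => by rw [_root_.map_div, hc.fix, hg.fix], fun v =>
    (hc.triv v).div_cob R, fun τ => ?_⟩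
  obtain ⟨T, m, h1, h2⟩ := hc.inv τ
  obtain ⟨T', m', h1', h2'⟩ := hg.inv τ
  refine ⟨T / T', m + (ℓ - 1) • m', fun σ σ' h => ?_, ?_⟩
  · rw [h1 σ σ' h, h1' σ σ' h, _root_.map_div]
    generalize c σ = a
    generalize D.mC (rs K σ) R / R = b
    generalize D.mC (rs K σ) T = t
    generalize D.mC (rs K σ) T' = t'
    rw [div_div_div_comm t t' T T', div_mul_div_comm]
  · rw [← phi_eq_iff] at h2 h2' ⊢
    rw [_root_.map_div, h2, h2', ← cl_PT_add, ← PT_inv, div_eq_mul_inv]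

end Dat

end Pool.Agent.Y713.SE
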