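import Pool.Agent.Y713.TG.Rig

/-! Places and residues. -/

set_option autoImplicit false
set_option linter.all false

open Polynomial IsDedekindDomain

namespace Pool.Agent.Y713.SE

open Pool.Agent.TH115.GD (pl Preserves Comp Sep)

section vc
variable {k k' : Type} [Field k] [Field k'] [Algebra k k'] [IsSepClosed k']

open Classical in
theorem v_cases {p : k[X]} (hp : p ≠ 0)
    (hsep : ∀ π : k[X], Irreducible π → π ∣ p → π.Separable) (v : HeightOneSpectrum k'[X])
    (hv : p.map (algebraMap k k') ∈ v.asIdeal) :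
    ∃ π ∈ UniqueFactorizationMonoid.normalizedFactors p, ∃ θ : k', aeval θ π = 0 ∧ v = pl θ := by
  set P : Ideal k[X] := v.asIdeal.comap (mapRingHom (algebraMap k k')) with hP
  haveI : P.IsPrime := Ideal.IsPrime.comap (hK := v.isPrime) _
  have hpP : p ∈ P := hv
  have hass := UniqueFactorizationMonoid.prod_normalizedFactors hp
  have h1 : (UniqueFactorizationMonoid.normalizedFactors p).prod ∈ P :=
    (Ideal.mem_iff_of_associated hass).2 hpP
  obtain ⟨π, hπ, hπP⟩ := (Ideal.IsPrime.multiset_prod_mem_iff_exists_mem ‹_› _).1 h1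
  have hirr := UniqueFactorizationMonoid.irreducible_of_normalized_factor π hπ
  have hdvd := UniqueFactorizationMonoid.dvd_of_mem_normalizedFactors hπ
  have hs := hsep π hirr hdvd
  refine ⟨π, hπ, ?_⟩
  have hspl : (π.map (algebraMap k k')).Splits := IsSepClosed.splits_of_separable _ hs.map
  have h2 : π.map (algebraMap k k') ∈ v.asIdeal := hπP
  rw [hspl.eq_prod_roots] at h2
  haveI := v.isPrime
  have h3 : ((π.map (algebraMap k k')).roots.map (X - C ·)).prod ∈ v.asIdeal := by
    rcases v.isPrime.mem_or_mem h2 with h | h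
    · exfalso
      apply v.isPrime.ne_top
      refine Ideal.eq_top_of_isUnit_mem _ h (Polynomial.isUnit_C.2 (IsUnit.mk0 _ ?_))
      rw [leadingCoeff_map]
      exact (_root_.map_ne_zero _).2 (leadingCoeff_ne_zero.2 hirr.ne_zero)
    · exact h
  obtain ⟨q, hq, hqv⟩ := (Ideal.IsPrime.multiset_prod_mem_iff_exists_mem v.isPrime _).1 h3
  obtain ⟨θ, hθ, rfl⟩ := Multiset.mem_map.1 hq
  have h4 : π.map (algebraMap k k') ≠ 0 :=
    (Polynomial.map_ne_zero_iff (algebraMap k k').injective).2 hirr.ne_zero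
  refine ⟨θ, ?_, ?_⟩
  · have := (mem_roots h4).1 hθ
    rwa [IsRoot.def, eval_map_algebraMap] at this
  · apply HeightOneSpectrum.ext
    have hle : (pl θ).asIdeal ≤ v.asIdeal := by
      show Ideal.span {X - C θ} ≤ v.asIdeal
      rw [Ideal.span_singleton_le_iff_mem]; exact hqv
    exact ((pl θ).isMaximal.eq_of_le v.isPrime.ne_top hle).symm

end vc

namespace Dat

variable {ℓ n : ℕ} {k' K F Ω : Type} [Field k']
  [Field K] [Field F] [Algebra k'[X] F]
  [IsFractionRing k'[X] F] [Algebra K F] [Field Ω] [Algebra F Ω] [Algebra K Ω]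
  [IsScalarTower K F Ω] [IsGalois F Ω]
  (D : Dat ℓ n K)

/-- sums of residues over unions of clusters -/
theorem sum_rr (hδ : D.δ = 1) (hℓ : (ℓ : k') ≠ 0) {χ : (Ω ≃ₐ[F] Ω) → Fin n → ℕ} (kd : D.KF χ)
    (v : HeightOneSpectrum k'[X])
    (ht : D.TrivF (Comp k'[X] F v) (Sep (Comp k'[X] F v))
      (fun σ => cl ((D.base Ω).PT (χ σ))))
    (hle : ∀ i j, v.valuation F (algebraMap K F (D.e i - D.e j)) ≤ 1) {C : Finset (Fin n)}
    (hC : ∀ i ∈ C, ∀ j ∉ C, v.valuation F (algebraMap K F (D.e i - D.e j)) = 1) :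
    ∑ i ∈ C, kd.rr D v i = 0 := by
  letI i1 : Algebra K (v.adicCompletion F) := (inferInstance : Algebra K (Comp k'[X] F v))
  haveI i2 : IsScalarTower K F (v.adicCompletion F) :=
    (inferInstance : IsScalarTower K F (Comp k'[X] F v))
  letI i3 : Algebra (v.adicCompletion F) (Sep (Comp k'[X] F v)) :=
    (inferInstance : Algebra (Comp k'[X] F v) (Sep (Comp k'[X] F v)))
  haveI i4 : IsScalarTower F (v.adicCompletion F) (Sep (Comp k'[X] F v)) :=
    (inferInstance : IsScalarTower F (Comp k'[X] F v) (Sep (Comp k'[X] F v)))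
  haveI i5 : IsScalarTower K (v.adicCompletion F) (Sep (Comp k'[X] F v)) :=
    (inferInstance : IsScalarTower K (Comp k'[X] F v) (Sep (Comp k'[X] F v)))
  haveI i6 : IsGalois (v.adicCompletion F) (Sep (Comp k'[X] F v)) :=
    (inferInstance : IsGalois (Comp k'[X] F v) (Sep (Comp k'[X] F v)))
  obtain ⟨p, hp⟩ := ExpChar.exists (Sep (Comp k'[X] F v))
  haveI := hp
  have h := D.clus_place (p := p) (v := v) (Ω' := Sep (Comp k'[X] F v))
    (by rw [hδ, map_one, map_one]) hle (val_nat (F := F) hℓ v) ht kd hC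
  have h0 : ∏ i ∈ C, ∏ j, kd.d i j ≠ 0 :=
    Finset.prod_ne_zero_iff.2 fun i _ => Finset.prod_ne_zero_iff.2 fun j _ => kd.d0 D i j
  have h1 := (ov_eq_zero h0).2 h
  rwa [ov_prod _ _ fun i _ => Finset.prod_ne_zero_iff.2 fun j _ => kd.d0 D i j] at h1

end Dat

end Pool.Agent.Y713.SE
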