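import Pool.Agent.Y713.SE.Coh

/-! A homomorphism from the Galois group of the constants to `ℤ/ℓ` which is trivial on the
stabiliser of a root of an irreducible polynomial. -/

set_option autoImplicit false
set_option linter.all false

open Polynomial

namespace Pool.Agent.Y713.SE

/-- no new `ℓ`-th powers of constants modulo `π` -/
def Kum {k : Type} [Field k] (ℓ : ℕ) (π : k[X]) : Prop :=
  ∀ (b : k) (q : k[X]), π ∣ q ^ ℓ - C b → ∃ c : k, b = c ^ ℓ

section
variable {k k' : Type} [Field k] [Field k'] [Algebra k k'] [IsGalois k k']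

lemma conj_roots {π : k[X]} (hπ : Irreducible π) {θ θ' : k'} (h : aeval θ π = 0)
    (h' : aeval θ' π = 0) : ∃ s : k' ≃ₐ[k] k', s θ = θ' := by
  have h1 := minpoly.eq_of_irreducible hπ h
  have h2 := minpoly.eq_of_irreducible hπ h'
  have : IsConjRoot k θ' θ := by
    rw [IsConjRoot, ← h1, ← h2]
  exact this.exists_algEquiv

/-- an element fixed by the stabiliser of `θ` is a polynomial in `θ` -/
lemma exists_poly_of_stab {θ α : k'} (h : ∀ s : k' ≃ₐ[k] k', s θ = θ → s α = α) :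
    ∃ q : k[X], aeval θ q = α := by
  have hint : IsIntegral k θ := Algebra.IsIntegral.isIntegral θ
  have h1 : α ∈ IntermediateField.adjoin k {θ} := by
    have h2 := InfiniteGalois.fixedField_fixingSubgroup (IntermediateField.adjoin k {θ})
    rw [← h2]
    rintro ⟨s, hs⟩
    apply h
    exact hs ⟨θ, IntermediateField.mem_adjoin_simple_self k θ⟩
  rw [← IntermediateField.mem_toSubalgebra,
    IntermediateField.adjoin_simple_toSubalgebra_of_isAlgebraic
      (Algebra.IsAlgebraic.isAlgebraic θ)] at h1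
  rw [Algebra.adjoin_singleton_eq_range_aeval] at h1
  obtain ⟨q, hq⟩ := h1
  exact ⟨q, hq⟩

/-- the Kummer lemma -/
theorem kum_const {ℓ : ℕ} (hp : ℓ.Prime) (hℓ : (ℓ : k') ≠ 0) {ζ : k}
    (hζ : IsPrimitiveRoot ζ ℓ) {π : k[X]} (hπ : Irreducible π) (hK : Kum ℓ π) (r : k' → ZMod ℓ)
    (hr : ∀ s : k' ≃ₐ[k] k', ∃ B : ZMod ℓ, ∀ θ : k', aeval θ π = 0 → r (s θ) - r θ = B)
    {θ : k'} (hθ : aeval θ π = 0) (s : k' ≃ₐ[k] k') : r (s θ) = r θ := by
  haveI : NeZero ℓ := ⟨hp.ne_zero⟩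
  have hroot : ∀ s : k' ≃ₐ[k] k', aeval (s θ) π = 0 := fun s => by
    have := aeval_algHom_apply (s : k' →ₐ[k] k') θ π
    rw [hθ, map_zero] at this
    exact this
  have hζ' : IsPrimitiveRoot (algebraMap k k' ζ) ℓ :=
    hζ.map_of_injective (algebraMap k k').injective
  set z := algebraMap k k' ζ with hz
  have hadd : ∀ s t : k' ≃ₐ[k] k', r ((s * t) θ) - r θ = (r (s θ) - r θ) + (r (t θ) - r θ) := by
    intro s t
    obtain ⟨B, hB⟩ := hr s
    rw [hB θ hθ, ← hB (t θ) (hroot t), AlgEquiv.mul_apply]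
    ring
  have hpow : ∀ a b : ZMod ℓ, z ^ (a + b).val = z ^ a.val * z ^ b.val := by
    intro a b
    rw [← pow_add, ZMod.val_add]
    rw [← Nat.div_add_mod (a.val + b.val) ℓ, pow_add, pow_mul, hζ'.pow_eq_one, one_pow, one_mul,
      Nat.div_add_mod]
  obtain ⟨α, hα0, hα⟩ := kummer (K := k) hp hℓ hζ' (fun s => z ^ (r (s θ) - r θ).val)
    (fun s => ⟨_, rfl⟩) (fun s t => by rw [hadd, hpow])
    ((locConst_apply (K := k) θ).comp (fun x => z ^ (r x - r θ).val))
  have hαθ : ∀ s : k' ≃ₐ[k] k', s θ = θ → s α = α := by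
    intro s hs
    rw [hα, hs, sub_self, ZMod.val_zero, pow_zero, one_mul]
  obtain ⟨q, hq⟩ := exists_poly_of_stab hαθ
  have hb : ∃ b : k, algebraMap k k' b = α ^ ℓ := by
    have : α ^ ℓ ∈ Set.range (algebraMap k k') := by
      rw [InfiniteGalois.mem_range_algebraMap_iff_fixed]
      intro s
      rw [map_pow, hα, mul_pow, ← pow_mul, mul_comm _ ℓ, pow_mul, hζ'.pow_eq_one, one_pow, one_mul]
    exact this
  obtain ⟨b, hb⟩ := hb
  have hdvd : π ∣ q ^ ℓ - C b := by
    have h1 : aeval θ (q ^ ℓ - C b) = 0 := by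
      rw [map_sub, map_pow, hq, aeval_C, hb, sub_self]
    have h2 := minpoly.dvd k θ h1
    rw [← minpoly.eq_of_irreducible hπ hθ] at h2
    exact (dvd_mul_right _ _).trans h2
  obtain ⟨c, hc⟩ := hK b q hdvd
  have hc0 : algebraMap k k' c ≠ 0 := by
    intro h0
    have : α ^ ℓ = 0 := by rw [← hb, hc, map_pow, h0, zero_pow hp.ne_zero]
    exact hα0 (pow_eq_zero_iff hp.ne_zero |>.1 this)
  have hαc : (α / algebraMap k k' c) ^ ℓ = 1 := by
    rw [div_pow, ← hb, hc, map_pow, div_self (pow_ne_zero _ hc0)]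
  obtain ⟨i, -, hi⟩ := hζ'.eq_pow_of_pow_eq_one hαc
  have hfix : ∀ s : k' ≃ₐ[k] k', s α = α := by
    intro s
    have e : α = algebraMap k k' (ζ ^ i * c) := by
      rw [map_mul, map_pow, ← hz, hi, div_mul_cancel₀ _ hc0]
    rw [e, s.commutes]
  have h1 := hα s
  rw [hfix s] at h1
  have h2 : z ^ (r (s θ) - r θ).val = 1 := (mul_eq_right₀ hα0).1 h1.symm
  have h3 := (hζ'.pow_eq_one_iff_dvd _).1 h2
  have h4 : (r (s θ) - r θ).val = 0 := Nat.eq_zero_of_dvd_of_lt h3 (ZMod.val_lt _)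
  rw [ZMod.val_eq_zero] at h4
  exact sub_eq_zero.1 h4

end

end Pool.Agent.Y713.SE
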