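import Pool.Agent.Y713.TG.Rel

/-! Rigidity: the classes are invariant. -/

set_option autoImplicit false
set_option linter.all false

open Polynomial IsDedekindDomain

namespace Pool.Agent.Y713.SE

open Pool.Agent.TH115.GD (pl Preserves exists_conj val_poly lift restr preserves)

/-- The only functions `a` on the set of the branch points with
`∑ j, mult_π (e i - e j) (a i - a j) = 0` for all `i` and `π` are the constants. -/
def Rigid {k : Type} [Field k] {n : ℕ} (ℓ : ℕ) (e : Fin n → k[X]) : Prop :=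
  ∀ a : Fin n → ZMod ℓ, (∀ π : k[X], Irreducible π → Kum ℓ π → ∀ i,
    ∑ j ∈ Finset.univ.erase i, (multiplicity π (e i - e j) : ZMod ℓ) * (a i - a j) = 0) →
    ∀ i j, a i = a j

section mult
variable {k k' : Type} [Field k] [Field k'] [Algebra k k']

lemma dvd_iff_root {π : k[X]} (hπ : Irreducible π) {θ : k'} (hθ : aeval θ π = 0) (p : k[X]) :
    π ∣ p ↔ aeval θ p = 0 := by
  constructor
  · rintro ⟨q, rfl⟩
    rw [map_mul, hθ, zero_mul]
  · intro h
    have h1 := minpoly.dvd k θ h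
    rw [← minpoly.eq_of_irreducible hπ hθ] at h1
    exact (dvd_mul_right _ _).trans h1

lemma rootMult_eq {π : k[X]} (hπ : Irreducible π) (hs : π.Separable) {θ : k'}
    (hθ : aeval θ π = 0) {p : k[X]} (hp : p ≠ 0) :
    rootMultiplicity θ (p.map (algebraMap k k')) = multiplicity π p := by
  have hfin : FiniteMultiplicity π p := FiniteMultiplicity.of_not_isUnit hπ.not_isUnit hp
  obtain ⟨q, hq, hnd⟩ := hfin.exists_eq_pow_mul_and_not_dvd
  have hq0 : q ≠ 0 := by
    rintro rfl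
    exact hnd (dvd_zero _)
  conv_lhs => rw [hq]
  have h1 : π.map (algebraMap k k') ≠ 0 :=
    (Polynomial.map_ne_zero_iff (algebraMap k k').injective).2 hπ.ne_zero
  have h2 : q.map (algebraMap k k') ≠ 0 :=
    (Polynomial.map_ne_zero_iff (algebraMap k k').injective).2 hq0
  rw [Polynomial.map_mul, Polynomial.map_pow, rootMultiplicity_mul (mul_ne_zero (pow_ne_zero _ h1)
    h2)]
  have h3 : rootMultiplicity θ (q.map (algebraMap k k')) = 0 := by
    apply rootMultiplicity_eq_zero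
    intro h
    apply hnd
    rw [dvd_iff_root hπ hθ]
    rw [IsRoot.def, eval_map_algebraMap] at h
    exact h
  have h4 : rootMultiplicity θ (π.map (algebraMap k k')) = 1 := by
    apply le_antisymm
    · exact rootMultiplicity_le_one_of_separable (hs.map) θ
    · rw [Nat.succ_le_iff, rootMultiplicity_pos h1, IsRoot.def, eval_map_algebraMap]
      exact hθ
  have h5 : ∀ m : ℕ, rootMultiplicity θ ((π.map (algebraMap k k')) ^ m) = m := by
    intro m
    induction m with
    | zero => simp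
    | succ m ih =>
      rw [pow_succ, rootMultiplicity_mul (mul_ne_zero (pow_ne_zero _ h1) h1), ih, h4]
  rw [h5, h3, add_zero]

end mult

namespace Dat

variable {ℓ n : ℕ} {k k' K F Ω : Type} [Field k] [Field k'] [Algebra k k'] [IsSepClosure k k']
  [Field K] [Algebra k[X] K] [IsFractionRing k[X] K] [Field F] [Algebra k'[X] F]
  [IsFractionRing k'[X] F] [Algebra K F] [Field Ω] [Algebra F Ω] [Algebra K Ω]
  [IsScalarTower K F Ω] [IsSepClosure F Ω] [IsGalois F Ω] [IsGalois K Ω] [IsSepClosed Ω]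
  (D : Dat ℓ n K)
  (hKF : ∀ p : k[X], algebraMap K F (algebraMap k[X] K p) =
    algebraMap k'[X] F (p.map (algebraMap k k')))
  {e : Fin n → k[X]} (hDe : ∀ i, D.e i = algebraMap k[X] K (e i)) (hδ : D.δ = 1)
  (hℓ : (ℓ : k') ≠ 0)

include hDe in
omit [IsSepClosure k k'] [IsFractionRing k'[X] F] [Field Ω] [Algebra F Ω] [Algebra K Ω]
  [IsScalarTower K F Ω] [IsSepClosure F Ω] [IsGalois F Ω] [IsGalois K Ω] [IsSepClosed Ω]
  [Field k'] [Algebra k k'] [Field F] [Algebra k'[X] F] [Algebra K F] in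
lemma e_ne [IsFractionRing k[X] K] {i j : Fin n} (h : i ≠ j) : e i - e j ≠ 0 := by
  intro h0
  apply h
  apply D.he
  rw [hDe, hDe, sub_eq_zero.1 h0]

include hDe hKF in
omit [IsSepClosure k k'] [Field Ω] [Algebra F Ω] [Algebra K Ω]
  [IsScalarTower K F Ω] [IsSepClosure F Ω] [IsGalois F Ω] [IsGalois K Ω] [IsSepClosed Ω]
  [IsFractionRing k'[X] F] [IsFractionRing k[X] K] in
lemma alg_e (i j : Fin n) : algebraMap K F (D.e i - D.e j) =
    algebraMap k'[X] F ((e i - e j).map (algebraMap k k')) := by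
  rw [hDe, hDe, ← map_sub, hKF]

include hDe hKF in
omit [IsSepClosure k k'] [Field Ω] [Algebra F Ω] [Algebra K Ω]
  [IsScalarTower K F Ω] [IsSepClosure F Ω] [IsGalois F Ω] [IsGalois K Ω] [IsSepClosed Ω] in
lemma ov_e {π : k[X]} (hπ : Irreducible π) (hs : π.Separable) {θ : k'} (hθ : aeval θ π = 0)
    {i j : Fin n} (h : i ≠ j) : ov ℓ (pl θ) (algebraMap K F (D.e i - D.e j)) =
      -(multiplicity π (e i - e j) : ZMod ℓ) := by
  have h0 : e i - e j ≠ 0 := D.e_ne hDe h
  rw [D.alg_e hKF hDe, ov_poly ℓ θ ((Polynomial.map_ne_zero_iff (algebraMap k k').injective).2 h0),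
    rootMult_eq hπ hs hθ h0]

/-- invariance of the residues -/
structure Inv (χ : (Ω ≃ₐ[F] Ω) → Fin n → ℕ) : Prop where
  ex : ∀ τ : Ω ≃ₐ[K] Ω, ∃ (T : ClassGroup (D.base Ω).A) (m : Fin n → ℕ),
    D.Rl χ τ T ∧ cl ((D.base Ω).PT m) * (D.base Ω).sC T = T

variable {D}

include hKF hDe hδ hℓ in
theorem Inv.rigid {ζ : k} (hζ : IsPrimitiveRoot ζ ℓ)
    (hsep : ∀ i j, i ≠ j → ∀ π : k[X], Irreducible π → π ∣ e i - e j → π.Separable)
    (hR : Rigid ℓ e) {χ : (Ω ≃ₐ[F] Ω) → Fin n → ℕ} (hI : D.Inv χ) (kd : D.KF χ)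
    {τ : Ω ≃ₐ[K] Ω} {T : ClassGroup (D.base Ω).A} {m : Fin n → ℕ} (hT : D.Rl χ τ T)
    (hm : cl ((D.base Ω).PT m) * (D.base Ω).sC T = T) : (D.base Ω).sC T = T := by
  haveI : IsGalois k k' := inferInstance
  haveI : IsSepClosed k' := IsSepClosure.sep_closed k
  have hN : Preserves K F Ω := preserves hKF
  haveI := Fact.mk D.hp
  have hn : (n : ZMod ℓ) ≠ 0 := by
    rw [Ne, ZMod.natCast_eq_zero_iff]
    exact D.hn
  have key : ∀ i j, (m i : ZMod ℓ) = m j := by
    apply hR (fun i => (m i : ZMod ℓ))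
    intro π hπ hK i
    by_cases hdv : ∀ j, i ≠ j → ¬ π ∣ e i - e j
    · refine Finset.sum_eq_zero fun j hj => ?_
      have h1 := hdv j (Finset.ne_of_mem_erase hj).symm
      rw [multiplicity_eq_zero.2 h1, Nat.cast_zero, zero_mul]
    push Not at hdv
    obtain ⟨j0, hj0, hdv⟩ := hdv
    have hs := hsep i j0 hj0 π hπ hdv
    obtain ⟨θ, hθ⟩ : ∃ θ : k', aeval θ π = 0 := by
      have h1 : (π.map (algebraMap k k')).Splits := IsSepClosed.splits_of_separable _ hs.map
      have h2 : (π.map (algebraMap k k')).degree ≠ 0 := by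
        rw [degree_map]
        exact (degree_pos_of_irreducible hπ).ne'
      obtain ⟨θ, hθ⟩ := h1.exists_eval_eq_zero h2
      exact ⟨θ, by rwa [eval_map_algebraMap] at hθ⟩
    have hroot : ∀ (s : k' ≃ₐ[k] k') {θ' : k'}, aeval θ' π = 0 → aeval (s θ') π = 0 := by
      intro s θ' h
      have := aeval_algHom_apply (s : k' →ₐ[k] k') θ' π
      rw [h, map_zero] at this
      exact this
    -- the change of the residues
    have hch : ∀ (τ : Ω ≃ₐ[K] Ω) (s : k' ≃ₐ[k] k'), Over (F := F) τ s →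
        ∀ (T : ClassGroup (D.base Ω).A) (m : Fin n → ℕ), D.Rl χ τ T →
        cl ((D.base Ω).PT m) * (D.base Ω).sC T = T → ∀ θ' : k', aeval θ' π = 0 →
        kd.rr D (pl (s θ')) i - kd.rr D (pl (k' := k') θ') i = (n : ZMod ℓ) *
          ∑ j ∈ Finset.univ.erase i, (multiplicity π (e i - e j) : ZMod ℓ) *
            ((m i : ZMod ℓ) - m j) := by
      intro τ s hτs T m hT hm θ' hθ'
      rw [D.rr_conj hN hδ hℓ kd hτs hT hm θ' i]
      have e1 : ∑ k ∈ Finset.univ.erase i, ((m i : ZMod ℓ) - m k) *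
          ov ℓ (pl (s θ')) (algebraMap K F (D.e i - D.e k)) =
          - ∑ j ∈ Finset.univ.erase i, (multiplicity π (e i - e j) : ZMod ℓ) *
            ((m i : ZMod ℓ) - m j) := by
        rw [← Finset.sum_neg_distrib]
        refine Finset.sum_congr rfl fun j hj => ?_
        rw [D.ov_e hKF hDe hπ hs (hroot s hθ') (Finset.ne_of_mem_erase hj).symm]
        ring
      rw [e1]
      ring
    have hconst := kum_const (k' := k') D.hp hℓ hζ hπ hK (fun θ' => kd.rr D (pl (k' := k') θ') i)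
      (fun s => by
        obtain ⟨τ', hτ'⟩ := lift (Ω := Ω) hKF s
        obtain ⟨T', m', hT', hm'⟩ := hI.ex τ'
        exact ⟨_, fun θ' hθ' => hch τ' s hτ' T' m' hT' hm' θ' hθ'⟩) hθ
    obtain ⟨s, hs'⟩ := restr hKF τ
    have h1 := hch τ s hs' T m hT hm θ hθ
    have h2 := hconst s
    rw [h2, sub_self] at h1
    exact (mul_eq_zero.1 h1.symm).resolve_left hn
  have h1 : cl ((D.base Ω).PT m) = 1 := by
    apply (D.base Ω).cl_PT_of_modEq
    intro i j
    exact (ZMod.natCast_eq_natCast_iff _ _ _).1 (key i j)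
  rwa [h1, one_mul] at hm

include hKF hDe hδ hℓ in
/-- the residues are invariant -/
theorem Inv.rr {ζ : k} (hζ : IsPrimitiveRoot ζ ℓ)
    (hsep : ∀ i j, i ≠ j → ∀ π : k[X], Irreducible π → π ∣ e i - e j → π.Separable)
    (hR : Rigid ℓ e) {χ : (Ω ≃ₐ[F] Ω) → Fin n → ℕ} (hI : D.Inv χ) (kd : D.KF χ)
    (s : k' ≃ₐ[k] k') (θ : k') (i : Fin n) :
    kd.rr D (pl (s θ)) i = kd.rr D (pl (k' := k') θ) i := by
  have hN : Preserves K F Ω := preserves hKF
  obtain ⟨τ, hτ⟩ := lift (Ω := Ω) hKF s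
  obtain ⟨T, m, hT, hm⟩ := hI.ex τ
  have h1 := hI.rigid hKF hDe hδ hℓ hζ hsep hR kd hT hm
  have h2 : cl ((D.base Ω).PT (fun _ : Fin n => 0)) * (D.base Ω).sC T = T := by
    have h4 : cl ((D.base Ω).PT (fun _ : Fin n => 0)) = 1 :=
      (D.base Ω).cl_PT_of_modEq (fun i j => Nat.ModEq.refl _)
    rw [h1, h4, one_mul]
  have h3 := D.rr_conj hN hδ hℓ kd hτ hT h2 θ i
  simp only [Nat.cast_zero, sub_self, zero_mul, Finset.sum_const_zero, mul_zero, add_zero] at h3
  exact h3.symm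

end Dat

end Pool.Agent.Y713.SE
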