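import Pool.Agent.Y713.TG.Val
import Pool.Agent.Y713.TG.Kmm
import Pool.Agent.TH115.GD.Place
import Pool.Agent.TH115.TC.Cob

/-! The action of the Galois group of `K` on the residues. -/

set_option autoImplicit false
set_option linter.all false

open Polynomial IsDedekindDomain

namespace Pool.Agent.Y713.SE

open Pool.Agent.TH115.GD (pl Preserves exists_conj val_poly cont_rs)

section places
variable {k' F : Type} [Field k'] [Field F] [Algebra k'[X] F] [IsFractionRing k'[X] F]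

lemma ov_poly (ℓ : ℕ) (θ : k') {p : k'[X]} (hp : p ≠ 0) :
    ov ℓ (pl θ) (algebraMap k'[X] F p) = -(rootMultiplicity θ p : ZMod ℓ) := by
  unfold ov lg
  rw [val_poly θ hp, WithZero.log_exp]
  push_cast
  rfl

lemma ov_frac (ℓ : ℕ) (θ : k') {n d : k'[X]} (hn : n ≠ 0) (hd : d ≠ 0) :
    ov ℓ (pl θ) (algebraMap k'[X] F n / algebraMap k'[X] F d) =
      (rootMultiplicity θ d : ZMod ℓ) - (rootMultiplicity θ n : ZMod ℓ) := by
  have hd' : algebraMap k'[X] F d ≠ 0 := by simpa using hd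
  have hn' : algebraMap k'[X] F n ≠ 0 := by simpa using hn
  rw [div_eq_mul_inv, ov_mul hn' (inv_ne_zero hd'), ov_inv hd', ov_poly ℓ θ hn, ov_poly ℓ θ hd]
  ring

end places

section galois
variable {k k' K F Ω : Type} [Field k] [Field k'] [Algebra k k']
  [Field K] [Field F] [Algebra k'[X] F]
  [IsFractionRing k'[X] F] [Field Ω] [Algebra F Ω] [Algebra K Ω]

/-- compatibility of an automorphism with an automorphism of the constants -/
def Over (τ : Ω ≃ₐ[K] Ω) (s : k' ≃ₐ[k] k') : Prop := ∀ p : k'[X],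
    τ (algebraMap F Ω (algebraMap k'[X] F p)) =
      algebraMap F Ω (algebraMap k'[X] F (p.map (s : k' →+* k')))

theorem ov_galois (ℓ : ℕ) {τ : Ω ≃ₐ[K] Ω} {s : k' ≃ₐ[k] k'} (hs : Over (F := F) τ s) {x y : F}
    (hx : x ≠ 0) (hxy : τ (algebraMap F Ω x) = algebraMap F Ω y) (θ : k') :
    ov ℓ (pl (s θ)) y = ov ℓ (pl θ) x := by
  obtain ⟨n, d, hd, rfl⟩ := IsFractionRing.div_surjective (A := k'[X]) x
  have hd0 : d ≠ 0 := nonZeroDivisors.ne_zero hd
  have hn0 : n ≠ 0 := by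
    rintro rfl
    simp at hx
  have hinj : Function.Injective (s : k' →+* k') := s.injective
  have hy : y = algebraMap k'[X] F (n.map (s : k' →+* k')) /
      algebraMap k'[X] F (d.map (s : k' →+* k')) := by
    apply (algebraMap F Ω).injective
    rw [← hxy, _root_.map_div₀, _root_.map_div₀, hs, hs, _root_.map_div₀]
  rw [hy, ov_frac ℓ _ ((Polynomial.map_ne_zero_iff hinj).2 hn0)
    ((Polynomial.map_ne_zero_iff hinj).2 hd0), ov_frac ℓ _ hn0 hd0]
  congr 2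
  · exact (eq_rootMultiplicity_map hinj θ).symm
  · exact (eq_rootMultiplicity_map hinj θ).symm

end galois

namespace Dat

variable {ℓ n : ℕ} {K : Type} [Field K] (D : Dat ℓ n K)
variable {F Ω : Type} [Field F] [Algebra K F] [Field Ω] [Algebra K Ω] [Algebra F Ω]
  [IsScalarTower K F Ω]

/-- conjugate Kummer data -/
theorem exists_conjKF (hN : Preserves K F Ω) {χ : (Ω ≃ₐ[F] Ω) → Fin n → ℕ} (kd : D.KF χ)
    (τ : Ω ≃ₐ[K] Ω) {g : (Ω ≃ₐ[F] Ω) → (Ω ≃ₐ[F] Ω)} (hg : ∀ σ x, τ (g σ x) = σ (τ x)) :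
    ∃ kd' : D.KF (fun σ => χ (g σ)),
      ∀ i j, τ (algebraMap F Ω (kd.d i j)) = algebraMap F Ω (kd'.d i j) := by
  have hz : ∀ a : ℕ, τ ((D.base Ω).ζ ^ a) = (D.base Ω).ζ ^ a := fun a => by
    rw [map_pow]
    congr 1
    exact τ.commutes D.ζ
  choose d' hd' using fun i j => hN τ (kd.d i j)
  refine ⟨⟨fun i j => τ (kd.θ i j), d', fun i j => (_root_.map_ne_zero _).2 (kd.h0 i j),
    fun σ i j => ?_, fun i j => ?_⟩, fun i j => hd' i j⟩
  · show (D.base Ω).ζ ^ χ (g σ) j * σ (τ (kd.θ i j)) = (D.base Ω).ζ ^ χ (g σ) i * τ (kd.θ i j)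
    rw [← hg, ← hz (χ (g σ) j), ← map_mul, kd.hθ, map_mul, hz]
  · rw [← map_pow, kd.hd, hd']

/-- the action of automorphisms over `F` is locally constant -/
lemma mC_rs_locConst [IsGalois K Ω] (T : ClassGroup (D.base Ω).A) :
    IsLocallyConstant (fun σ : Ω ≃ₐ[F] Ω => D.mC (rs K σ) T) := by
  have h1 := (D.mC_locConst (L := Ω) T).comp_continuous (cont_rs (F := K) (M := F) (Ω := Ω))
  have h2 : (fun σ : Ω ≃ₐ[F] Ω => D.mC (rs K σ) T) =
      (fun σ : Ω ≃ₐ[K] Ω => D.mC (au σ) T) ∘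
        (AlgEquiv.restrictScalarsHom K : (Ω ≃ₐ[F] Ω) →* (Ω ≃ₐ[K] Ω)) := by
    funext σ
    have e : rs K σ = au (AlgEquiv.restrictScalarsHom K σ) := AlgHom.ext fun x => rfl
    rw [Function.comp_apply, e]
  rw [h2]
  exact h1

lemma cob_CocF [IsGalois K Ω] (T : ClassGroup (D.base Ω).A) :
    D.CocF (fun σ : Ω ≃ₐ[F] Ω => D.mC (rs K σ) T / T) := by
  refine ⟨(D.mC_rs_locConst T).comp (fun a => a / T), fun σ τ => ?_⟩
  have e1 : (rs K σ).comp (rs K τ) = rs K (σ * τ) := AlgHom.ext fun x => rfl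
  rw [_root_.map_div, mC_mC, e1, mul_comm, div_mul_div_cancel]

/-- the coboundary of an element whose image is a combination of branch points -/
lemma exists_chi [IsSepClosed Ω] {p : ℕ} [ExpChar Ω p] {T : ClassGroup (D.base Ω).A}
    {m : Fin n → ℕ} (hT : cl ((D.base Ω).PT m) * (D.base Ω).sC T = T) :
    ∃ χ : (Ω ≃ₐ[F] Ω) → Fin n → ℕ, ∀ σ, cl ((D.base Ω).PT (χ σ)) = D.mC (rs K σ) T / T := by
  have h : ∀ σ : Ω ≃ₐ[F] Ω, ∃ m' : Fin n → ℕ, cl ((D.base Ω).PT m') = D.mC (rs K σ) T / T := by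
    intro σ
    have h1 := congrArg (D.mC (rs K σ)) hT
    rw [map_mul, D.mC_PT (rs K σ), mC_sC] at h1
    have h2 : (D.base Ω).sC (D.mC (rs K σ) T / T) = D.mC (rs K σ) T / T := by
      rw [_root_.map_div]
      have e1 : (D.base Ω).sC (D.mC (rs K σ) T) = D.mC (rs K σ) T / cl ((D.base Ω).PT m) := by
        rw [eq_div_iff_mul_eq', mul_comm, h1]
      have e2 : (D.base Ω).sC T = T / cl ((D.base Ω).PT m) := by
        rw [eq_div_iff_mul_eq', mul_comm, hT]
      rw [e1, e2, div_div_div_cancel_right]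
    obtain ⟨m', hm'⟩ := (D.base Ω).phi_ker (p := p) h2
    exact ⟨m', by rw [hm', cl_PT]⟩
  choose χ hχ using h
  exact ⟨χ, hχ⟩

end Dat

end Pool.Agent.Y713.SE
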