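import Pool.Agent.Y713.TG.Cmb

/-! Generators of the group of the Tate classes. -/

set_option autoImplicit false
set_option linter.all false

open Polynomial IsDedekindDomain
open scoped nonZeroDivisors Classical

namespace Pool.Agent.Y713.TG

open Pool.Agent.Y160.SE
open Pool.Agent.TH115.GD (incl rs ak Sep Comp CompInf IsTower rs_mul)

section step

variable {ℓ : ℕ} {k' K F : Type} [Field k'] [Field K] [Field F] [Algebra K F] [Algebra k'[X] F]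
  [IsFractionRing k'[X] F] {f : K[X]} {ζ : K} (H : Hyps) (hg : Good ℓ ζ f)

include H hg

/-- Division of a Tate class by `1 - σ`. -/
theorem div_class2 {c : ℕ → (Sep F ≃ₐ[F] Sep F) → Jac ℓ f (Sep F)} (hT : IsTateClass ℓ k' f c)
    {P : Jac ℓ f K} {R : Jac ℓ f (Sep F)}
    (hR : pe hg (Sep F) (1 - X) R = jm ℓ f (incl K K (Sep F)) P)
    (key : ∀ σ, pe hg (Sep F) ((1 - X) ^ (ℓ - 2)) (c 1 σ) = jm ℓ f (rs K σ) R - R) :
    ∃ (V0 : ℤ[X]) (G : ℕ → Jac ℓ f (Sep F)) (c' : ℕ → (Sep F ≃ₐ[F] Sep F) → Jac ℓ f (Sep F)),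
      G 0 = jm ℓ f (incl K K (Sep F)) (pe hg K V0 P) ∧ (∀ n, ℓ • G (n + 1) = G n) ∧ IsTateClass ℓ k' f c' ∧
      ∀ n σ, c n σ = (jm ℓ f (rs K σ) (G n) - G n) + pe hg (Sep F) (1 - X) (c' n σ) := by
  obtain ⟨U, hU⟩ := exists_U' H hg
  have h2 := hg.prime.two_le
  have hpow : ((1 : ℤ[X]) - X) ^ (ℓ - 1) = (1 - X) * (1 - X) ^ (ℓ - 2) := by
    rw [← pow_succ', show ℓ - 2 + 1 = ℓ - 1 by omega]
  have hUl : ∀ x : Jac ℓ f (Sep F), pe hg (Sep F) (1 - X) (pe hg (Sep F) (U * (1 - X) ^ (ℓ - 2)) x) =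
      ℓ • x := by
    intro x
    rw [hU, ← pe_mul, hpow]
    congr 1
    congr 1
    ring
  have hUl' : ∀ x : Jac ℓ f (Sep F), pe hg (Sep F) (U * (1 - X) ^ (ℓ - 2)) (pe hg (Sep F) (1 - X) x) =
      ℓ • x := by
    intro x
    rw [pe_comm, hUl]
  obtain ⟨R1, hR1⟩ := lam_pow_surj H hg (ℓ - 2) R
  -- divisibility by `ℓ`
  have hdiv : ∀ x : Jac ℓ f (Sep F), ∃ y, ℓ • y = x := by
    intro x
    obtain ⟨W, hW⟩ := exists_W' H hg
    obtain ⟨y, hy⟩ := lam_pow_surj H hg ℓ x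
    exact ⟨pe hg _ W y, by rw [← hW, hy]⟩
  choose dv hdv using hdiv
  let P' : Jac ℓ f K := pe hg K U P
  let G : ℕ → Jac ℓ f (Sep F) := fun n => Nat.casesOn n (ℓ • R1)
    (fun i => Nat.rec R1 (fun _ X => dv X) i)
  have G0 : G 0 = jm ℓ f (incl K K (Sep F)) P' := by
    show ℓ • R1 = _
    rw [jm_pe, ← hR, hU, ← hR1, ← pe_mul, ← pe_mul, hpow]
    congr 1
    congr 1
    ring
  have G1 : G 1 = R1 := rfl
  have GS : ∀ n, ℓ • G (n + 1) = G n := by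
    intro n
    cases n with
    | zero => rfl
    | succ n => exact hdv _
  have PK : ∀ φ : Sep F →ₐ[K] Sep F, jm ℓ f φ (G 0) = G 0 := by
    intro φ
    have h1 : φ.comp (incl K K (Sep F)) = incl K K (Sep F) := AlgHom.ext fun x => φ.commutes x
    rw [G0, jm_jm, h1]
  set V : ℤ[X] := U * (1 - X) ^ (ℓ - 2) with hV
  let b : ℕ → (Sep F ≃ₐ[F] Sep F) → Jac ℓ f (Sep F) := fun n σ =>
    c n σ - (jm ℓ f (rs K σ) (G n) - G n)
  let c' : ℕ → (Sep F ≃ₐ[F] Sep F) → Jac ℓ f (Sep F) := fun n σ => pe hg (Sep F) V (b (n + 1) σ)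
  have bS : ∀ n σ, ℓ • b (n + 1) σ = b n σ := by
    intro n σ
    show ℓ • (c (n + 1) σ - (jm ℓ f (rs K σ) (G (n + 1)) - G (n + 1))) = _
    rw [smul_sub, smul_sub, ← map_nsmul, GS, hT.tc.step]
  have hlam : ∀ n σ, pe hg (Sep F) (1 - X) (c' n σ) = b n σ := by
    intro n σ
    show pe hg (Sep F) (1 - X) (pe hg (Sep F) V (b (n + 1) σ)) = _
    rw [hUl, bS]
  refine ⟨U, G, c', G0, GS, ⟨?_, fun n => ?_, ?_⟩, fun n σ => ?_⟩
  · refine ⟨fun n => ((hT.tc.coc (n + 1)).sub (cob_isCoc H hg _)).pe hg V, fun σ => ?_, fun n σ => ?_⟩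
    · show pe hg (Sep F) V (b 1 σ) = 0
      have h3 : pe hg (Sep F) ((1 - X) ^ (ℓ - 2)) (b 1 σ) = 0 := by
        show pe hg (Sep F) ((1 - X) ^ (ℓ - 2)) (c 1 σ - (jm ℓ f (rs K σ) (G 1) - G 1)) = 0
        rw [map_sub, key, map_sub, ← jm_pe, G1, hR1, sub_self]
      rw [hV, pe_mul, h3, map_zero]
    · show ℓ • pe hg (Sep F) V (b (n + 1 + 1) σ) = pe hg (Sep F) V (b (n + 1) σ)
      rw [← map_nsmul, bS]
  · obtain ⟨h1, h3⟩ := hT.loc (n + 1)
    exact ⟨fun v => ((h1 v).sub _).pe hg V, (h3.sub _).pe hg V⟩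
  · intro τ
    obtain ⟨m, Q, hQ, hinv⟩ := hT.inv τ
    -- the element for `b`
    let Q' : ℕ → Jac ℓ f (Sep F) := fun n => Q n - ℓ ^ m • (jm ℓ f (ak τ) (G n) - G n)
    have Q'0 : Q' 0 = 0 := by
      show Q 0 - ℓ ^ m • (jm ℓ f (ak τ) (G 0) - G 0) = 0
      rw [hQ.zero, PK, sub_self, smul_zero, sub_zero]
    have Q'S : ∀ n, ℓ • Q' (n + 1) = Q' n := by
      intro n
      show ℓ • (Q (n + 1) - ℓ ^ m • (jm ℓ f (ak τ) (G (n + 1)) - G (n + 1))) = _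
      rw [smul_sub, hQ.step, smul_comm, smul_sub, ← map_nsmul, GS]
    have hb : ∀ (n : ℕ) (σ σ' : Sep F ≃ₐ[F] Sep F), (∀ x, τ (σ' x) = σ (τ x)) →
        ℓ ^ m • (jm ℓ f (ak τ) (b n σ') - b n σ) = jm ℓ f (rs K σ) (Q' n) - Q' n := by
      intro n σ σ' h
      have h1 := hinv n σ σ' h
      have hcomp : jm ℓ f (ak τ) (jm ℓ f (rs K σ') (G n)) =
          jm ℓ f (rs K σ) (jm ℓ f (ak τ) (G n)) := by
        have h5 : (ak τ).comp (rs K σ') = (rs K σ).comp (ak τ) := AlgHom.ext fun x => h x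
        rw [jm_jm, jm_jm, h5]
      show ℓ ^ m • (jm ℓ f (ak τ) (c n σ' - (jm ℓ f (rs K σ') (G n) - G n)) -
        (c n σ - (jm ℓ f (rs K σ) (G n) - G n))) =
        jm ℓ f (rs K σ) (Q n - ℓ ^ m • (jm ℓ f (ak τ) (G n) - G n)) -
          (Q n - ℓ ^ m • (jm ℓ f (ak τ) (G n) - G n))
      rw [map_sub (jm ℓ f (ak τ)), map_sub (jm ℓ f (ak τ)), hcomp]
      have h4 : jm ℓ f (ak τ) (c n σ') -
          (jm ℓ f (rs K σ) (jm ℓ f (ak τ) (G n)) - jm ℓ f (ak τ) (G n)) -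
          (c n σ - (jm ℓ f (rs K σ) (G n) - G n)) =
          (jm ℓ f (ak τ) (c n σ') - c n σ) -
          (jm ℓ f (rs K σ) (jm ℓ f (ak τ) (G n) - G n) - (jm ℓ f (ak τ) (G n) - G n)) := by
        rw [map_sub (jm ℓ f (rs K σ))]; abel
      rw [h4, smul_sub, h1, map_sub (jm ℓ f (rs K σ)) (Q n), map_nsmul (jm ℓ f (rs K σ)), smul_sub]
      abel
    refine ⟨m + 1, fun n => ℓ • pe hg (Sep F) V (Q' (n + 1)), ⟨?_, fun n => ?_⟩, ?_⟩
    · show ℓ • pe hg (Sep F) V (Q' (0 + 1)) = 0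
      rw [← map_nsmul, Q'S, Q'0, map_zero]
    · show ℓ • (ℓ • pe hg (Sep F) V (Q' (n + 1 + 1))) = ℓ • pe hg (Sep F) V (Q' (n + 1))
      rw [← map_nsmul (pe hg (Sep F) V), Q'S]
    · intro n σ σ' h
      have h1 := hb (n + 1) σ σ' h
      show ℓ ^ (m + 1) • (jm ℓ f (ak τ) (pe hg (Sep F) V (b (n + 1) σ')) -
        pe hg (Sep F) V (b (n + 1) σ)) = jm ℓ f (rs K σ) (ℓ • pe hg (Sep F) V (Q' (n + 1))) -
          ℓ • pe hg (Sep F) V (Q' (n + 1))
      rw [jm_pe, ← map_sub, pow_succ', mul_smul, ← map_nsmul, h1, map_nsmul, ← smul_sub, map_sub,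
        jm_pe]
  · rw [hlam]
    show c n σ = (jm ℓ f (rs K σ) (G n) - G n) + (c n σ - (jm ℓ f (rs K σ) (G n) - G n))
    abel


omit H in
variable (k') in
/-- The first layers of the Tate classes are combinations of the first layers of the `E i` and of
the classes of the elements of `A`. -/
def FirstHyp {m : ℕ} (E : Fin m → ℕ → (Sep F ≃ₐ[F] Sep F) → Jac ℓ f (Sep F))
    (A : AddSubgroup (Jac ℓ f K)) : Prop :=
  ∀ c : ℕ → (Sep F ≃ₐ[F] Sep F) → Jac ℓ f (Sep F), IsTateClass ℓ k' f c →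
      ∃ (z : Fin m → ℤ) (P : Jac ℓ f K) (R : Jac ℓ f (Sep F)), P ∈ A ∧
        pe hg (Sep F) (1 - X) R = jm ℓ f (incl K K (Sep F)) P ∧
        ∀ σ, pe hg (Sep F) ((1 - X) ^ (ℓ - 2)) (c 1 σ - ∑ i, z i • E i 1 σ) =
          jm ℓ f (rs K σ) R - R

/-- Generators. -/
theorem gen_of_first {m : ℕ} {E : Fin m → ℕ → (Sep F ≃ₐ[F] Sep F) → Jac ℓ f (Sep F)}
    (hE : ∀ i, IsTateClass ℓ k' f (E i)) (A : AddSubgroup (Jac ℓ f K))
    (hA : ∀ (V : ℤ[X]), ∀ P ∈ A, pe hg K V P ∈ A)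
    (h : FirstHyp k' hg E A)
    {c : ℕ → (Sep F ≃ₐ[F] Sep F) → Jac ℓ f (Sep F)} (hc : IsTateClass ℓ k' f c) (n : ℕ) :
    ∃ (p : Fin m → ℤ[X]) (P : Jac ℓ f K) (R : Jac ℓ f (Sep F)), P ∈ A ∧
      ℓ ^ n • R = jm ℓ f (incl K K (Sep F)) P ∧
      ∀ σ, c n σ = ∑ i, pe hg (Sep F) (p i) (E i n σ) + (jm ℓ f (rs K σ) R - R) := by
  have key : ∀ (N : ℕ) (c : ℕ → (Sep F ≃ₐ[F] Sep F) → Jac ℓ f (Sep F)), IsTateClass ℓ k' f c →
      ∃ (p : Fin m → ℤ[X]) (P : Jac ℓ f K) (G : ℕ → Jac ℓ f (Sep F))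
        (c' : ℕ → (Sep F ≃ₐ[F] Sep F) → Jac ℓ f (Sep F)), P ∈ A ∧
        G 0 = jm ℓ f (incl K K (Sep F)) P ∧ (∀ n, ℓ • G (n + 1) = G n) ∧ IsTateClass ℓ k' f c' ∧
        ∀ n σ, c n σ = ∑ i, pe hg (Sep F) (p i) (E i n σ) +
          (jm ℓ f (rs K σ) (G n) - G n) + pe hg (Sep F) ((1 - X) ^ N) (c' n σ) := by
    intro N
    induction N with
    | zero =>
      intro c hc
      refine ⟨fun _ => 0, 0, fun _ => 0, c, A.zero_mem, ?_, fun n => smul_zero _, hc,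
        fun n σ => ?_⟩
      · rw [map_zero]
      · have e0 : ∀ x : Jac ℓ f (Sep F), pe hg (Sep F) 0 x = 0 := by
          intro x
          unfold pe
          rw [map_zero]
          rfl
        rw [Finset.sum_eq_zero fun i _ => e0 _, map_zero, sub_zero, zero_add, zero_add, pow_zero,
          pe_one]
    | succ N ih =>
      intro c hc
      obtain ⟨z, P, R, hPA, hR, hcR⟩ := h c hc
      have hb : IsTateClass ℓ k' f (fun n σ => c n σ + ∑ i, (-z i) • E i n σ) :=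
        tate_add hc (tate_sum hE (fun i => -z i) Finset.univ)
      have hcR' : ∀ σ, pe hg (Sep F) ((1 - X) ^ (ℓ - 2))
          ((fun n σ => c n σ + ∑ i, (-z i) • E i n σ) 1 σ) = jm ℓ f (rs K σ) R - R := by
        intro σ
        rw [← hcR]
        congr 1
        have e0 : ∑ i, (-z i) • E i 1 σ = -∑ i, z i • E i 1 σ := by
          simp only [neg_smul, Finset.sum_neg_distrib]
        show c 1 σ + ∑ i, (-z i) • E i 1 σ = c 1 σ - ∑ i, z i • E i 1 σ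
        rw [e0]
        exact (sub_eq_add_neg _ _).symm
      obtain ⟨V0, G1, c1, h1, h3, h4, h5⟩ := div_class2 H hg hb hR hcR'
      obtain ⟨p, P2, G2, c2, hP2, h6, h7, h8, h9⟩ := ih c1 h4
      refine ⟨fun i => C (z i) + (1 - X) * p i, pe hg K V0 P + pe hg K (1 - X) P2,
        fun n => G1 n + pe hg (Sep F) (1 - X) (G2 n), c2,
        A.add_mem (hA _ _ hPA) (hA _ _ hP2), ?_, fun n => ?_, h8, fun n σ => ?_⟩
      · show G1 0 + pe hg (Sep F) (1 - X) (G2 0) = _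
        rw [h1, h6, map_add, jm_pe, jm_pe]
      · show ℓ • (G1 (n + 1) + pe hg (Sep F) (1 - X) (G2 (n + 1))) = _
        rw [smul_add, h3, ← map_nsmul, h7]
      · show c n σ = ∑ i, pe hg (Sep F) (C (z i) + (1 - X) * p i) (E i n σ) +
          (jm ℓ f (rs K σ) (G1 n + pe hg (Sep F) (1 - X) (G2 n)) -
          (G1 n + pe hg (Sep F) (1 - X) (G2 n))) + pe hg (Sep F) ((1 - X) ^ (N + 1)) (c2 n σ)
        have e1 := h5 n σ
        replace e1 : c n σ + ∑ i, (-z i) • E i n σ = _ := e1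
        have e2 : ∑ i, pe hg (Sep F) (C (z i) + (1 - X) * p i) (E i n σ) =
            ∑ i, z i • E i n σ + pe hg (Sep F) (1 - X) (∑ i, pe hg (Sep F) (p i) (E i n σ)) := by
          rw [map_sum, ← Finset.sum_add_distrib]
          refine Finset.sum_congr rfl fun i _ => ?_
          rw [pe_add, pe_mul]
          congr 1
          unfold pe
          rw [aeval_C, Algebra.algebraMap_eq_smul_one]
          rfl
        have e3 : c n σ = ∑ i, z i • E i n σ + (c n σ + ∑ i, (-z i) • E i n σ) := by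
          simp only [neg_smul, Finset.sum_neg_distrib]
          abel
        rw [e3, e1, e2, h9, map_add, map_add, map_sub, ← pe_mul, ← pow_succ', map_add, jm_pe]
        abel
  obtain ⟨W, hW⟩ := exists_W' H hg
  obtain ⟨p, P, G, c', hPA, h0, h1, h3, h4⟩ := key (ℓ * n) c hc
  have hWn : ∀ (n : ℕ) (x : Jac ℓ f (Sep F)), pe hg (Sep F) ((1 - X) ^ (ℓ * n)) x =
      pe hg (Sep F) (W ^ n) (ℓ ^ n • x) := by
    intro n
    induction n with
    | zero => intro x; rw [mul_zero, pow_zero, pow_zero, pow_zero, one_smul]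
    | succ n ih =>
      intro x
      rw [mul_add, mul_one, pow_add, pe_mul, hW, ih, pow_succ W, pe_mul, pow_succ ℓ, mul_smul,
        ← map_nsmul, ← map_nsmul, smul_comm]
  have hz : ∀ (n : ℕ) (σ : Sep F ≃ₐ[F] Sep F), ℓ ^ n • c' n σ = 0 := by
    intro n σ
    induction n with
    | zero => rw [pow_zero, one_smul, h3.tc.zero]
    | succ n ih => rw [pow_succ, mul_smul, h3.tc.step, ih]
  have hG : ∀ n : ℕ, ℓ ^ n • G n = jm ℓ f (incl K K (Sep F)) P := by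
    intro n
    induction n with
    | zero => rw [pow_zero, one_smul, h0]
    | succ n ih => rw [pow_succ, mul_smul, h1, ih]
  refine ⟨p, P, G n, hPA, hG n, fun σ => ?_⟩
  rw [h4 n σ, hWn, hz, map_zero, add_zero]

end step

end Pool.Agent.Y713.TG
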