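import Pool.Agent.Y713.TG.Fst
import Pool.Agent.Y713.TG.Gen

/-! The bound for the number of the generators. -/

set_option autoImplicit false
set_option linter.all false

open Polynomial IsDedekindDomain

namespace Pool.Agent.Y713.SE

open Pool.Agent.Y160.SE (Jac jm sg pe Good IsTateClass IsTC IsTM IsCoc LocTriv hyps jm_pe pe_mul
  first_tor exists_W1' exists_W' tate_of_first TateAt exists_U')
open Pool.Agent.TH115.GD (pl Preserves Comp Sep exists_conj lift restr preserves incl ak IsTower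
  sepKΩ)
open Pool.Agent.Y713.TG (tate_add tate_smul tate_zero gen_of_first)

lemma sub_sum_apply {X M : Type} [AddCommGroup M] (A : AddSubgroup (ℕ → X → M)) (c : A) {m : ℕ}
    (E : Fin m → A) (z : Fin m → ℤ) (n : ℕ) (σ : X) :
    ((c - ∑ i, z i • E i : A) : ℕ → X → M) n σ =
      (c : ℕ → X → M) n σ - ∑ i, z i • (E i : ℕ → X → M) n σ := by
  rw [AddSubgroup.coe_sub, AddSubgroup.val_finset_sum, Pi.sub_apply, Pi.sub_apply,
    Finset.sum_apply, Finset.sum_apply]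
  rfl

/-- the group of the Tate classes -/
def TCl (ℓ : ℕ) (k' : Type) [Field k'] {K F : Type} [Field K] [Field F] [Algebra K F]
    [Algebra k'[X] F] [IsFractionRing k'[X] F] (f : K[X]) :
    AddSubgroup (ℕ → (Sep F ≃ₐ[F] Sep F) → Jac ℓ f (Sep F)) where
  carrier := {c | IsTateClass ℓ k' f c}
  add_mem' := fun h h' => tate_add h h'
  zero_mem' := tate_zero
  neg_mem' := by
    intro c hc
    have h := tate_smul hc (-1)
    have e : (fun n σ => (-1 : ℤ) • c n σ) = -c := by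
      funext n σ
      rw [neg_smul, one_smul]
      rfl
    rw [e] at h
    exact h

namespace Dat

variable {ℓ n : ℕ} {k k' K F : Type} [Field k] [Field k'] [Algebra k k'] [IsSepClosure k k']
  [Field K] [Algebra k[X] K] [IsFractionRing k[X] K] [Field F] [Algebra k'[X] F]
  [IsFractionRing k'[X] F] [Algebra K F] [IsGalois K (Sep F)]
  {D : Dat ℓ n K}
  (hKF : ∀ p : k[X], algebraMap K F (algebraMap k[X] K p) =
    algebraMap k'[X] F (p.map (algebraMap k k')))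
  {e : Fin n → k[X]} (hDe : ∀ i, D.e i = algebraMap k[X] K (e i)) (hδ : D.δ = 1)
  (hℓ : (ℓ : k') ≠ 0) (hg : Good ℓ D.ζ D.f)
  (hsep : ∀ i j, i ≠ j → ∀ π : k[X], Irreducible π → π ∣ e i - e j → π.Separable)
  (hR : Rigid ℓ e) {ι : Type} (rt : ι → k')

include hKF hDe hδ hℓ hsep hR in
/-- the vector of a Tate class -/
theorem exists_vec : ∃ vec : TCl (F := F) ℓ k' D.f →+ (ι → Fin n → ZMod ℓ),
    ∀ c : TCl (F := F) ℓ k' D.f, D.IsV rt (fl hg c.1) (vec c) := by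
  have hex : ∀ c : TCl (F := F) ℓ k' D.f, ∃ r, D.IsV rt (fl hg c.1) r := by
    intro c
    have hgd := fl_gd hKF hDe hδ hℓ hg hsep hR c.2
    exact IsV.exists hgd.coc hgd.fix
  choose r hr using hex
  refine ⟨AddMonoidHom.mk' r fun c c' => ?_, hr⟩
  refine (hr c).add (hr c') (hr (c + c')) fun σ => ?_
  show D.tj (Sep F) (pe hg (Sep F) ((1 - X) ^ (ℓ - 2)) (c.1 1 σ + c'.1 1 σ)) = _
  rw [map_add, D.tj_add]
  rfl

end Dat

section lin
variable {ℓ n : ℕ} [Fact ℓ.Prime] {k : Type} [Field k] {e : Fin n → k[X]} {G : Type}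
  [AddCommGroup G]

/-- the choice of the generators -/
theorem exists_gens (he : Function.Injective e) (hn : (n : ZMod ℓ) ≠ 0) (hR : Rigid ℓ e)
    (vec : G →+ ({π // π ∈ pis e} → Fin n → ZMod ℓ)) (hW : ∀ c, vec c ∈ WW ℓ e) :
    ∃ (m : ℕ) (E : Fin m → G), m + (n - 1) ≤ Coll e ∧ ∀ c : G, ∃ (z : Fin m → ℤ)
      (a : Fin n → ZMod ℓ), vec (c - ∑ i, z i • E i) = TT ℓ e a := by
  classical
  set T := LinearMap.range (TT ℓ e) with hT
  set S : Submodule (ZMod ℓ) ({π // π ∈ pis e} → Fin n → ZMod ℓ) :=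
    AddSubgroup.toZModSubmodule ℓ vec.range with hS
  have hmemS : ∀ x, x ∈ S ↔ ∃ c, vec c = x := by
    intro x
    rw [hS, AddSubgroup.mem_toZModSubmodule]
    rfl
  set B := S.map T.mkQ with hB
  have hSW : S ≤ WW ℓ e := by
    intro x hx
    obtain ⟨c, rfl⟩ := (hmemS x).1 hx
    exact hW c
  have hfr : Module.finrank (ZMod ℓ) B + (n - 1) ≤ Coll e := by
    have h1 : Module.finrank (ZMod ℓ) B ≤ Module.finrank (ZMod ℓ) ((WW ℓ e).map T.mkQ) :=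
      Submodule.finrank_mono (Submodule.map_mono hSW)
    have h2 := LinearMap.finrank_range_add_finrank_ker (T.mkQ.domRestrict (WW ℓ e))
    have h3 : LinearMap.range (T.mkQ.domRestrict (WW ℓ e)) = (WW ℓ e).map T.mkQ :=
      LinearMap.range_domRestrict _ _
    have h4 : LinearMap.ker (T.mkQ.domRestrict (WW ℓ e)) = T.comap (WW ℓ e).subtype := by
      ext x
      rw [LinearMap.mem_ker, Submodule.mem_comap, LinearMap.domRestrict_apply,
        Submodule.mkQ_apply, Submodule.Quotient.mk_eq_zero]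
      rfl
    rw [h3, h4, (Submodule.comapSubtypeEquivOfLe (TT_le e)).finrank_eq] at h2
    have h5 := TT_rank (ℓ := ℓ) e he hn hR
    have h6 := finrank_WW (ℓ := ℓ) e
    omega
  let b := Module.finBasis (ZMod ℓ) B
  have hbE : ∀ i, ∃ c : G, T.mkQ (vec c) = (b i : _) := by
    intro i
    obtain ⟨x, hx, hx'⟩ := Submodule.mem_map.1 (b i).2
    obtain ⟨c, rfl⟩ := (hmemS x).1 hx
    exact ⟨c, hx'⟩
  choose E hE using hbE
  refine ⟨_, E, hfr, fun c => ?_⟩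
  have hc : T.mkQ (vec c) ∈ B := Submodule.mem_map_of_mem ((hmemS _).2 ⟨c, rfl⟩)
  set y : B := ⟨T.mkQ (vec c), hc⟩ with hy
  have h1 : T.mkQ (vec c) = ∑ i, b.repr y i • T.mkQ (vec (E i)) := by
    have h2 := congrArg Subtype.val (b.sum_repr y)
    rw [AddSubmonoidClass.coe_finset_sum] at h2
    rw [hy] at h2
    refine h2.symm.trans (Finset.sum_congr rfl fun i _ => ?_)
    rw [hE]
    rfl
  have h3 : vec (c - ∑ i, ((b.repr y i).val : ℤ) • E i) ∈ T := by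
    rw [← Submodule.Quotient.mk_eq_zero, ← Submodule.mkQ_apply, map_sub, map_sub, h1, map_sum,
      map_sum, sub_eq_zero]
    refine Finset.sum_congr rfl fun i _ => ?_
    rw [map_zsmul, map_zsmul, ← Int.cast_smul_eq_zsmul (ZMod ℓ)]
    congr 1
    rw [Int.cast_natCast, ZMod.natCast_zmod_val]
  obtain ⟨a, ha⟩ := h3
  exact ⟨_, a, ha.symm⟩

end lin

namespace Dat

variable {ℓ n : ℕ} {k k' K F : Type} [Field k] [Field k'] [Algebra k k'] [IsSepClosure k k']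
  [Field K] [Algebra k[X] K] [IsFractionRing k[X] K] [Field F] [Algebra k'[X] F]
  [IsFractionRing k'[X] F] [Algebra K F] [IsGalois K (Sep F)]
  {D : Dat ℓ n K}
  (hKF : ∀ p : k[X], algebraMap K F (algebraMap k[X] K p) =
    algebraMap k'[X] F (p.map (algebraMap k k')))
  {e : Fin n → k[X]} (hDe : ∀ i, D.e i = algebraMap k[X] K (e i)) (hδ : D.δ = 1)
  (hℓ : (ℓ : k') ≠ 0) (hg : Good ℓ D.ζ D.f)
  (hsep : ∀ i j, i ≠ j → ∀ π : k[X], Irreducible π → π ∣ e i - e j → π.Separable)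
  (hR : Rigid ℓ e) {rt : {π // π ∈ pis e} → k'} (hrt : ∀ π, aeval (rt π) (π : k[X]) = 0)
  {ζ : k} (hζ : IsPrimitiveRoot ζ ℓ)

include hKF hDe hδ hℓ hsep hR hrt hζ in
/-- a Tate class whose vector comes from `R` -/
theorem first_of {c : ℕ → (Sep F ≃ₐ[F] Sep F) → Jac ℓ D.f (Sep F)}
    (hc : IsTateClass ℓ k' D.f c) {r : {π // π ∈ pis e} → Fin n → ZMod ℓ}
    (hr : D.IsV rt (fl hg c) r) (hx : r ∈ D.XK F (Sep F) rt) :
    ∃ (P : Jac ℓ D.f K) (R : Jac ℓ D.f (Sep F)),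
      pe hg (Sep F) (1 - X) R = jm ℓ D.f (incl K K (Sep F)) P ∧
      ∀ σ, pe hg (Sep F) ((1 - X) ^ (ℓ - 2)) (c 1 σ) =
        jm ℓ D.f (Pool.Agent.TH115.GD.rs K σ) R - R := by
  obtain ⟨P, R, h1, h2⟩ := hx
  have hgd := fl_gd hKF hDe hδ hℓ hg hsep hR hc
  have h3 := eq_cob hKF hDe hδ hℓ hrt hζ hsep hR hgd hr (Adm.ofK h1) h2
  obtain ⟨P', rfl⟩ := D.tj_surj K P
  obtain ⟨R', rfl⟩ := D.tj_surj (Sep F) R
  refine ⟨P', R', ?_, fun σ => ?_⟩
  · apply D.tj_inj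
    rw [D.tj_lam hg, D.tj_jm, h1]
  · apply D.tj_inj
    rw [D.tj_sub, D.tj_jm]
    exact h3 σ

include hKF hDe hδ hℓ hsep hR hrt hζ in
/-- a Tate class whose vector is a torsion vector -/
theorem first_tors [Fact ℓ.Prime] {c : ℕ → (Sep F ≃ₐ[F] Sep F) → Jac ℓ D.f (Sep F)}
    (hc : IsTateClass ℓ k' D.f c) {a : Fin n → ZMod ℓ}
    (hr : D.IsV rt (fl hg c) (TT ℓ e a)) :
    ∃ (P : Jac ℓ D.f K) (R : Jac ℓ D.f (Sep F)), pe hg K (1 - X) P = 0 ∧
      pe hg (Sep F) (1 - X) R = jm ℓ D.f (incl K K (Sep F)) P ∧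
      ∀ σ, pe hg (Sep F) ((1 - X) ^ (ℓ - 2)) (c 1 σ) =
        jm ℓ D.f (Pool.Agent.TH115.GD.rs K σ) R - R := by
  obtain ⟨p, hp⟩ := ExpChar.exists (Sep F)
  haveI := hp
  set m : Fin n → ℕ := fun i => (a i).val with hm
  obtain ⟨Q, hQ⟩ := (D.base (Sep F)).phi_surj (p := p) (cl ((D.base (Sep F)).PT m))
  have hQ' := phi_eq_iff.2 hQ
  have h1 : (D.base (Sep F)).phi Q = D.mC (incl K K (Sep F)) (cl ((D.base K).PT m)) := by
    rw [D.mC_PT, hQ']
  have h2 := IsV.tors hKF hDe hδ hℓ hrt hsep hQ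
  have e1 : (fun π : {π // π ∈ pis e} => (-(n : ZMod ℓ)) • Lap ℓ e π.1
      (fun i => (m i : ZMod ℓ))) = TT ℓ e a := by
    funext π
    rw [TT_apply]
    congr 2
    funext i
    rw [hm]
    exact ZMod.natCast_zmod_val (a i)
  rw [e1] at h2
  have hgd := fl_gd hKF hDe hδ hℓ hg hsep hR hc
  have h3 := eq_cob hKF hDe hδ hℓ hrt hζ hsep hR hgd hr (Adm.ofK h1) h2
  obtain ⟨P', hP'⟩ := D.tj_surj K (cl ((D.base K).PT m))
  obtain ⟨R', hR'⟩ := D.tj_surj (Sep F) Q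
  refine ⟨P', R', ?_, ?_, fun σ => ?_⟩
  · apply D.tj_inj
    rw [D.tj_lam hg, D.tj_zero, hP', phi_eq_one_iff, sC_cl _ ((D.base K).PT_ne _), sI_PT]
  · apply D.tj_inj
    rw [D.tj_lam hg, D.tj_jm, hP', hR', h1]
  · apply D.tj_inj
    rw [D.tj_sub, D.tj_jm, hR']
    exact h3 σ

include hKF hDe hδ hℓ hsep hR hrt hζ in
theorem firstHyp [Fact ℓ.Prime] {m : ℕ} (E : Fin m → TCl (F := F) ℓ k' D.f)
    (vec : TCl (F := F) ℓ k' D.f →+ ({π // π ∈ pis e} → Fin n → ZMod ℓ))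
    (hvec : ∀ c : TCl (F := F) ℓ k' D.f, D.IsV rt (fl hg c.1) (vec c))
    (hE : ∀ c : TCl (F := F) ℓ k' D.f, ∃ (z : Fin m → ℤ)
      (a : Fin n → ZMod ℓ), vec (c - ∑ i, z i • E i) = TT ℓ e a) :
    Pool.Agent.Y713.TG.FirstHyp k' hg (fun i => (E i).1) ((pe hg K (1 - X)).ker) := by
  intro c hc
  obtain ⟨z, a, hz⟩ := hE ⟨c, hc⟩
  obtain ⟨x, hx⟩ : ∃ x : TCl (F := F) ℓ k' D.f, x = ⟨c, hc⟩ - ∑ i, z i • E i := ⟨_, rfl⟩
  rw [← hx] at hz
  have h3 := hvec x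
  rw [hz] at h3
  have hx2 : IsTateClass ℓ k' D.f x.1 := x.2
  obtain ⟨P, R, h4, h5, h6⟩ := first_tors hKF hDe hδ hℓ hg hsep hR hrt hζ hx2 h3
  have h4' : P ∈ (pe hg K (1 - X)).ker := AddMonoidHom.mem_ker.2 h4
  have h7 : ∀ σ, x.1 1 σ = c 1 σ - ∑ i, z i • (E i).1 1 σ := by
    intro σ
    rw [hx]
    exact sub_sum_apply (TCl (F := F) ℓ k' D.f) ⟨c, hc⟩ E z 1 σ
  refine ⟨z, P, R, h4', h5, fun σ => ?_⟩
  rw [← h6 σ, h7 σ]

include hKF hDe hδ hℓ hsep hR hrt hζ in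
/-- the generators -/
theorem genA [Fact ℓ.Prime] : ∃ (m : ℕ)
    (E : Fin m → ℕ → (Sep F ≃ₐ[F] Sep F) → Jac ℓ D.f (Sep F)), m + (n - 1) ≤ Coll e ∧
    (∀ i, IsTateClass ℓ k' D.f (E i)) ∧
    ∀ c : ℕ → (Sep F ≃ₐ[F] Sep F) → Jac ℓ D.f (Sep F), IsTateClass ℓ k' D.f c → ∀ N,
      ∃ (p : Fin m → ℤ[X]) (R : Jac ℓ D.f (Sep F)), ℓ ^ (N + 1) • R = 0 ∧
        ∀ σ, c N σ = ∑ i, pe hg (Sep F) (p i) (E i N σ) +
          (jm ℓ D.f (Pool.Agent.TH115.GD.rs K σ) R - R) := by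
  have hn : (n : ZMod ℓ) ≠ 0 := by
    rw [Ne, ZMod.natCast_eq_zero_iff]
    exact D.hn
  obtain ⟨vec, hvec⟩ := exists_vec (F := F) hKF hDe hδ hℓ hg hsep hR rt
  obtain ⟨m, E, hm, hE⟩ := exists_gens (e_inj' hDe) hn hR vec (fun c => by
    rw [mem_WW]
    exact (hvec c).mem hKF hDe hδ hℓ hrt (fl_gd hKF hDe hδ hℓ hg hsep hR c.2))
  have hE1 : ∀ i, IsTateClass ℓ k' D.f (E i).1 := fun i => (E i).2
  refine ⟨m, fun i => (E i).1, hm, hE1, fun c hc N => ?_⟩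
  let A : AddSubgroup (Jac ℓ D.f K) := (pe hg K (1 - X)).ker
  have hA : ∀ (V : ℤ[X]), ∀ P ∈ A, pe hg K V P ∈ A := by
    intro V P hP
    have hP' : pe hg K (1 - X) P = 0 := hP
    show pe hg K (1 - X) (pe hg K V P) = 0
    rw [Pool.Agent.Y160.SE.pe_comm, hP', map_zero]
  have hF := firstHyp hKF hDe hδ hℓ hg hsep hR hrt hζ E vec hvec hE
  obtain ⟨p, P, R, hP, h1, h2⟩ := gen_of_first hyps hg hE1 A hA hF hc N
  refine ⟨p, R, ?_, h2⟩
  obtain ⟨U, hU⟩ := exists_U' hyps hg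
  have hP' : pe hg K (1 - X) P = 0 := hP
  rw [pow_succ', mul_smul, h1, ← map_nsmul, hU]
  have h2le := hg.prime.two_le
  have e1 : U * (1 - X) ^ (ℓ - 1) = U * (1 - X) ^ (ℓ - 2) * (1 - X) := by
    rw [mul_assoc, ← pow_succ, show ℓ - 2 + 1 = ℓ - 1 by omega]
  rw [e1, pe_mul, hP', map_zero, map_zero]

include hKF hDe hδ hℓ hg hsep hR hrt hζ in
/-- the Tate conjecture, if the group of the vectors from `J(K)` is maximal -/
theorem tateB (hX : ∀ r ∈ WW ℓ e, r ∈ D.XK F (Sep F) rt) : TateAt (F := F) ℓ k' D.f := by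
  haveI := Fact.mk D.hp
  refine tate_of_first hyps hg fun c hc => ?_
  have hgd := fl_gd hKF hDe hδ hℓ hg hsep hR hc
  obtain ⟨r, hr⟩ := IsV.exists (rt := rt) hgd.coc hgd.fix
  refine first_of hKF hDe hδ hℓ hg hsep hR hrt hζ hc hr (hX r ?_)
  rw [mem_WW]
  exact hr.mem hKF hDe hδ hℓ hrt hgd

include hKF hDe hδ hℓ hg hsep hR hrt hζ in
/-- the Tate conjecture, if there is no room for classes other than the torsion classes -/
theorem tateC (h : Coll e ≤ n - 1) : TateAt (F := F) ℓ k' D.f := by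
  haveI := Fact.mk D.hp
  have hn : (n : ZMod ℓ) ≠ 0 := by
    rw [Ne, ZMod.natCast_eq_zero_iff]
    exact D.hn
  refine tateB hKF hDe hδ hℓ hg hsep hR hrt hζ fun r hr => ?_
  have h1 := TT_rank (ℓ := ℓ) e (e_inj' hDe) hn hR
  have h2 := finrank_WW (ℓ := ℓ) e
  have h3 : LinearMap.range (TT ℓ e) = WW ℓ e :=
    Submodule.eq_of_le_of_finrank_le (TT_le e) (by omega)
  rw [← h3] at hr
  obtain ⟨a, rfl⟩ := hr
  exact TT_mem hKF hDe hδ hℓ hrt hsep a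

end Dat

end Pool.Agent.Y713.SE
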