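import Pool.Agent.Y713.TG.Gal

/-! The relation between a class and its conjugates. -/

set_option autoImplicit false
set_option linter.all false

open Polynomial IsDedekindDomain

namespace Pool.Agent.Y713.SE

open Pool.Agent.TH115.GD (pl Preserves exists_conj val_poly)

namespace Dat

variable {ℓ n : ℕ} {K : Type} [Field K] (D : Dat ℓ n K)

section ded
variable {R F : Type} [CommRing R] [IsDedekindDomain R] [Field F] [Algebra R F]
  [IsFractionRing R F] [Algebra K F]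
variable {Ω : Type} [Field Ω] [Algebra K Ω] [Algebra F Ω] [IsScalarTower K F Ω]
variable {v : HeightOneSpectrum R}

/-- the residues of the classes of the branch points -/
theorem rr_torsR [IsGalois F Ω] (hδ : v.valuation F (algebraMap K F D.δ) = 1)
    (hℓ : v.valuation F (ℓ : F) = 1) {χ : (Ω ≃ₐ[F] Ω) → Fin n → ℕ} {m : Fin n → ℕ}
    {Q : ClassGroup (D.base Ω).A} (hQ : cl ((D.base Ω).PT m) * (D.base Ω).sC Q = Q)
    (hχ : ∀ σ, cl ((D.base Ω).PT (χ σ)) = D.mC (rs K σ) Q / Q) (kd : D.KF χ) (i : Fin n) :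
    kd.rr D v i = (n : ZMod ℓ) * ∑ k ∈ Finset.univ.erase i, ((m i : ZMod ℓ) - m k) *
      ov ℓ v (algebraMap K F (D.e i - D.e k)) := by
  letI : Algebra K (v.adicCompletion F) :=
    ((algebraMap F (v.adicCompletion F)).comp (algebraMap K F)).toAlgebra
  haveI : IsScalarTower K F (v.adicCompletion F) := IsScalarTower.of_algebraMap_eq fun _ => rfl
  obtain ⟨p, hp⟩ := ExpChar.exists (SeparableClosure (v.adicCompletion F))
  haveI := hp
  haveI : IsScalarTower F (v.adicCompletion F) (SeparableClosure (v.adicCompletion F)) :=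
    inferInstance
  haveI : IsScalarTower K (v.adicCompletion F) (SeparableClosure (v.adicCompletion F)) :=
    inferInstance
  haveI : IsScalarTower K F (SeparableClosure (v.adicCompletion F)) := by
    refine IsScalarTower.of_algebraMap_eq fun x => ?_
    rw [IsScalarTower.algebraMap_apply K (v.adicCompletion F) (SeparableClosure (v.adicCompletion F)),
      IsScalarTower.algebraMap_apply K F (v.adicCompletion F),
      ← IsScalarTower.algebraMap_apply F (v.adicCompletion F)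
        (SeparableClosure (v.adicCompletion F))]
  let ι : Ω →ₐ[F] SeparableClosure (v.adicCompletion F) := IsSepClosed.lift
  exact D.rr_tors (p := p) (Ω' := SeparableClosure (v.adicCompletion F)) ι hδ hℓ hQ hχ kd i

end ded

section poly
variable {k' F Ω : Type} [Field k'] [Field F] [Algebra k'[X] F]
  [IsFractionRing k'[X] F] [Algebra K F] [Field Ω] [Algebra K Ω] [Algebra F Ω]
  [IsScalarTower K F Ω]

lemma val_nat (hℓ : (ℓ : k') ≠ 0) (v : HeightOneSpectrum k'[X]) : v.valuation F (ℓ : F) = 1 := by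
  have h := val_C (K := F) (v := v) hℓ
  rwa [map_natCast, map_natCast] at h

/-- there are no new classes fixed by the Galois group in the kernel of the square -/
theorem fix_tors [IsGalois F Ω] (hδ : D.δ = 1) (hℓ : (ℓ : k') ≠ 0) {m : Fin n → ℕ}
    {Q : ClassGroup (D.base Ω).A} (hQ : cl ((D.base Ω).PT m) * (D.base Ω).sC Q = Q)
    (hfix : ∀ σ : Ω ≃ₐ[F] Ω, D.mC (rs K σ) Q = Q) (v : HeightOneSpectrum k'[X]) (i : Fin n) :
    ∑ k ∈ Finset.univ.erase i, ((m i : ZMod ℓ) - m k) *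
      ov ℓ v (algebraMap K F (D.e i - D.e k)) = 0 := by
  let kd : D.KF (F := F) (Ω := Ω) (fun _ _ => 0) :=
    ⟨fun _ _ => 1, fun _ _ => 1, fun _ _ => one_ne_zero, fun σ i j => by
      rw [pow_zero, map_one], fun i j => by rw [one_pow, map_one]⟩
  have h := D.rr_torsR (v := v) (Q := Q) (m := m) (by rw [hδ, map_one, map_one]) (val_nat hℓ v) hQ
    (fun σ => by
      rw [hfix, div_self']
      exact (D.base Ω).cl_PT_of_modEq fun i j => rfl) kd i
  have h0 : kd.rr D v i = 0 := by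
    show ov ℓ v (∏ j : Fin n, (1 : F)) = 0
    rw [Finset.prod_const_one, ov_one]
  rw [h0] at h
  haveI := Fact.mk D.hp
  have hn : (n : ZMod ℓ) ≠ 0 := by
    rw [Ne, ZMod.natCast_eq_zero_iff]
    exact D.hn
  exact (mul_eq_zero.1 h.symm).resolve_left hn

end poly

section rel
variable {k k' F Ω : Type} [Field k] [Field k'] [Algebra k k'] [Field F] [Algebra k'[X] F]
  [IsFractionRing k'[X] F] [Algebra K F] [Field Ω] [Algebra K Ω] [Algebra F Ω]
  [IsScalarTower K F Ω] [IsGalois F Ω] [IsGalois K Ω] [IsSepClosed Ω]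

/-- the class of `χ` and its conjugate under `τ` differ by the coboundary of `T` -/
def Rl (χ : (Ω ≃ₐ[F] Ω) → Fin n → ℕ) (τ : Ω ≃ₐ[K] Ω) (T : ClassGroup (D.base Ω).A) : Prop :=
  ∀ σ σ' : Ω ≃ₐ[F] Ω, (∀ x, τ (σ' x) = σ (τ x)) →
    cl ((D.base Ω).PT (χ σ')) = cl ((D.base Ω).PT (χ σ)) * (D.mC (rs K σ) T / T)

theorem rr_conj (hN : Preserves K F Ω) (hδ : D.δ = 1) (hℓ : (ℓ : k') ≠ 0)
    {χ : (Ω ≃ₐ[F] Ω) → Fin n → ℕ} (kd : D.KF χ) {τ : Ω ≃ₐ[K] Ω} {s : k' ≃ₐ[k] k'}
    (hs : Over (F := F) τ s) {T : ClassGroup (D.base Ω).A} (hT : D.Rl χ τ T) {m : Fin n → ℕ}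
    (hm : cl ((D.base Ω).PT m) * (D.base Ω).sC T = T) (θ : k') (i : Fin n) :
    kd.rr D (pl (k' := k') θ) i = kd.rr D (pl (s θ)) i +
      (n : ZMod ℓ) * ∑ k ∈ Finset.univ.erase i, ((m i : ZMod ℓ) - m k) *
        ov ℓ (pl (s θ)) (algebraMap K F (D.e i - D.e k)) := by
  obtain ⟨p, hp⟩ := ExpChar.exists Ω
  haveI := hp
  choose g hg using fun σ => exists_conj hN τ σ
  obtain ⟨kd', hkd'⟩ := D.exists_conjKF hN kd τ hg
  obtain ⟨χ3, h3⟩ := D.exists_chi (p := p) (F := F) hm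
  have hcoc : D.CocF (fun σ : Ω ≃ₐ[F] Ω => cl ((D.base Ω).PT (χ3 σ))) := by
    have := D.cob_CocF (F := F) T
    have e : (fun σ : Ω ≃ₐ[F] Ω => cl ((D.base Ω).PT (χ3 σ))) =
        fun σ : Ω ≃ₐ[F] Ω => D.mC (rs K σ) T / T := funext h3
    rwa [e]
  obtain ⟨kd3⟩ := D.exists_KF hcoc
  have h1 := D.rr_rel kd kd3 kd' (fun σ => by rw [h3]; exact hT σ (g σ) (hg σ)) (pl (s θ)) i
  have h2 := D.rr_torsR (v := pl (s θ)) (Q := T) (m := m) (by rw [hδ, map_one, map_one])
    (val_nat hℓ _) hm h3 kd3 i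
  rw [h2] at h1
  rw [← h1]
  have hD0 : ∏ j, kd.d i j ≠ 0 := Finset.prod_ne_zero_iff.2 fun j _ => kd.d0 D i j
  have h4 := ov_galois ℓ hs (x := ∏ j, kd.d i j) (y := ∏ j, kd'.d i j) hD0 (by
    rw [map_prod, map_prod, map_prod]
    exact Finset.prod_congr rfl fun j _ => hkd' i j) θ
  exact h4.symm

end rel

end Dat

end Pool.Agent.Y713.SE
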