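import Pool.Agent.Y713.TG.Cnt

/-! The vectors which come from classes over `K`. -/

set_option autoImplicit false
set_option linter.all false

open Polynomial IsDedekindDomain

namespace Pool.Agent.Y713.SE

open Pool.Agent.TH115.GD (pl Preserves Comp Sep exists_conj lift restr preserves incl)

namespace Dat

variable {ℓ n : ℕ} {k k' K F Ω : Type} [Field k] [Field k'] [Algebra k k'] [IsSepClosure k k']
  [Field K] [Algebra k[X] K] [IsFractionRing k[X] K] [Field F] [Algebra k'[X] F]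
  [IsFractionRing k'[X] F] [Algebra K F] [Field Ω] [Algebra F Ω] [Algebra K Ω]
  [IsScalarTower K F Ω] [IsSepClosure F Ω] [IsGalois F Ω] [IsGalois K Ω] [IsSepClosed Ω]
  {D : Dat ℓ n K}
  (hKF : ∀ p : k[X], algebraMap K F (algebraMap k[X] K p) =
    algebraMap k'[X] F (p.map (algebraMap k k')))
  {e : Fin n → k[X]} (hDe : ∀ i, D.e i = algebraMap k[X] K (e i)) (hδ : D.δ = 1)
  (hℓ : (ℓ : k') ≠ 0) {rt : {π // π ∈ pis e} → k'} (hrt : ∀ π, aeval (rt π) (π : k[X]) = 0)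

section adm
omit [Field k] [Field k'] [Algebra k k'] [IsSepClosure k k'] [Algebra k[X] K]
  [IsFractionRing k[X] K] [Algebra k'[X] F] [IsFractionRing k'[X] F] [IsSepClosure F Ω]
  [IsGalois F Ω] [IsGalois K Ω] [IsSepClosed Ω]

lemma Adm.mul {R R' : ClassGroup (D.base Ω).A} (h : D.Adm F R) (h' : D.Adm F R') :
    D.Adm F (R * R') := by
  refine ⟨fun σ => by rw [map_mul, map_mul, h.fix, h'.fix], fun τ => ?_⟩
  obtain ⟨m, hm⟩ := h.inv τ
  obtain ⟨m', hm'⟩ := h'.inv τ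
  refine ⟨m + m', ?_⟩
  rw [map_mul, map_mul, hm, hm', ← cl_PT_add, mul_mul_mul_comm]

lemma Adm.inv' {R : ClassGroup (D.base Ω).A} (h : D.Adm F R) : D.Adm F R⁻¹ := by
  refine ⟨fun σ => by rw [map_inv, map_inv, h.fix], fun τ => ?_⟩
  obtain ⟨m, hm⟩ := h.inv τ
  refine ⟨(ℓ - 1) • m, ?_⟩
  rw [map_inv, map_inv, hm, mul_inv, PT_inv]

lemma Adm.one : D.Adm F (1 : ClassGroup (D.base Ω).A) := by
  refine ⟨fun σ => by rw [map_one, map_one], fun τ => ⟨fun _ => 0, ?_⟩⟩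
  rw [map_one, map_one, (D.base Ω).cl_PT_of_modEq (fun i j => Nat.ModEq.refl _), mul_one]

lemma Adm.ofK {R : ClassGroup (D.base Ω).A} {P : ClassGroup (D.base K).A}
    (h : (D.base Ω).phi R = D.mC (incl K K Ω) P) : D.Adm F R := by
  have h1 : ∀ φ : Ω →ₐ[K] Ω, D.mC φ (D.mC (incl K K Ω) P) = D.mC (incl K K Ω) P := by
    intro φ
    have e1 : φ.comp (incl K K Ω) = incl K K Ω := AlgHom.ext fun x => φ.commutes x
    rw [mC_mC, e1]
  refine ⟨fun σ => by rw [h, h1], fun τ => ⟨fun _ => 0, ?_⟩⟩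
  rw [h, h1, (D.base Ω).cl_PT_of_modEq (fun i j => Nat.ModEq.refl _), mul_one]

end adm

/-- the coboundary -/
noncomputable def cob (D : Dat ℓ n K) (F : Type) [Field F] [Algebra F Ω] [Algebra K F]
    [IsScalarTower K F Ω] (R : ClassGroup (D.base Ω).A) : (Ω ≃ₐ[F] Ω) → ClassGroup (D.base Ω).A :=
  fun σ => D.mC (rs K σ) R / R

omit [Field k] [Algebra k k'] [IsSepClosure k k'] [Algebra k[X] K]
  [IsFractionRing k[X] K] [IsSepClosure F Ω] in
lemma IsV.cob_mul {ι : Type} {rt : ι → k'} {R R' : ClassGroup (D.base Ω).A} (h : D.Adm F R)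
    (h' : D.Adm F R') {x x' : ι → Fin n → ZMod ℓ} (hx : D.IsV rt (D.cob F R) x)
    (hx' : D.IsV rt (D.cob F R') x') : D.IsV rt (D.cob F (R * R')) (x + x') := by
  have hg := (h.mul h').gd (k' := k')
  obtain ⟨y, hy⟩ := IsV.exists (rt := rt) hg.coc hg.fix
  have h1 := hx.add hx' hy (fun σ => by
    show D.mC (rs K σ) (R * R') / (R * R') = D.mC (rs K σ) R / R * (D.mC (rs K σ) R' / R')
    rw [map_mul, mul_div_mul_comm])
  rw [← h1]
  exact hy

omit [Field k] [Algebra k k'] [IsSepClosure k k'] [Algebra k[X] K]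
  [IsFractionRing k[X] K] [IsSepClosure F Ω] in
lemma IsV.cob_inv {ι : Type} {rt : ι → k'} {R : ClassGroup (D.base Ω).A} (h : D.Adm F R)
    {x : ι → Fin n → ZMod ℓ} (hx : D.IsV rt (D.cob F R) x) :
    D.IsV rt (D.cob F R⁻¹) (-x) := by
  have hg := h.inv'.gd (k' := k')
  obtain ⟨y, hy⟩ := IsV.exists (rt := rt) hg.coc hg.fix
  have h1 := hx.add hy (IsV.one D) (fun σ => by
    show 1 = D.mC (rs K σ) R / R * (D.mC (rs K σ) R⁻¹ / R⁻¹)
    rw [map_inv, ← div_inv_eq_mul, inv_div_inv, inv_div, div_self'])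
  have h2 : y = -x := (neg_eq_of_add_eq_zero_right h1.symm).symm
  rw [← h2]
  exact hy

variable (D) in
/-- the vectors which come from classes over `K` -/
def XK {ι : Type} (F Ω : Type) [Field F] [Algebra k'[X] F] [IsFractionRing k'[X] F] [Algebra K F]
    [Field Ω] [Algebra F Ω] [Algebra K Ω] [IsScalarTower K F Ω] [IsGalois F Ω] [IsGalois K Ω]
    [IsSepClosed Ω] (rt : ι → k') : AddSubgroup (ι → Fin n → ZMod ℓ) where
  carrier := {x | ∃ (P : ClassGroup (D.base K).A) (R : ClassGroup (D.base Ω).A),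
    (D.base Ω).phi R = D.mC (incl K K Ω) P ∧ D.IsV rt (D.cob F R) x}
  add_mem' := by
    rintro x x' ⟨P, R, h1, h2⟩ ⟨P', R', h1', h2'⟩
    exact ⟨P * P', R * R', by rw [map_mul, map_mul, h1, h1'],
      IsV.cob_mul (Adm.ofK h1) (Adm.ofK h1') h2 h2'⟩
  zero_mem' := by
    refine ⟨1, 1, by rw [map_one, map_one], ?_⟩
    have e : D.cob F (1 : ClassGroup (D.base Ω).A) = fun _ => 1 := by
      funext σ
      show D.mC (rs K σ) 1 / 1 = 1
      rw [map_one, div_one]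
    rw [e]
    exact IsV.one D
  neg_mem' := by
    rintro x ⟨P, R, h1, h2⟩
    exact ⟨P⁻¹, R⁻¹, by rw [map_inv, map_inv, h1], IsV.cob_inv (Adm.ofK h1) h2⟩

include hKF hDe hδ hℓ hrt in
omit [IsSepClosure k k'] [IsSepClosure F Ω] in
/-- the torsion classes -/
theorem TT_mem (hsep : ∀ i j, i ≠ j → ∀ π : k[X], Irreducible π → π ∣ e i - e j → π.Separable)
    [Fact ℓ.Prime] (a : Fin n → ZMod ℓ) : TT ℓ e a ∈ D.XK F Ω rt := by
  obtain ⟨p, hp⟩ := ExpChar.exists Ω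
  haveI := hp
  haveI : NeZero ℓ := ⟨D.hp.ne_zero⟩
  set m : Fin n → ℕ := fun i => (a i).val with hm
  obtain ⟨Q, hQ⟩ := (D.base Ω).phi_surj (p := p) (cl ((D.base Ω).PT m))
  refine ⟨cl ((D.base K).PT m), Q, ?_, ?_⟩
  · rw [D.mC_PT]
    exact phi_eq_iff.2 hQ
  · have h := IsV.tors hKF hDe hδ hℓ hrt hsep hQ
    have e1 : (fun π : {π // π ∈ pis e} => (-(n : ZMod ℓ)) • Lap ℓ e π.1
        (fun i => (m i : ZMod ℓ))) = TT ℓ e a := by
      funext π
      rw [TT_apply]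
      congr 2
      funext i
      rw [hm]
      exact ZMod.natCast_zmod_val (a i)
    rw [e1] at h
    exact h

include hKF hDe hδ hℓ hrt in
/-- a class is determined by its vector -/
theorem eq_cob {ζ : k} (hζ : IsPrimitiveRoot ζ ℓ)
    (hsep : ∀ i j, i ≠ j → ∀ π : k[X], Irreducible π → π ∣ e i - e j → π.Separable)
    (hR : Rigid ℓ e) {c : (Ω ≃ₐ[F] Ω) → ClassGroup (D.base Ω).A} (hc : D.Gd k' c)
    {r : {π // π ∈ pis e} → Fin n → ZMod ℓ} (hr : D.IsV rt c r) {R : ClassGroup (D.base Ω).A}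
    (hA : D.Adm F R) (hr' : D.IsV rt (D.cob F R) r) (σ : Ω ≃ₐ[F] Ω) :
    c σ = D.mC (rs K σ) R / R := by
  have hg := hc.div_cob hA
  obtain ⟨y, hy⟩ := IsV.exists (rt := rt) hg.coc hg.fix
  have h1 := hr'.add hy hr (fun σ => by
    show c σ = D.mC (rs K σ) R / R * (c σ / (D.mC (rs K σ) R / R))
    rw [mul_div_cancel])
  have h2 : y = 0 := (left_eq_add.1 h1)
  rw [h2] at hy
  have h3 := hy.zero hKF hDe hδ hℓ hrt hζ hsep hR hg σ
  exact div_eq_one.1 h3

end Dat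

end Pool.Agent.Y713.SE
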