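import Pool.Agent.Y713.TG.Xk
import Pool.Agent.Y713.SE.StmT
import Pool.Agent.Y160.SE.All

/-! The bridge between the two models of the Jacobian. -/

set_option autoImplicit false
set_option linter.all false

open Polynomial IsDedekindDomain

namespace Pool.Agent.Y713.SE

open Pool.Agent.Y160.SE (Jac jm sg pe Good crMap yy xp crMap_xp crMap_yy cr_hom_ext)
open Pool.Agent.Y713.Jac (CoordRing coordMap mapJ)

namespace Dat

variable {ℓ n : ℕ} {K : Type} [Field K] (D : Dat ℓ n K)

theorem good (h1 : D.δ = 1) : Good ℓ D.ζ D.f := by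
  have e : D.f = ∏ i, (X - C (D.e i)) := by
    unfold Dat.f
    rw [h1, C_1, one_mul]
  refine ⟨D.hp, D.hζ, ?_, ?_, ?_⟩
  · rw [e]
    exact monic_prod_of_monic _ _ fun i _ => monic_X_sub_C _
  · rw [e, separable_prod_X_sub_C_iff]
    exact D.he
  · rw [D.natDegree_f]
    exact (Nat.Prime.coprime_iff_not_dvd D.hp).2 D.hn

/-- the bridge -/
noncomputable def tj (L : Type) [Field L] [Algebra K L] (x : Jac ℓ D.f L) :
    ClassGroup (D.base L).A := (D.Te L).symm (Additive.toMul x)

section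
variable (L : Type) [Field L] [Algebra K L]

lemma tj_add (x y : Jac ℓ D.f L) : D.tj L (x + y) = D.tj L x * D.tj L y :=
  map_mul (D.Te L).symm _ _

lemma tj_zero : D.tj L 0 = 1 := map_one (D.Te L).symm

lemma tj_neg (x : Jac ℓ D.f L) : D.tj L (-x) = (D.tj L x)⁻¹ := map_inv (D.Te L).symm _

lemma tj_sub (x y : Jac ℓ D.f L) : D.tj L (x - y) = D.tj L x / D.tj L y :=
  _root_.map_div (D.Te L).symm _ _

lemma tj_inj : Function.Injective (D.tj L) := (D.Te L).symm.injective

lemma tj_surj (c : ClassGroup (D.base L).A) : ∃ x : Jac ℓ D.f L, D.tj L x = c :=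
  ⟨Additive.ofMul (D.Te L c), (D.Te L).symm_apply_apply c⟩

end

variable {L L' : Type} [Field L] [Algebra K L] [Field L'] [Algebra K L']

lemma crMap_eq (φ : L →ₐ[K] L') :
    crMap ℓ (φ : L →+* L') (D.f.map (algebraMap K L)) (D.f.map (algebraMap K L'))
      (by rw [Polynomial.map_map, φ.comp_algebraMap]) = coordMap ℓ D.f φ := by
  apply cr_hom_ext
  · intro c
    rw [crMap_xp]
    exact (AdjoinRoot.map_of (mapRingHom φ.toRingHom) _ _ _ _).symm
  · rw [crMap_xp]
    exact (AdjoinRoot.map_of (mapRingHom φ.toRingHom) _ _ _ _).symm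
  · rw [crMap_yy]
    unfold coordMap
    exact (AdjoinRoot.map_root _ _ _ _).symm

lemma tj_jm (φ : L →ₐ[K] L') (x : Jac ℓ D.f L) :
    D.tj L' (jm ℓ D.f φ x) = D.mC φ (D.tj L x) := by
  have h := D.Te_symm_nat φ (Additive.toMul x)
  have e : Additive.toMul (jm ℓ D.f φ x) = mapJ ℓ D.f φ (Additive.toMul x) := by
    show CommRing.Pic.mapRingHom (crMap ℓ (φ : L →+* L') _ _ _) (Additive.toMul x) =
      CommRing.Pic.mapRingHom (coordMap ℓ D.f φ) (Additive.toMul x)
    rw [D.crMap_eq φ]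
  unfold tj
  rw [e, h]

lemma tw_eq (hg : Good ℓ D.ζ D.f) :
    ((hg.up L).tw).comp (D.cE L : (D.base L).A →+* CoordRing ℓ D.f L) =
      (D.cE L : (D.base L).A →+* CoordRing ℓ D.f L).comp
        ((D.base L).s 1 : (D.base L).A →+* (D.base L).A) := by
  have e1 : ∀ g, D.cE L (algebraMap L[X] (D.base L).A g) = AdjoinRoot.of _ g :=
    fun g => crE_of _ _
  have e2 : D.cE L (D.base L).y = AdjoinRoot.root _ := crE_root _
  have key : ∀ a, (hg.up L).tw (D.cE L a) = D.cE L ((D.base L).s 1 a) := by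
    intro a
    have h1 : (hg.up L).tw (D.cE L (D.base L).y) = D.cE L ((D.base L).s 1 (D.base L).y) := by
      rw [e2]
      have h3 : (D.base L).s 1 (D.base L).y =
          algebraMap L[X] (D.base L).A (C (D.base L).ζ) * (D.base L).y := by
        have := (D.base L).s_y 1
        rw [pow_one] at this
        exact this
      rw [h3, map_mul, e1, e2]
      exact Pool.Agent.Y160.SE.tw_yy _
    have h2 : ∀ g : L[X], (hg.up L).tw (D.cE L (algebraMap L[X] (D.base L).A g)) =
        D.cE L ((D.base L).s 1 (algebraMap L[X] (D.base L).A g)) := by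
      intro g
      have h3 : (D.base L).s 1 (algebraMap L[X] (D.base L).A g) =
          algebraMap L[X] (D.base L).A g := ((D.base L).s 1).commutes g
      rw [h3, e1]
      exact Pool.Agent.Y160.SE.tw_xp _ _
    rw [← (D.base L).sum_c a]
    simp only [map_sum, Algebra.smul_def, map_mul, map_pow, h1, h2]
  exact RingHom.ext key

lemma tj_sg (hg : Good ℓ D.ζ D.f) (x : Jac ℓ D.f L) :
    D.tj L (sg hg L x) = (D.base L).sC (D.tj L x) := by
  apply (D.Te L).injective
  have e1 : D.Te L (D.tj L (sg hg L x)) = Additive.toMul (sg hg L x) :=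
    (D.Te L).apply_symm_apply _
  have e2 : Additive.toMul (sg hg L x) =
      CommRing.Pic.mapRingHom (hg.up L).tw (D.Te L (D.tj L x)) := by
    have : D.Te L (D.tj L x) = Additive.toMul x := (D.Te L).apply_symm_apply _
    rw [this]
    rfl
  rw [e1, e2]
  have h5 : pc ((D.base L).sC (D.tj L x)) = CommRing.Pic.mapRingHom
      ((D.base L).s 1 : (D.base L).A →+* (D.base L).A) (pc (D.tj L x)) :=
    pc_nat ((D.base L).s 1 : (D.base L).A →+* (D.base L).A) ((D.base L).s 1).injective
        (D.tj L x)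
  have h6 : D.Te L ((D.base L).sC (D.tj L x)) =
      CommRing.Pic.mapRingHom (D.cE L : (D.base L).A →+* CoordRing ℓ D.f L)
      (pc ((D.base L).sC (D.tj L x))) := rfl
  have h7 : D.Te L (D.tj L x) = CommRing.Pic.mapRingHom
      (D.cE L : (D.base L).A →+* CoordRing ℓ D.f L) (pc (D.tj L x)) := rfl
  rw [h6, h5, h7]
  rw [CommRing.Pic.mapRingHom_mapRingHom, CommRing.Pic.mapRingHom_mapRingHom,
    D.tw_eq hg]

lemma tj_lam (hg : Good ℓ D.ζ D.f) (x : Jac ℓ D.f L) :
    D.tj L (pe hg L (1 - X) x) = (D.base L).phi (D.tj L x) := by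
  rw [Pool.Agent.Y160.SE.pe_sub, Pool.Agent.Y160.SE.pe_one, Pool.Agent.Y160.SE.pe_X, tj_sub,
    D.tj_sg hg]
  rfl

end Dat

end Pool.Agent.Y713.SE
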