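import Pool.Agent.Y713.SE.Tame2

/-! Clusters of branch points: norms of leading coefficients of invariant ideals. -/

set_option autoImplicit false
set_option linter.all false

open Polynomial

namespace Pool.Agent.Y713.SE

namespace Dat

variable {ℓ n : ℕ} {K : Type} [Field K] (D : Dat ℓ n K)
variable {F Ω : Type} [Field F] [Algebra K F] [Field Ω] [Algebra K Ω] [Algebra F Ω]
  [IsScalarTower K F Ω] (S : LS ℓ F Ω)

/-- a union of clusters with respect to the radius `M` -/
def Sat (M : ℝ) (C : Finset (Fin n)) : Prop :=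
  ∀ i ∈ C, ∀ j ∉ C, S.nrm ((D.base Ω).e i - (D.base Ω).e j) = M

lemma Sat.symm {M : ℝ} {C : Finset (Fin n)} (h : D.Sat S M C) {i j : Fin n} (hi : i ∉ C)
    (hj : j ∈ C) : S.nrm ((D.base Ω).e i - (D.base Ω).e j) = M := by
  rw [← S.nrm.map_neg, neg_sub]
  exact h j hj i hi

/-- the conclusion: products over unions of clusters -/
def ClP (M : ℝ) (B : Ideal (D.base Ω).A) : Prop :=
  ∃ μ : ℝ, 0 < μ ∧ ∀ C : Finset (Fin n), D.Sat S M C →
    ∃ G : ℝ, S.Gam G ∧ ∏ i ∈ C, D.Lam S i B = μ ^ C.card * G ^ ℓ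

lemma prod_compl_card {C : Finset (Fin n)} {M : ℝ} {f : Fin n → ℝ} (h : ∀ k ∉ C, f k = M) :
    ∏ k, f k = (∏ k ∈ C, f k) * M ^ (n - C.card) := by
  classical
  rw [← Finset.prod_mul_prod_compl C f]
  congr 1
  rw [Finset.prod_congr rfl fun k hk => h k (Finset.mem_compl.1 hk), Finset.prod_const,
    Finset.card_compl, Fintype.card_fin]

theorem tameC [IsGalois F Ω] [IsSepClosed Ω] {p : ℕ} [ExpChar Ω p] {M g0 : ℝ} (hM : 0 < M)
    (hg0 : S.Gam g0) (hMg : S.nrm (D.base Ω).δ * M ^ n = g0 ^ ℓ)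
    (hle : ∀ i j, S.nrm ((D.base Ω).e i - (D.base Ω).e j) ≤ M)
    {B : Ideal (D.base Ω).A} (hB : B ≠ ⊥) (hinv : ∀ τ : Ω ≃ₐ[F] Ω, D.mI (rs K τ) B = B) :
    D.ClP S M B := by
  classical
  have hδ0 : 0 < S.nrm (D.base Ω).δ := S.nrm.pos (D.base Ω).hδ
  have hcard : ∀ C : Finset (Fin n), C.card ≤ n := fun C => by
    have := Finset.card_le_univ C
    rwa [Fintype.card_fin] at this
  have hpn : ∀ C : Finset (Fin n), M ^ n = M ^ C.card * M ^ (n - C.card) := fun C => by
    rw [← pow_add, Nat.add_sub_cancel' (hcard C)]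
  refine D.inv_induct S (p := p) ?_ ?_ ?_ ?_ _ B hB hinv le_rfl
  · refine ⟨1, one_pos, fun C _ => ⟨1, LS.Gam.one, ?_⟩⟩
    rw [Finset.prod_eq_one fun i _ => D.Lam_top S i, one_pow, one_pow, one_mul]
  · intro k
    refine ⟨M, hM, fun C hC => ?_⟩
    by_cases hk : k ∈ C
    · refine ⟨g0⁻¹, hg0.inv, ?_⟩
      rw [← Finset.mul_prod_erase C _ hk, D.Lam_PP_self, nrm_ge]
      have h1 : ∏ i ∈ C.erase k, D.Lam S i ((D.base Ω).PP k) =
          ∏ i ∈ C.erase k, S.nrm ((D.base Ω).e k - (D.base Ω).e i) := by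
        refine Finset.prod_congr rfl fun i hi => ?_
        rw [D.Lam_PP_ne S (Finset.ne_of_mem_erase hi), ← S.nrm.map_neg, neg_sub]
      have h2 : ∏ j ∈ Finset.univ.erase k, S.nrm ((D.base Ω).e k - (D.base Ω).e j) =
          (∏ i ∈ C.erase k, S.nrm ((D.base Ω).e k - (D.base Ω).e i)) * M ^ (n - C.card) := by
        have e1 : Finset.univ.erase k = C.erase k ∪ Cᶜ := by
          ext j
          simp only [Finset.mem_erase, Finset.mem_univ, and_true, Finset.mem_union,
            Finset.mem_compl]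
          constructor
          · intro h
            by_cases hj : j ∈ C
            · exact Or.inl ⟨h, hj⟩
            · exact Or.inr hj
          · rintro (h | h)
            · exact h.1
            · rintro rfl; exact h hk
        have e2 : Disjoint (C.erase k) Cᶜ := by
          rw [Finset.disjoint_left]
          intro j hj hj'
          exact (Finset.mem_compl.1 hj') (Finset.mem_of_mem_erase hj)
        rw [e1, Finset.prod_union e2]
        congr 1
        rw [Finset.prod_congr rfl fun j hj => hC k hk j (Finset.mem_compl.1 hj), Finset.prod_const,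
          Finset.card_compl, Fintype.card_fin]
      rw [h1, h2, inv_pow, ← hMg, hpn C]
      have e3 : ∏ i ∈ C.erase k, S.nrm ((D.base Ω).e k - (D.base Ω).e i) ≠ 0 := by
        refine Finset.prod_ne_zero_iff.2 fun i hi => S.nrm.ne_zero (sub_ne_zero.2 fun h => ?_)
        exact Finset.ne_of_mem_erase hi ((D.base Ω).he h).symm
      have e4 := pow_ne_zero (n - C.card) hM.ne'
      have e5 := pow_ne_zero C.card hM.ne'
      field_simp
    · refine ⟨1, LS.Gam.one, ?_⟩
      rw [one_pow, mul_one, ← Finset.prod_const]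
      refine Finset.prod_congr rfl fun i hi => ?_
      have hik : i ≠ k := by rintro rfl; exact hk hi
      rw [D.Lam_PP_ne S hik]
      exact hC i hi k hk
  · rintro I J hI hJ ⟨μ, hμ, h⟩ ⟨μ', hμ', h'⟩
    refine ⟨μ * μ', mul_pos hμ hμ', fun C hC => ?_⟩
    obtain ⟨G, hG, e⟩ := h C hC
    obtain ⟨G', hG', e'⟩ := h' C hC
    refine ⟨G * G', hG.mul hG', ?_⟩
    rw [Finset.prod_congr rfl fun i _ => D.Lam_mul S i hI hJ, Finset.prod_mul_distrib, e, e',
      mul_pow, mul_pow]
    ring
  · rintro I ⟨hI, hIinv, N, q, t, x, hN, hq, ht, hLam, hx, hxx, hle', heq⟩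
    have hGx : S.Gam (S.nrm (algebraMap F Ω x)) := ⟨x, hx, rfl⟩
    by_cases hlt : ∃ j, t j < M ^ q
    · obtain ⟨j, hj⟩ := hlt
      have key : ∀ k, S.nrm ((D.base Ω).e j - (D.base Ω).e k) = M → t k = M ^ q := by
        intro k hk
        have h1 := hle' j k
        rw [hk] at h1
        have h2 : M ^ q ≤ t k := by
          rcases le_max_iff.1 h1 with h | h
          · linarith
          · exact h
        have h3 := heq j k (by linarith)
        rw [hk, max_eq_right (by linarith)] at h3
        exact h3.symm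
      refine ⟨M ^ (q * N), pow_pos hM _, fun C hC => ?_⟩
      by_cases hjC : j ∈ C
      · refine ⟨S.nrm (algebraMap F Ω x) / g0 ^ (q * N), hGx.div (hg0.pow _), ?_⟩
        have h1 : ∀ k ∉ C, t k ^ N = M ^ (q * N) := fun k hk => by
          rw [key k (hC j hjC k hk), pow_mul]
        rw [prod_compl_card h1] at hxx
        rw [Finset.prod_congr rfl fun i _ => hLam i, div_pow, hxx]
        have e1 : (g0 ^ (q * N)) ^ ℓ = S.nrm (D.base Ω).δ ^ (q * N) *
            ((M ^ (q * N)) ^ C.card * (M ^ (q * N)) ^ (n - C.card)) := by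
          rw [← pow_mul, mul_comm (q * N) ℓ, pow_mul, ← hMg, mul_pow, ← pow_add,
            Nat.add_sub_cancel' (hcard C), ← pow_mul, ← pow_mul, mul_comm n (q * N)]
        rw [e1]
        have e2 := pow_ne_zero (q * N) hδ0.ne'
        have e3 := pow_ne_zero (n - C.card) (pow_ne_zero (q * N) hM.ne')
        have e4 := pow_ne_zero C.card (pow_ne_zero (q * N) hM.ne')
        field_simp
      · refine ⟨1, LS.Gam.one, ?_⟩
        rw [one_pow, mul_one, Finset.prod_congr rfl fun i hi => ?_, Finset.prod_const]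
        rw [hLam, key i (hC.symm D S hjC hi), pow_mul]
    · push Not at hlt
      have hconst : ∀ i j, t i = t j := by
        intro i j
        by_contra hne
        have h1 := heq i j hne
        have h2 : S.nrm ((D.base Ω).e i - (D.base Ω).e j) ^ q ≤ M ^ q :=
          pow_le_pow_left₀ (S.nrm.nonneg _) (hle i j) q
        have h3 := hlt i
        have h4 := hlt j
        have h5 : t i ≤ M ^ q := (le_max_left _ _).trans (h1 ▸ h2)
        have h6 : t j ≤ M ^ q := (le_max_right _ _).trans (h1 ▸ h2)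
        exact hne (by linarith)
      let i0 : Fin n := ⟨0, D.n_pos⟩
      refine ⟨t i0 ^ N, pow_pos (ht _) _, fun C _ => ⟨1, LS.Gam.one, ?_⟩⟩
      rw [one_pow, mul_one, Finset.prod_congr rfl fun i _ => ?_, Finset.prod_const]
      rw [hLam, hconst i i0]

end Dat

end Pool.Agent.Y713.SE
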