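import Pool.Agent.Y160.SE.All

/-! Combinations of Tate classes. -/

set_option autoImplicit false
set_option linter.all false

open Polynomial IsDedekindDomain

namespace Pool.Agent.Y713.TG

open Pool.Agent.Y160.SE
open Pool.Agent.TH115.GD (incl rs ak Sep Comp CompInf IsTower rs_mul)

section loc

variable {ℓ : ℕ} {K F Ω L Ω' : Type} [Field K] [Field F] [Field Ω] [Field L] [Field Ω']
  [Algebra K F] [Algebra F Ω] [Algebra K Ω] [IsScalarTower K F Ω]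
  [Algebra K L] [Algebra L Ω'] [Algebra K Ω'] [Algebra F Ω'] [IsScalarTower K L Ω']
  [IsScalarTower K F Ω'] {f : K[X]}

/-- two embeddings differ by an automorphism -/
theorem exists_aut2 [Normal F Ω] (ι ι' : Ω →ₐ[F] Ω') : ∃ ρ : Ω ≃ₐ[F] Ω, ∀ x, ι (ρ x) = ι' x := by
  letI : Algebra Ω Ω' := ι.toRingHom.toAlgebra
  haveI : IsScalarTower F Ω Ω' := IsScalarTower.of_algebraMap_eq fun x => (ι.commutes x).symm
  refine ⟨AlgHom.restrictNormal' ι' Ω, fun x => ?_⟩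
  exact AlgHom.restrictNormal_commutes ι' Ω x

/-- change of the embedding -/
theorem LocTriv_change [Normal F Ω] {c : (Ω ≃ₐ[F] Ω) → Jac ℓ f Ω} (hc : IsCoc ℓ f c)
    (h : LocTriv ℓ f L Ω' c) (ι' : Ω →ₐ[F] Ω') :
    ∃ P : Jac ℓ f Ω', ∀ (τ : Ω' ≃ₐ[L] Ω') (σ : Ω ≃ₐ[F] Ω),
    (∀ x, τ (ι' x) = ι' (σ x)) →
      jm ℓ f (ι'.restrictScalars K) (c σ) = jm ℓ f (rs K τ) P - P := by
  obtain ⟨ι, P, hP⟩ := h
  obtain ⟨ρ, hρ⟩ := exists_aut2 ι ι'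
  refine ⟨P + jm ℓ f (ι.restrictScalars K) (c ρ), fun τ σ h => ?_⟩
  have h1 : ∀ x, τ (ι x) = ι ((ρ * σ * ρ⁻¹) x) := by
    intro x
    have h2 := h (ρ⁻¹ x)
    rw [← hρ, ← hρ] at h2
    have h3 : ρ (ρ⁻¹ x) = x := ρ.apply_symm_apply x
    rw [h3] at h2
    exact h2
  have h3 := hP τ _ h1
  -- `c (ρ σ ρ⁻¹) = c ρ + ρ c σ - ρ σ ρ⁻¹ c ρ`
  have e1 : c (ρ * σ * ρ⁻¹) = c ρ + jm ℓ f (rs K ρ) (c σ) -
      jm ℓ f (rs K (ρ * σ * ρ⁻¹)) (c ρ) := by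
    have h4 := hc.mul (ρ * σ * ρ⁻¹) ρ
    rw [inv_mul_cancel_right, hc.mul ρ σ] at h4
    rw [h4]; abel
  have e2 : (ι.restrictScalars K).comp (rs K ρ) = ι'.restrictScalars K :=
    AlgHom.ext fun x => hρ x
  have e3 : (ι.restrictScalars K).comp (rs K (ρ * σ * ρ⁻¹)) =
      (rs K τ).comp (ι.restrictScalars K) := AlgHom.ext fun x => (h1 x).symm
  rw [e1, map_sub, map_add, jm_jm, jm_jm, e2, e3] at h3
  rw [map_add, jm_jm]
  have h5 : jm ℓ f (ι'.restrictScalars K) (c σ) = (jm ℓ f (rs K τ) P - P) -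
      jm ℓ f (ι.restrictScalars K) (c ρ) +
        jm ℓ f ((rs K τ).comp (ι.restrictScalars K)) (c ρ) := by
    rw [← h3]; abel
  rw [h5]
  abel

theorem LocTriv_add [Normal F Ω] {c c' : (Ω ≃ₐ[F] Ω) → Jac ℓ f Ω} 
    (hc' : IsCoc ℓ f c') (h : LocTriv ℓ f L Ω' c) (h' : LocTriv ℓ f L Ω' c') :
    LocTriv ℓ f L Ω' (fun σ => c σ + c' σ) := by
  obtain ⟨ι, P, hP⟩ := h
  obtain ⟨P', hP'⟩ := LocTriv_change hc' h' ι
  refine ⟨ι, P + P', fun τ σ hτσ => ?_⟩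
  rw [map_add, hP τ σ hτσ, hP' τ σ hτσ, map_add]
  abel

theorem LocTriv_smul {c : (Ω ≃ₐ[F] Ω) → Jac ℓ f Ω} (h : LocTriv ℓ f L Ω' c) (z : ℤ) :
    LocTriv ℓ f L Ω' (fun σ => z • c σ) := by
  obtain ⟨ι, P, hP⟩ := h
  refine ⟨ι, z • P, fun τ σ hτσ => ?_⟩
  rw [map_zsmul, hP τ σ hτσ, map_zsmul, smul_sub]

end loc

section coc
variable {ℓ : ℕ} {K F Ω : Type} [Field K] [Field F] [Field Ω] [Algebra K F] [Algebra F Ω]
  [Algebra K Ω] [IsScalarTower K F Ω] {f : K[X]}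

theorem IsCoc_add {c c' : (Ω ≃ₐ[F] Ω) → Jac ℓ f Ω} (h : IsCoc ℓ f c) (h' : IsCoc ℓ f c') :
    IsCoc ℓ f (fun σ => c σ + c' σ) := by
  refine ⟨h.lc.comp₂ h'.lc (fun a b => a + b), fun σ τ => ?_⟩
  show c (σ * τ) + c' (σ * τ) = c σ + c' σ + jm ℓ f (rs K σ) (c τ + c' τ)
  rw [h.mul, h'.mul, map_add]
  abel

theorem IsCoc_smul {c : (Ω ≃ₐ[F] Ω) → Jac ℓ f Ω} (h : IsCoc ℓ f c) (z : ℤ) :
    IsCoc ℓ f (fun σ => z • c σ) := by
  refine ⟨h.lc.comp (fun a => z • a), fun σ τ => ?_⟩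
  show z • c (σ * τ) = z • c σ + jm ℓ f (rs K σ) (z • c τ)
  rw [h.mul, smul_add, map_zsmul]

end coc

section cls
variable {ℓ : ℕ} {k' K F : Type} [Field k'] [Field K] [Field F] [Algebra K F] [Algebra k'[X] F]
  [IsFractionRing k'[X] F] {f : K[X]}

theorem tate_add {c c' : ℕ → (Sep F ≃ₐ[F] Sep F) → Jac ℓ f (Sep F)}
    (h : IsTateClass ℓ k' f c) (h' : IsTateClass ℓ k' f c') :
    IsTateClass ℓ k' f (fun n σ => c n σ + c' n σ) := by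
  refine ⟨⟨fun n => IsCoc_add (h.tc.coc n) (h'.tc.coc n), fun σ => ?_, fun n σ => ?_⟩,
    fun n => ⟨fun v => LocTriv_add (h'.tc.coc n) ((h.loc n).1 v) ((h'.loc n).1 v),
      LocTriv_add (h'.tc.coc n) (h.loc n).2 (h'.loc n).2⟩, fun τ => ?_⟩
  · show c 0 σ + c' 0 σ = 0
    rw [h.tc.zero, h'.tc.zero, add_zero]
  · show ℓ • (c (n + 1) σ + c' (n + 1) σ) = c n σ + c' n σ
    rw [smul_add, h.tc.step, h'.tc.step]
  · obtain ⟨m, Q, hQ, hi⟩ := h.inv τ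
    obtain ⟨m', Q', hQ', hi'⟩ := h'.inv τ
    refine ⟨m + m', fun n => ℓ ^ m' • Q n + ℓ ^ m • Q' n, ⟨?_, fun n => ?_⟩,
      fun n σ σ' hσ => ?_⟩
    · show ℓ ^ m' • Q 0 + ℓ ^ m • Q' 0 = 0
      rw [hQ.zero, hQ'.zero, smul_zero, smul_zero, add_zero]
    · show ℓ • (ℓ ^ m' • Q (n + 1) + ℓ ^ m • Q' (n + 1)) = ℓ ^ m' • Q n + ℓ ^ m • Q' n
      rw [smul_add, smul_comm ℓ (ℓ ^ m'), smul_comm ℓ (ℓ ^ m), hQ.step, hQ'.step]
    · show ℓ ^ (m + m') • (jm ℓ f (ak τ) (c n σ' + c' n σ') - (c n σ + c' n σ)) =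
        jm ℓ f (rs K σ) (ℓ ^ m' • Q n + ℓ ^ m • Q' n) - (ℓ ^ m' • Q n + ℓ ^ m • Q' n)
      have e1 := hi n σ σ' hσ
      have e2 := hi' n σ σ' hσ
      have e3 : jm ℓ f (ak τ) (c n σ' + c' n σ') - (c n σ + c' n σ) =
          (jm ℓ f (ak τ) (c n σ') - c n σ) + (jm ℓ f (ak τ) (c' n σ') - c' n σ) := by
        rw [map_add]; abel
      have e4 : ℓ ^ (m + m') • (jm ℓ f (ak τ) (c n σ') - c n σ) =
          ℓ ^ m' • (jm ℓ f (rs K σ) (Q n) - Q n) := by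
        rw [← e1, smul_smul, add_comm m m', pow_add]
      have e5 : ℓ ^ (m + m') • (jm ℓ f (ak τ) (c' n σ') - c' n σ) =
          ℓ ^ m • (jm ℓ f (rs K σ) (Q' n) - Q' n) := by
        rw [← e2, smul_smul, pow_add]
      rw [e3, smul_add, e4, e5, map_add, map_nsmul, map_nsmul, smul_sub, smul_sub]
      abel

theorem tate_smul {c : ℕ → (Sep F ≃ₐ[F] Sep F) → Jac ℓ f (Sep F)}
    (h : IsTateClass ℓ k' f c) (z : ℤ) :
    IsTateClass ℓ k' f (fun n σ => z • c n σ) := by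
  refine ⟨⟨fun n => IsCoc_smul (h.tc.coc n) z, fun σ => ?_, fun n σ => ?_⟩,
    fun n => ⟨fun v => LocTriv_smul ((h.loc n).1 v) z, LocTriv_smul (h.loc n).2 z⟩, fun τ => ?_⟩
  · show z • c 0 σ = 0
    rw [h.tc.zero, smul_zero]
  · show ℓ • (z • c (n + 1) σ) = z • c n σ
    rw [smul_comm, h.tc.step]
  · obtain ⟨m, Q, hQ, hi⟩ := h.inv τ
    refine ⟨m, fun n => z • Q n, ⟨?_, fun n => ?_⟩, fun n σ σ' hσ => ?_⟩
    · show z • Q 0 = 0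
      rw [hQ.zero, smul_zero]
    · show ℓ • (z • Q (n + 1)) = z • Q n
      rw [smul_comm, hQ.step]
    · show ℓ ^ m • (jm ℓ f (ak τ) (z • c n σ') - z • c n σ) =
        jm ℓ f (rs K σ) (z • Q n) - z • Q n
      rw [map_zsmul, map_zsmul, ← smul_sub, ← smul_sub, ← hi n σ σ' hσ, smul_comm]

theorem tate_zero : IsTateClass (F := F) ℓ k' f (fun _ _ => 0) := by
  refine ⟨⟨fun n => ⟨IsLocallyConstant.const 0, fun σ τ => by rw [map_zero, add_zero]⟩,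
    fun σ => rfl, fun n σ => smul_zero _⟩, fun n => ⟨fun v => ⟨IsSepClosed.lift, 0,
      fun τ σ _ => by rw [map_zero, map_zero, sub_zero]⟩, ⟨?_, 0,
      fun τ σ _ => by rw [map_zero, map_zero, sub_zero]⟩⟩, fun τ => ⟨0, fun _ => 0,
      ⟨rfl, fun n => smul_zero _⟩, fun n σ σ' _ => by
        rw [map_zero, map_zero, sub_zero, smul_zero]⟩⟩
  exact IsSepClosed.lift

theorem tate_sum {m : ℕ} {E : Fin m → ℕ → (Sep F ≃ₐ[F] Sep F) → Jac ℓ f (Sep F)}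
    (hE : ∀ i, IsTateClass ℓ k' f (E i)) (z : Fin m → ℤ) (s : Finset (Fin m)) :
    IsTateClass ℓ k' f (fun n σ => ∑ i ∈ s, z i • E i n σ) := by
  classical
  induction s using Finset.induction_on with
  | empty =>
    simp only [Finset.sum_empty]
    exact tate_zero
  | insert a s ha ih =>
    simp only [Finset.sum_insert ha]
    exact tate_add (tate_smul (hE a) (z a)) ih

end cls

end Pool.Agent.Y713.TG
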