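import Pool.Agent.Y713.TG.Res

/-! Counting. -/

set_option autoImplicit false
set_option linter.all false

open Polynomial IsDedekindDomain

namespace Pool.Agent.Y713.SE

section lin
variable {n : ℕ} {k : Type} [Field k]

/-- The number of distinct residues of the `e i` modulo `π`. -/
noncomputable def nres (e : Fin n → k[X]) (π : k[X]) : ℕ :=
  (Set.range fun i => Ideal.Quotient.mk (Ideal.span {π}) (e i)).ncard

/-- The sum over the monic irreducible `π` of `n` minus the number of distinct residues. -/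
noncomputable def Coll (e : Fin n → k[X]) : ℕ := ∑ π ∈ pis e, (n - nres e π)

variable {ℓ : ℕ} [Fact ℓ.Prime] (e : Fin n → k[X])

theorem finrank_Wt (π : k[X]) : Module.finrank (ZMod ℓ) (Wt ℓ e π) ≤ n - nres e π := by
  classical
  set q : Fin n → (k[X] ⧸ Ideal.span {π}) := fun i => Ideal.Quotient.mk (Ideal.span {π}) (e i)
    with hq
  haveI : Fintype (Set.range q) := (Set.finite_range q).fintype
  let S : (Fin n → ZMod ℓ) →ₗ[ZMod ℓ] (Set.range q → ZMod ℓ) :=
    { toFun := fun r c => ∑ i ∈ Finset.univ.filter (fun i => q i = c.1), r i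
      map_add' := fun a b => by
        funext c
        simp only [Pi.add_apply, Finset.sum_add_distrib]
      map_smul' := fun c a => by
        funext d
        simp only [Pi.smul_apply, smul_eq_mul, RingHom.id_apply, Finset.mul_sum] }
  have hS : ∀ r c, S r c = ∑ i ∈ Finset.univ.filter (fun i => q i = c.1), r i := fun _ _ => rfl
  have hsurj : Function.Surjective S := by
    intro g
    choose f hf using fun c : Set.range q => c.2
    refine ⟨fun i => if f ⟨q i, i, rfl⟩ = i then g ⟨q i, i, rfl⟩ else 0, ?_⟩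
    funext c
    rw [hS, Finset.sum_eq_single (f c)]
    · have h1 : (⟨q (f c), f c, rfl⟩ : Set.range q) = c := Subtype.ext (hf c)
      rw [h1, if_pos rfl]
    · intro i hi hne
      rw [Finset.mem_filter] at hi
      have h1 : (⟨q i, i, rfl⟩ : Set.range q) = c := Subtype.ext hi.2
      rw [h1, if_neg (Ne.symm hne)]
    · intro h
      exfalso
      apply h
      rw [Finset.mem_filter]
      exact ⟨Finset.mem_univ _, hf c⟩
  have hle : Wt ℓ e π ≤ LinearMap.ker S := by
    intro r hr
    rw [LinearMap.mem_ker]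
    funext c
    rw [hS]
    refine hr _ fun i hi j hj hdvd => ?_
    rw [Finset.mem_filter] at hi hj
    apply hj
    refine ⟨Finset.mem_univ _, ?_⟩
    rw [← hi.2]
    symm
    rw [hq]
    simp only
    rw [Ideal.Quotient.eq, Ideal.mem_span_singleton]
    exact hdvd
  have h1 := Submodule.finrank_mono hle
  have h2 := LinearMap.finrank_range_add_finrank_ker S
  rw [LinearMap.range_eq_top.2 hsurj, finrank_top, Module.finrank_fintype_fun_eq_card,
    Module.finrank_fintype_fun_eq_card, Fintype.card_fin] at h2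
  have h3 : Fintype.card (Set.range q) = nres e π := by
    unfold nres
    rw [Set.ncard_eq_toFinset_card', Set.toFinset_card]
  omega

/-- the space which contains the vectors of residues -/
def WW (ℓ : ℕ) (e : Fin n → k[X]) :
    Submodule (ZMod ℓ) ({π // π ∈ pis e} → Fin n → ZMod ℓ) :=
  Submodule.pi Set.univ fun π => Wt ℓ e π.1

lemma mem_WW {r : {π // π ∈ pis e} → Fin n → ZMod ℓ} :
    r ∈ WW ℓ e ↔ ∀ π, r π ∈ Wt ℓ e π.1 := by
  unfold WW
  rw [Submodule.mem_pi]
  simp

theorem finrank_WW : Module.finrank (ZMod ℓ) (WW ℓ e) ≤ Coll e := by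
  classical
  let j : WW ℓ e →ₗ[ZMod ℓ] ((π : {π // π ∈ pis e}) → Wt ℓ e π.1) :=
    { toFun := fun r π => ⟨r.1 π, (mem_WW e).1 r.2 π⟩
      map_add' := fun a b => rfl
      map_smul' := fun c a => rfl }
  have hj : Function.Injective j := by
    intro a b h
    apply Subtype.ext
    funext π
    exact congrArg Subtype.val (congrFun h π)
  have h1 := LinearMap.finrank_le_finrank_of_injective hj
  rw [Module.finrank_pi_fintype] at h1
  refine h1.trans ?_
  unfold Coll
  rw [← Finset.sum_attach (pis e)]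
  exact Finset.sum_le_sum fun π _ => finrank_Wt e π.1

theorem Lap_mem (π : k[X]) (a : Fin n → ZMod ℓ) : Lap ℓ e π a ∈ Wt ℓ e π := by
  classical
  intro C hC
  set M : Fin n → Fin n → ZMod ℓ := fun i j => if i = j then 0 else
    (multiplicity π (e i - e j) : ZMod ℓ) with hM
  have hsymm : ∀ i j, M i j = M j i := by
    intro i j
    rw [hM]
    simp only
    by_cases h : i = j
    · rw [if_pos h, if_pos h.symm]
    · rw [if_neg h, if_neg (Ne.symm h), ← neg_sub (e j) (e i), multiplicity_neg]
  have h1 : ∀ i ∈ C, Lap ℓ e π a i = ∑ j ∈ C, M i j * (a i - a j) := by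
    intro i hi
    rw [Lap_apply]
    have h2 : ∑ j ∈ Finset.univ.erase i, (multiplicity π (e i - e j) : ZMod ℓ) * (a i - a j) =
        ∑ j, M i j * (a i - a j) := by
      rw [← Finset.sum_erase (f := fun j => M i j * (a i - a j)) Finset.univ (a := i)
        (by rw [sub_self, mul_zero])]
      refine Finset.sum_congr rfl fun j hj => ?_
      rw [hM]
      simp only
      rw [if_neg (Finset.ne_of_mem_erase hj).symm]
    rw [h2]
    symm
    apply Finset.sum_subset (Finset.subset_univ C)
    intro j _ hj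
    have hij : i ≠ j := by rintro rfl; exact hj hi
    rw [hM]
    simp only
    rw [if_neg hij, multiplicity_eq_zero.2 (hC i hi j hj), Nat.cast_zero, zero_mul]
  rw [Finset.sum_congr rfl h1]
  simp only [mul_sub, Finset.sum_sub_distrib]
  rw [sub_eq_zero, Finset.sum_comm]
  refine Finset.sum_congr rfl fun i _ => Finset.sum_congr rfl fun j _ => ?_
  rw [hsymm]

/-- the vectors of the torsion classes -/
noncomputable def TT (ℓ : ℕ) (e : Fin n → k[X]) :
    (Fin n → ZMod ℓ) →ₗ[ZMod ℓ] ({π // π ∈ pis e} → Fin n → ZMod ℓ) :=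
  LinearMap.pi fun π => (-(n : ZMod ℓ)) • Lap ℓ e π.1

lemma TT_apply (a : Fin n → ZMod ℓ) (π : {π // π ∈ pis e}) :
    TT ℓ e a π = (-(n : ZMod ℓ)) • Lap ℓ e π.1 a := rfl

theorem TT_le : LinearMap.range (TT ℓ e) ≤ WW ℓ e := by
  rintro _ ⟨a, rfl⟩
  rw [mem_WW]
  intro π
  rw [TT_apply]
  exact Submodule.smul_mem _ _ (Lap_mem e π.1 a)

theorem TT_rank (he : Function.Injective e) (hn : (n : ZMod ℓ) ≠ 0) (hR : Rigid ℓ e) :
    n - 1 ≤ Module.finrank (ZMod ℓ) (LinearMap.range (TT ℓ e)) := by
  classical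
  have h2 := LinearMap.finrank_range_add_finrank_ker (TT ℓ e)
  rw [Module.finrank_fintype_fun_eq_card, Fintype.card_fin] at h2
  have h3 : Module.finrank (ZMod ℓ) (LinearMap.ker (TT ℓ e)) ≤ 1 := by
    rw [finrank_le_one_iff]
    by_cases hn0 : n = 0
    · subst hn0
      exact ⟨0, fun w => ⟨0, Subtype.ext (funext fun i => i.elim0)⟩⟩
    have hone : (fun _ : Fin n => (1 : ZMod ℓ)) ∈ LinearMap.ker (TT ℓ e) := by
      rw [LinearMap.mem_ker]
      funext π i
      rw [TT_apply, Pi.smul_apply, Lap_apply]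
      simp
    refine ⟨⟨_, hone⟩, fun w => ?_⟩
    have hw := w.2
    rw [LinearMap.mem_ker] at hw
    have hc : ∀ i j, w.1 i = w.1 j := by
      apply hR
      intro π hπ _ i
      by_cases hdv : ∀ j, i ≠ j → ¬ π ∣ e i - e j
      · refine Finset.sum_eq_zero fun j hj => ?_
        rw [multiplicity_eq_zero.2 (hdv j (Finset.ne_of_mem_erase hj).symm), Nat.cast_zero, zero_mul]
      push Not at hdv
      obtain ⟨j, hj, hdv⟩ := hdv
      have hne : e i - e j ≠ 0 := sub_ne_zero.2 fun h => hj (he h)
      obtain ⟨π', hπ', hass⟩ :=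
        UniqueFactorizationMonoid.exists_mem_normalizedFactors_of_dvd hne hπ hdv
      have hmem := mem_pis_of he hj hπ'
      have h4 := congrFun (congrFun hw ⟨π', hmem⟩) i
      rw [TT_apply, Pi.smul_apply, Lap_apply, smul_eq_mul] at h4
      have h5 := (mul_eq_zero.1 h4).resolve_left (neg_ne_zero.2 hn)
      rw [← h5]
      refine Finset.sum_congr rfl fun j' _ => ?_
      congr 2
      exact multiplicity_eq_of_associated_left hass.symm
    refine ⟨w.1 ⟨0, Nat.pos_of_ne_zero hn0⟩, Subtype.ext (funext fun i => ?_)⟩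
    show w.1 ⟨0, _⟩ * 1 = w.1 i
    rw [mul_one]
    exact hc _ _
  omega

end lin

end Pool.Agent.Y713.SE
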