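import Pool.Agent.Y713.TG.Fin

/-! A family: one branch point moves, the others are constant. -/

set_option autoImplicit false
set_option linter.all false

open Polynomial IsDedekindDomain

namespace Pool.Agent.Y713.SE

/-- a polynomial of degree prime to `ℓ` has the Kummer property -/
lemma Kum.of_deg {ℓ : ℕ} (hℓ : ℓ.Prime) {k : Type} [Field k] {π : k[X]} (hπ : Irreducible π)
    (hd : ¬ ℓ ∣ π.natDegree) : Kum ℓ π := by
  intro b q h
  refine const_stable hℓ hπ hd ⟨q, ?_⟩
  rw [← neg_sub]
  exact (dvd_neg).2 h

section fam
variable {k : Type} [Field k] {m : ℕ} (c : Fin m → k) (g : k[X])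

/-- the branch points `c 0, …, c (m - 1), g` -/
noncomputable def brf : Fin (m + 1) → k[X] := Fin.snoc (fun i => C (c i)) g

lemma brf_cast (i : Fin m) : brf c g (Fin.castSucc i) = C (c i) := by
  unfold brf
  exact Fin.snoc_castSucc (α := fun _ => k[X]) g (fun i => C (c i)) i

lemma brf_last : brf c g (Fin.last m) = g := by
  unfold brf
  exact Fin.snoc_last (α := fun _ => k[X]) g (fun i => C (c i))

variable {c g} (hc : Function.Injective c) (hg : ∀ i, Irreducible (g - C (c i)))

include hc hg

lemma brf_inj : Function.Injective (brf c g) := by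
  intro i j h
  induction i using Fin.lastCases with
  | last =>
    induction j using Fin.lastCases with
    | last => rfl
    | cast j =>
      exfalso
      rw [brf_cast, brf_last] at h
      apply (hg j).ne_zero
      rw [h, sub_self]
  | cast i =>
    induction j using Fin.lastCases with
    | last =>
      exfalso
      rw [brf_cast, brf_last] at h
      apply (hg i).ne_zero
      rw [← h, sub_self]
    | cast j =>
      rw [brf_cast, brf_cast] at h
      rw [hc (C_injective h)]

/-- the factors of the differences -/
lemma brf_dvd {π : k[X]} (hπ : Irreducible π) {i j : Fin (m + 1)} (hij : i ≠ j)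
    (h : π ∣ brf c g i - brf c g j) : ∃ i0 : Fin m, Associated π (g - C (c i0)) ∧
      ((i = Fin.castSucc i0 ∧ j = Fin.last m) ∨ (j = Fin.castSucc i0 ∧ i = Fin.last m)) := by
  induction i using Fin.lastCases with
  | last =>
    induction j using Fin.lastCases with
    | last => exact absurd rfl hij
    | cast j =>
      rw [brf_cast, brf_last] at h
      exact ⟨j, (hπ.dvd_irreducible_iff_associated (hg j)).1 h, Or.inr ⟨rfl, rfl⟩⟩
  | cast i =>
    induction j using Fin.lastCases with
    | last =>
      rw [brf_cast, brf_last, ← neg_sub, dvd_neg] at h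
      exact ⟨i, (hπ.dvd_irreducible_iff_associated (hg i)).1 h, Or.inl ⟨rfl, rfl⟩⟩
    | cast j =>
      exfalso
      rw [brf_cast, brf_cast, ← C_sub] at h
      have h1 : c i - c j ≠ 0 := sub_ne_zero.2 fun h' => hij (by rw [hc h'])
      exact hπ.not_isUnit (isUnit_of_dvd_unit h (isUnit_C.2 (isUnit_iff_ne_zero.2 h1)))

lemma brf_coll : Coll (brf c g) ≤ m := by
  classical
  have hinj := brf_inj hc hg
  have h1 : ∀ π ∈ pis (brf c g), m + 1 - nres (brf c g) π ≤ 1 := by
    intro π hπ
    obtain ⟨hi, i, j, hij, hd⟩ := mem_pis hinj hπ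
    have h2 : m ≤ nres (brf c g) π := by
      unfold nres
      have h3 : Function.Injective (fun i : Fin m =>
          Ideal.Quotient.mk (Ideal.span {π}) (brf c g (Fin.castSucc i))) := by
        intro a b hab
        by_contra hne
        have hab' : Ideal.Quotient.mk (Ideal.span {π}) (brf c g (Fin.castSucc a)) =
          Ideal.Quotient.mk (Ideal.span {π}) (brf c g (Fin.castSucc b)) := hab
        rw [Ideal.Quotient.eq, Ideal.mem_span_singleton] at hab'
        obtain ⟨i0, -, h4 | h4⟩ := brf_dvd hc hg hi
          (fun h => hne (Fin.castSucc_injective m h)) hab'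
        · exact absurd h4.2 (Fin.castSucc_ne_last b)
        · exact absurd h4.2 (Fin.castSucc_ne_last a)
      have h4 : Set.range (fun i : Fin m =>
          Ideal.Quotient.mk (Ideal.span {π}) (brf c g (Fin.castSucc i))) ⊆
          Set.range (fun i => Ideal.Quotient.mk (Ideal.span {π}) (brf c g i)) := by
        rintro _ ⟨i, rfl⟩
        exact ⟨_, rfl⟩
      have h5 := Set.ncard_le_ncard h4 (Set.finite_range _)
      have h6 : (Set.range (fun i : Fin m =>
          Ideal.Quotient.mk (Ideal.span {π}) (brf c g (Fin.castSucc i)))).ncard = m := by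
        rw [Set.ncard_range_of_injective h3, Nat.card_eq_fintype_card, Fintype.card_fin]
      omega
    omega
  have h2 : pis (brf c g) ⊆ (Finset.univ : Finset (Fin m)).image
      (fun i => normalize (g - C (c i))) := by
    intro π hπ
    obtain ⟨hi, i, j, hij, hd⟩ := mem_pis hinj hπ
    obtain ⟨i0, h3, -⟩ := brf_dvd hc hg hi hij hd
    rw [Finset.mem_image]
    refine ⟨i0, Finset.mem_univ _, ?_⟩
    have h4 : normalize π = π := by
      unfold pis at hπ
      rw [Multiset.mem_toFinset] at hπ
      exact UniqueFactorizationMonoid.normalize_normalized_factor π hπ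
    rw [← h4]
    exact (normalize_eq_normalize_iff_associated.2 h3).symm
  calc Coll (brf c g) = ∑ π ∈ pis (brf c g), (m + 1 - nres (brf c g) π) := rfl
    _ ≤ ∑ π ∈ pis (brf c g), 1 := Finset.sum_le_sum h1
    _ = (pis (brf c g)).card := by rw [Finset.sum_const, smul_eq_mul, mul_one]
    _ ≤ _ := Finset.card_le_card h2
    _ ≤ (Finset.univ : Finset (Fin m)).card := Finset.card_image_le
    _ = m := by rw [Finset.card_univ, Fintype.card_fin]

lemma brf_rigid {ℓ : ℕ} (hℓ : ℓ.Prime) (hd : ∀ i, ¬ ℓ ∣ (g - C (c i)).natDegree) :
    Rigid ℓ (brf c g) := by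
  classical
  intro a ha
  have key : ∀ i : Fin m, a (Fin.castSucc i) = a (Fin.last m) := by
    intro i
    have h1 := ha (g - C (c i)) (hg i) (Kum.of_deg hℓ (hg i) (hd i)) (Fin.castSucc i)
    rw [Finset.sum_eq_single (Fin.last m)] at h1
    · rw [brf_cast, brf_last, ← neg_sub g, multiplicity_neg,
        multiplicity_self, Nat.cast_one, one_mul, sub_eq_zero] at h1
      exact h1
    · intro j hj hne
      have hij : Fin.castSucc i ≠ j := (Finset.ne_of_mem_erase hj).symm
      have h2 : ¬ (g - C (c i)) ∣ brf c g (Fin.castSucc i) - brf c g j := by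
        intro h
        obtain ⟨i0, -, h4 | h4⟩ := brf_dvd hc hg (hg i) hij h
        · exact hne h4.2
        · exact absurd h4.2 (Fin.castSucc_ne_last i)
      rw [multiplicity_eq_zero.2 h2, Nat.cast_zero, zero_mul]
    · intro h
      exact absurd (Finset.mem_erase.2 ⟨(Fin.castSucc_ne_last i).symm, Finset.mem_univ _⟩) h
  have key' : ∀ i : Fin (m + 1), a i = a (Fin.last m) := by
    intro i
    induction i using Fin.lastCases with
    | last => rfl
    | cast i => exact key i
  intro i j
  rw [key' i, key' j]

end fam

end Pool.Agent.Y713.SE
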