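import Pool.Agent.Y713.TG.Thm2
import Pool.Agent.Y713.SE.Ari

/-! The main theorem for a tower `k(t) ⊆ k'(t)`, and a family. -/

set_option autoImplicit false
set_option linter.all false

open Polynomial IsDedekindDomain

namespace Pool.Agent.Y713.SE

open Pool.Agent.Y160.SE (Jac jm sg pe Good IsTateClass IsTC IsTM IsCoc LocTriv hyps jm_pe pe_mul
  first_tor exists_W1' exists_W' tate_of_first TateAt exists_U' fixed_class)
open Pool.Agent.TH115.GD (pl Preserves Comp Sep exists_conj lift restr preserves incl ak IsTower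
  sepKΩ)

/-- the polynomial `∏ (x - e i)` over `K = k(t)` -/
noncomputable def brp {n : ℕ} {k : Type} [Field k] (K : Type) [Field K] [Algebra k[X] K]
    (e : Fin n → k[X]) : K[X] := ∏ i, (X - C (algebraMap k[X] K (e i)))

/-- there are Tate classes `E 0, …, E (m - 1)` which generate all the Tate classes over `ℤ[σ]`
modulo the classes from `J(K)` -/
def GenBy {ℓ : ℕ} {K F : Type} [Field K] [Field F] [Algebra K F] (k' : Type) [Field k']
    [Algebra k'[X] F] [IsFractionRing k'[X] F] {f : K[X]} {ζ : K} (hg : Good ℓ ζ f) (m : ℕ) : Prop :=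
  ∃ E : Fin m → ℕ → (Sep F ≃ₐ[F] Sep F) → Jac ℓ f (Sep F),
    (∀ i, IsTateClass ℓ k' f (E i)) ∧
    ∀ c : ℕ → (Sep F ≃ₐ[F] Sep F) → Jac ℓ f (Sep F), IsTateClass ℓ k' f c → ∀ N,
      ∃ (p : Fin m → ℤ[X]) (P : Jac ℓ f K) (R : Jac ℓ f (Sep F)),
        ℓ ^ N • R = jm ℓ f (incl K K (Sep F)) P ∧
        ∀ σ, c N σ = ∑ i, pe hg (Sep F) (p i) (E i N σ) +
          (jm ℓ f (Pool.Agent.TH115.GD.rs K σ) R - R)

section main

variable {ℓ n : ℕ} {k k' K F : Type} [Field k] [Field k'] [Algebra k k'] [Field K] [Algebra k[X] K]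
  [Field F] [Algebra k'[X] F] [IsFractionRing k'[X] F] [Algebra K F]

theorem main (hT : IsTower k k' K F) (hℓ : ℓ.Prime) {ζ : k} (hζ : IsPrimitiveRoot ζ ℓ)
    (hn : ¬ ℓ ∣ n) {e : Fin n → k[X]} (he : Function.Injective e)
    (hsep : ∀ i j, i ≠ j → ∀ π : k[X], Irreducible π → π ∣ e i - e j → π.Separable)
    (hR : Rigid ℓ e) :
    ∃ hg : Good ℓ (algebraMap k[X] K (C ζ)) (brp K e),
      Finite (Jac ℓ (brp K e) K ⧸ (pe hg K (1 - X)).range) ∧
      (∃ m, GenBy (F := F) k' hg m ∧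
        ℓ ^ m * Nat.card (Jac ℓ (brp K e) K ⧸ (pe hg K (1 - X)).range) ≤ ℓ ^ Coll e ∧
        m + (n - 1) ≤ Coll e) ∧
      (ℓ ^ Coll e < ℓ * Nat.card (Jac ℓ (brp K e) K ⧸ (pe hg K (1 - X)).range) →
        TateAt (F := F) ℓ k' (brp K e)) ∧
      (Coll e ≤ n - 1 → TateAt (F := F) ℓ k' (brp K e)) := by
  classical
  haveI := hT.sep
  haveI := hT.fracK
  haveI : IsSepClosure K (Sep F) := sepKΩ hT.map
  haveI : IsGalois K (Sep F) := inferInstance
  have hKinj : Function.Injective ((algebraMap k[X] K).comp C) :=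
    (IsFractionRing.injective k[X] K).comp C_injective
  haveI : NeZero ℓ := ⟨hℓ.ne_zero⟩
  have h1 := hζ.neZero'
  have hℓk : (ℓ : k') ≠ 0 := by
    have h3 : ((ℓ : ℕ) : k') = algebraMap k k' (ℓ : k) := (map_natCast _ _).symm
    rw [h3]
    exact (_root_.map_ne_zero _).2 h1.out
  have hℓK : (ℓ : K) ≠ 0 := by
    have h3 : ((ℓ : ℕ) : K) = algebraMap k[X] K (C (ℓ : k)) := by
      rw [map_natCast, map_natCast]
    rw [h3, ← RingHom.comp_apply]
    exact (map_ne_zero_iff _ hKinj).2 h1.out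
  let D : Dat ℓ n K :=
    { hp := hℓ
      hne := hℓK
      ζ := algebraMap k[X] K (C ζ)
      hζ := hζ.map_of_injective (f := (algebraMap k[X] K).comp C) hKinj
      δ := 1
      hδ := one_ne_zero
      e := fun i => algebraMap k[X] K (e i)
      he := fun i j h => he (IsFractionRing.injective k[X] K h)
      hn := hn }
  have hf : brp K e = D.f := by
    unfold brp Dat.f
    show _ = C (1 : K) * _
    rw [C_1, one_mul]
  have hrt : ∀ π : {π // π ∈ pis e}, ∃ θ : k', aeval θ (π : k[X]) = 0 := by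
    intro π
    haveI : IsSepClosed k' := IsSepClosure.sep_closed k
    obtain ⟨h2, i, j, hij, hd⟩ := mem_pis he π.2
    have hs := hsep i j hij π.1 h2 hd
    have h3 : (π.1.map (algebraMap k k')).Splits := IsSepClosed.splits_of_separable _ hs.map
    have h4 : (π.1.map (algebraMap k k')).degree ≠ 0 := by
      rw [degree_map]
      exact (degree_pos_of_irreducible h2).ne'
    obtain ⟨θ, hθ⟩ := h3.exists_eval_eq_zero h4
    exact ⟨θ, by rwa [eval_map_algebraMap] at hθ⟩
  choose rt hrt using hrt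
  have hg0 : Good ℓ D.ζ D.f := D.good rfl
  haveI := Fact.mk hℓ
  rw [hf]
  refine ⟨hg0, Dat.finite_quot (F := F) (k' := k') (D := D) hT.map (e := e)
      (fun i => rfl) rfl hℓk hg0 hsep hR hrt hζ, ?_, ?_, ?_⟩
  · obtain ⟨m, E, h5, h6, h7, h8⟩ := Dat.genB (F := F) (k' := k') (D := D) hT.map (e := e)
      (fun i => rfl) rfl hℓk hg0 hsep hR hrt hζ
    exact ⟨m, ⟨E, h7, h8⟩, h5, h6⟩
  · intro h
    exact Dat.tateD (F := F) (k' := k') (D := D) hT.map (e := e)
      (fun i => rfl) rfl hℓk hg0 hsep hR hrt hζ h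
  · intro h
    exact Dat.tateC (F := F) (k' := k') (D := D) hT.map (e := e)
      (fun i => rfl) rfl hℓk hg0 hsep hR hrt hζ h

end main

end Pool.Agent.Y713.SE
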