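import Pool.Agent.Y713.TG.Brd

/-! The first layer of a Tate class. -/

set_option autoImplicit false
set_option linter.all false

open Polynomial IsDedekindDomain

namespace Pool.Agent.Y713.SE

open Pool.Agent.Y160.SE (Jac jm sg pe Good IsTateClass IsTC IsTM IsCoc LocTriv hyps jm_pe pe_mul
  first_tor exists_W1' exists_W')
open Pool.Agent.TH115.GD (pl Preserves Comp Sep exists_conj lift restr preserves incl ak)

namespace Dat

section fix
variable {ℓ n : ℕ} {k k' K F Ω : Type} [Field k] [Field k'] [Algebra k k'] [IsSepClosure k k']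
  [Field K] [Algebra k[X] K] [IsFractionRing k[X] K] [Field F] [Algebra k'[X] F]
  [IsFractionRing k'[X] F] [Algebra K F] [Field Ω] [Algebra F Ω] [Algebra K Ω]
  [IsScalarTower K F Ω] [IsSepClosure F Ω] [IsGalois F Ω] [IsGalois K Ω] [IsSepClosed Ω]
  {D : Dat ℓ n K}
  (hKF : ∀ p : k[X], algebraMap K F (algebraMap k[X] K p) =
    algebraMap k'[X] F (p.map (algebraMap k k')))
  {e : Fin n → k[X]} (hDe : ∀ i, D.e i = algebraMap k[X] K (e i)) (hδ : D.δ = 1)
  (hℓ : (ℓ : k') ≠ 0)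

include hKF hDe hδ hℓ in
omit [IsSepClosure F Ω] [IsGalois K Ω] in
/-- the classes over `F` killed by a power of `1 - s` are killed by `1 - s` -/
theorem fix_phi (hsep : ∀ i j, i ≠ j → ∀ π : k[X], Irreducible π → π ∣ e i - e j → π.Separable)
    (hR : Rigid ℓ e) {Q : ClassGroup (D.base Ω).A}
    (hfix : ∀ σ : Ω ≃ₐ[F] Ω, D.mC (rs K σ) Q = Q)
    (h2 : (D.base Ω).phi ((D.base Ω).phi Q) = 1) : (D.base Ω).phi Q = 1 := by
  haveI : IsSepClosed k' := IsSepClosure.sep_closed k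
  obtain ⟨p, hp⟩ := ExpChar.exists Ω
  haveI := hp
  obtain ⟨m, hm⟩ := (D.base Ω).phi_ker (p := p) (phi_eq_one_iff.1 h2)
  rw [← cl_PT] at hm
  have hQ := phi_eq_iff.1 hm
  have key : ∀ i j, (m i : ZMod ℓ) = m j := by
    apply hR (fun i => (m i : ZMod ℓ))
    intro π hπ _ i
    by_cases hdv : ∀ j, i ≠ j → ¬ π ∣ e i - e j
    · refine Finset.sum_eq_zero fun j hj => ?_
      have h1 := hdv j (Finset.ne_of_mem_erase hj).symm
      rw [multiplicity_eq_zero.2 h1, Nat.cast_zero, zero_mul]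
    push Not at hdv
    obtain ⟨j0, hj0, hdv⟩ := hdv
    have hs := hsep i j0 hj0 π hπ hdv
    obtain ⟨θ, hθ⟩ : ∃ θ : k', aeval θ π = 0 := by
      have h1 : (π.map (algebraMap k k')).Splits := IsSepClosed.splits_of_separable _ hs.map
      have h2 : (π.map (algebraMap k k')).degree ≠ 0 := by
        rw [degree_map]
        exact (degree_pos_of_irreducible hπ).ne'
      obtain ⟨θ, hθ⟩ := h1.exists_eval_eq_zero h2
      exact ⟨θ, by rwa [eval_map_algebraMap] at hθ⟩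
    have h3 := D.fix_tors hδ hℓ hQ hfix (pl (k' := k') θ) i
    have e1 : ∑ k ∈ Finset.univ.erase i, ((m i : ZMod ℓ) - m k) *
        ov ℓ (pl (k' := k') θ) (algebraMap K F (D.e i - D.e k)) =
        - ∑ j ∈ Finset.univ.erase i, (multiplicity π (e i - e j) : ZMod ℓ) *
          ((m i : ZMod ℓ) - m j) := by
      rw [← Finset.sum_neg_distrib]
      refine Finset.sum_congr rfl fun j hj => ?_
      rw [D.ov_e hKF hDe hπ hs hθ (Finset.ne_of_mem_erase hj).symm]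
      ring
    rw [e1] at h3
    exact neg_eq_zero.1 h3
  rw [hm]
  apply (D.base Ω).cl_PT_of_modEq
  intro i j
  exact (ZMod.natCast_eq_natCast_iff _ _ _).1 (key i j)

include hKF hDe hδ hℓ in
omit [IsSepClosure F Ω] [IsGalois K Ω] in
theorem fix_lam (hg : Good ℓ D.ζ D.f)
    (hsep : ∀ i j, i ≠ j → ∀ π : k[X], Irreducible π → π ∣ e i - e j → π.Separable)
    (hR : Rigid ℓ e) (N : ℕ) : ∀ x : Jac ℓ D.f Ω,
    (∀ σ : Ω ≃ₐ[F] Ω, jm ℓ D.f (Pool.Agent.TH115.GD.rs K σ) x = x) →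
    pe hg Ω ((1 - X) ^ N) x = 0 → pe hg Ω (1 - X) x = 0 := by
  induction N with
  | zero =>
    intro x hx h
    rw [pow_zero, Pool.Agent.Y160.SE.pe_one] at h
    rw [h, map_zero]
  | succ N ih =>
    intro x hx h
    rcases Nat.eq_zero_or_pos N with rfl | hN
    · rwa [zero_add, pow_one] at h
    apply ih x hx
    obtain ⟨M, rfl⟩ : ∃ M, N = M + 1 := ⟨N - 1, by omega⟩
    set z := pe hg Ω ((1 - X) ^ M) x with hz
    have hzf : ∀ σ : Ω ≃ₐ[F] Ω, jm ℓ D.f (Pool.Agent.TH115.GD.rs K σ) z = z := fun σ => by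
      rw [hz, jm_pe, hx]
    have h2 : pe hg Ω (1 - X) (pe hg Ω (1 - X) z) = 0 := by
      rw [hz, ← pe_mul, ← pe_mul]
      have e1 : ((1 : ℤ[X]) - X) * (1 - X) * (1 - X) ^ M = (1 - X) ^ (M + 1 + 1) := by ring
      rw [e1, h]
    have h3 : pe hg Ω (1 - X) z = 0 := by
      apply D.tj_inj
      rw [D.tj_lam hg, D.tj_zero]
      refine fix_phi hKF hDe hδ hℓ hsep hR (fun σ => ?_) ?_
      · have := congrArg (D.tj Ω) (hzf σ)
        rw [D.tj_jm] at this
        exact this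
      · have := congrArg (D.tj Ω) h2
        rwa [D.tj_lam hg, D.tj_lam hg, D.tj_zero] at this
    have e2 : ((1 : ℤ[X]) - X) ^ (M + 1) = (1 - X) * (1 - X) ^ M := by ring
    rw [e2, pe_mul, ← hz, h3]

end fix

section fst
variable {ℓ n : ℕ} {k k' K F : Type} [Field k] [Field k'] [Algebra k k'] [IsSepClosure k k']
  [Field K] [Algebra k[X] K] [IsFractionRing k[X] K] [Field F] [Algebra k'[X] F]
  [IsFractionRing k'[X] F] [Algebra K F] [IsGalois K (Sep F)]
  {D : Dat ℓ n K}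
  (hKF : ∀ p : k[X], algebraMap K F (algebraMap k[X] K p) =
    algebraMap k'[X] F (p.map (algebraMap k k')))
  {e : Fin n → k[X]} (hDe : ∀ i, D.e i = algebraMap k[X] K (e i)) (hδ : D.δ = 1)
  (hℓ : (ℓ : k') ≠ 0) (hg : Good ℓ D.ζ D.f)

/-- the first layer -/
noncomputable def fl (hg : Good ℓ D.ζ D.f) (c : ℕ → (Sep F ≃ₐ[F] Sep F) → Jac ℓ D.f (Sep F)) :
    (Sep F ≃ₐ[F] Sep F) → ClassGroup (D.base (Sep F)).A :=
  fun σ => D.tj (Sep F) (pe hg (Sep F) ((1 - X) ^ (ℓ - 2)) (c 1 σ))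

include hKF hDe hδ hℓ in
theorem fl_gd
    (hsep : ∀ i j, i ≠ j → ∀ π : k[X], Irreducible π → π ∣ e i - e j → π.Separable)
    (hR : Rigid ℓ e) {c : ℕ → (Sep F ≃ₐ[F] Sep F) → Jac ℓ D.f (Sep F)}
    (hc : IsTateClass ℓ k' D.f c) : D.Gd k' (fl hg c) := by
  have hN : Preserves K F (Sep F) := preserves hKF
  have h2 := hg.prime.two_le
  obtain ⟨W, hW⟩ := exists_W1' hyps hg
  have hfix : ∀ σ, (D.base (Sep F)).phi (fl hg c σ) = 1 := by
    intro σ
    have h1 := first_tor hyps hg hc.tc σ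
    unfold Pool.Agent.Y160.SE.Tor at h1
    have h3 := congrArg (D.tj (Sep F)) h1
    rwa [D.tj_lam hg, D.tj_zero] at h3
  have hPT : ∀ (φ : Sep F →ₐ[K] Sep F) (y : ClassGroup (D.base (Sep F)).A),
      (D.base (Sep F)).phi y = 1 → D.mC φ y = y := by
    intro φ y hy
    obtain ⟨p, hp⟩ := ExpChar.exists (Sep F)
    haveI := hp
    obtain ⟨m', hm'⟩ := (D.base (Sep F)).phi_ker (p := p) (phi_eq_one_iff.1 hy)
    rw [hm', ← cl_PT, D.mC_PT]
  have hcoc := (hc.tc.coc 1).pe hg ((1 - X) ^ (ℓ - 2))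
  refine ⟨⟨hcoc.lc.comp (D.tj (Sep F)), fun σ τ => ?_⟩, fun σ => phi_eq_one_iff.1 (hfix σ),
    fun v => ?_, fun τ => ?_⟩
  · show D.tj (Sep F) (pe hg (Sep F) ((1 - X) ^ (ℓ - 2)) (c 1 (σ * τ))) = _
    rw [hcoc.mul σ τ, D.tj_add, D.tj_jm]
    rfl
  · obtain ⟨ι, P, hP⟩ := ((hc.loc 1).1 v).pe hg ((1 - X) ^ (ℓ - 2))
    refine ⟨ι, D.tj _ P, fun τ σ hτσ => ?_⟩
    have h1 := congrArg (D.tj _) (hP τ σ hτσ)
    rw [D.tj_jm, D.tj_sub, D.tj_jm] at h1
    exact h1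
  · obtain ⟨m, Q, hQ, hinv⟩ := hc.inv τ
    have hpow : ∀ (k n : ℕ) (σ), ℓ ^ k • c (k + n) σ = c n σ := by
      intro k
      induction k with
      | zero => intro n σ; rw [pow_zero, one_smul, zero_add]
      | succ k ih =>
        intro n σ
        rw [pow_succ, mul_smul, show k + 1 + n = (k + n) + 1 by omega, hc.tc.step, ih]
    have hQpow : ∀ (k : ℕ), ℓ ^ k • Q k = 0 := by
      intro k
      induction k with
      | zero => rw [hQ.zero, smul_zero]
      | succ k ih =>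
        rw [pow_succ, mul_smul, hQ.step, ih]
    have hQfix : ∀ σ : Sep F ≃ₐ[F] Sep F,
        jm ℓ D.f (Pool.Agent.TH115.GD.rs K σ) (Q m) = Q m := by
      intro σ
      obtain ⟨σ', hσ'⟩ := exists_conj hN τ σ
      have h1 := hinv m σ σ' hσ'
      have h3 := hpow m 0 σ
      have h4 := hpow m 0 σ'
      rw [add_zero, hc.tc.zero] at h3 h4
      rw [smul_sub, ← map_nsmul, h3, h4, map_zero, sub_zero] at h1
      exact (sub_eq_zero.1 h1.symm)
    have hWn : ∀ (n : ℕ) (x : Jac ℓ D.f (Sep F)), pe hg (Sep F) ((1 - X) ^ ((ℓ - 1) * n)) x =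
        pe hg (Sep F) (W ^ n) (ℓ ^ n • x) := by
      intro n
      induction n with
      | zero => intro x; rw [mul_zero, pow_zero, pow_zero, pow_zero, one_smul]
      | succ n ih =>
        intro x
        rw [mul_add, mul_one, pow_add, pe_mul, hW, ih, pow_succ W, pe_mul, pow_succ ℓ, mul_smul,
          ← map_nsmul, ← map_nsmul, smul_comm]
    have hQm : pe hg (Sep F) (1 - X) (Q m) = 0 := by
      refine fix_lam hKF hDe hδ hℓ hg hsep hR ((ℓ - 1) * m) (Q m) hQfix ?_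
      rw [hWn, hQpow, map_zero]
    set T := pe hg (Sep F) ((1 - X) ^ (ℓ - 2)) (Q (m + 1)) with hT
    have hT1 : pe hg (Sep F) (1 - X) T = pe hg (Sep F) W (Q m) := by
      rw [hT, ← pe_mul, ← pow_succ', show ℓ - 2 + 1 = ℓ - 1 by omega, hW, ← map_nsmul, hQ.step]
    have hT2 : (D.base (Sep F)).phi ((D.base (Sep F)).phi (D.tj _ T)) = 1 := by
      rw [← D.tj_lam hg, ← D.tj_lam hg, hT1, Pool.Agent.Y160.SE.pe_comm, hQm, map_zero, D.tj_zero]
    obtain ⟨p, hp⟩ := ExpChar.exists (Sep F)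
    haveI := hp
    obtain ⟨m', hm'⟩ := (D.base (Sep F)).phi_ker (p := p) (phi_eq_one_iff.1 hT2)
    rw [← cl_PT] at hm'
    refine ⟨D.tj _ T, m', fun σ σ' h => ?_, phi_eq_iff.1 hm'⟩
    have h1 := hinv (m + 1) σ σ' h
    rw [smul_sub, ← map_nsmul, hpow m 1, hpow m 1] at h1
    have h3 := congrArg (pe hg (Sep F) ((1 - X) ^ (ℓ - 2))) h1
    rw [map_sub, ← jm_pe, map_sub, ← jm_pe, ← hT] at h3
    have h4 := congrArg (D.tj (Sep F)) h3
    rw [D.tj_sub, D.tj_sub, D.tj_jm, D.tj_jm] at h4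
    have h5 : D.mC (ak τ) (fl hg c σ') = fl hg c σ' := hPT _ _ (hfix σ')
    have h6 : D.mC (ak τ) (D.tj (Sep F) (pe hg (Sep F) ((1 - X) ^ (ℓ - 2)) (c 1 σ'))) =
      fl hg c σ' := h5
    rw [h6] at h4
    rw [div_eq_iff_eq_mul, mul_comm] at h4
    exact h4

end fst

end Dat

end Pool.Agent.Y713.SE
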