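import Pool.Agent.Y713.TG.Clu
import Pool.Agent.Y713.SE.Glo3

/-! Cocycles over an intermediate field: Kummer data and places. -/

set_option autoImplicit false
set_option linter.all false

open Polynomial IsDedekindDomain

namespace Pool.Agent.Y713.SE

namespace Dat

variable {ℓ n : ℕ}

lemma cl_PT_add {L : Type} [Field L] (D : Dat ℓ n L) (m m' : Fin n → ℕ) :
    cl (D.PT m) * cl (D.PT m') = cl (D.PT (m + m')) := by
  rw [cl_PT, cl_PT, cl_PT]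
  simp only [Pi.add_apply, pow_add, Finset.prod_mul_distrib]

lemma cl_PT_pow {L : Type} [Field L] (D : Dat ℓ n L) (m : Fin n → ℕ) (k : ℕ) :
    cl (D.PT m) ^ k = cl (D.PT (k • m)) := by
  induction k with
  | zero => rw [pow_zero, zero_smul, cl_PT]; simp
  | succ k ih => rw [pow_succ, ih, cl_PT_add, succ_nsmul]

lemma cl_PT_eq_iff {L : Type} [Field L] (D : Dat ℓ n L) {m m' : Fin n → ℕ} :
    cl (D.PT m) = cl (D.PT m') ↔ ∀ i j, m i + m' j ≡ m j + m' i [MOD ℓ] := by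
  refine ⟨fun h i j => D.PT_indep h i j, fun h => ?_⟩
  have h1 : cl (D.PT (m + (ℓ - 1) • m')) = 1 := by
    apply D.cl_PT_of_modEq
    intro i j
    show m i + (ℓ - 1) * m' i ≡ m j + (ℓ - 1) * m' j [MOD ℓ]
    have h2 := h i j
    have hℓ := D.pos
    obtain ⟨k, rfl⟩ : ∃ k, ℓ = k + 1 := ⟨ℓ - 1, by omega⟩
    rw [Nat.add_sub_cancel]
    have h3 : (m i + k * m' i) + (m' i + m' j) ≡ (m j + k * m' j) + (m' i + m' j)
        [MOD (k + 1)] := by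
      have e1 : (m i + k * m' i) + (m' i + m' j) = (m i + m' j) + (k + 1) * m' i := by ring
      have e2 : (m j + k * m' j) + (m' i + m' j) = (m j + m' i) + (k + 1) * m' j := by ring
      rw [e1, e2]
      have e3 : ∀ a b : ℕ, a + (k + 1) * b ≡ a [MOD (k + 1)] := fun a b => by simp [Nat.ModEq]
      exact ((e3 _ _).trans h2).trans (e3 _ _).symm
    exact Nat.ModEq.add_right_cancel' _ h3
  rw [← cl_PT_add, ← cl_PT_pow] at h1
  have h2 : cl (D.PT m') ^ ℓ = 1 := by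
    rw [cl_PT_pow]
    apply D.cl_PT_of_modEq
    intro i j
    show ℓ * m' i ≡ ℓ * m' j [MOD ℓ]
    simp [Nat.ModEq]
  have h3 : cl (D.PT m') ^ ℓ = cl (D.PT m') ^ (ℓ - 1) * cl (D.PT m') := by
    rw [← pow_succ, Nat.sub_add_cancel D.pos]
  rw [← mul_left_inj (cl (D.PT m') ^ (ℓ - 1)), h1, mul_comm, ← h3, h2]

section FO

variable {K : Type} [Field K] (D : Dat ℓ n K)
variable {F Ω : Type} [Field F] [Algebra K F] [Field Ω] [Algebra K Ω] [Algebra F Ω]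
  [IsScalarTower K F Ω]

/-- Kummer data over `F` -/
structure KF (χ : (Ω ≃ₐ[F] Ω) → Fin n → ℕ) where
  θ : Fin n → Fin n → Ω
  d : Fin n → Fin n → F
  h0 : ∀ i j, θ i j ≠ 0
  hθ : ∀ (σ : Ω ≃ₐ[F] Ω) i j, (D.base Ω).ζ ^ χ σ j * σ (θ i j) = (D.base Ω).ζ ^ χ σ i * θ i j
  hd : ∀ i j, θ i j ^ ℓ = algebraMap F Ω (d i j)

/-- continuous cocycles -/
def CocF (c : (Ω ≃ₐ[F] Ω) → ClassGroup (D.base Ω).A) : Prop :=
  IsLocallyConstant c ∧ ∀ σ τ, c (σ * τ) = c σ * D.mC (rs K σ) (c τ)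

lemma locConst_congr {X α β : Type} [TopologicalSpace X] {f : X → α} {g : X → β}
    (hf : IsLocallyConstant f) (h : ∀ x y, f x = f y → g x = g y) : IsLocallyConstant g := by
  rw [IsLocallyConstant.iff_exists_open] at hf ⊢
  intro x
  obtain ⟨U, hU, hx, h1⟩ := hf x
  exact ⟨U, hU, hx, fun y hy => h _ _ (h1 y hy)⟩

theorem exists_KF [IsGalois F Ω] {χ : (Ω ≃ₐ[F] Ω) → Fin n → ℕ}
    (hc : D.CocF (fun σ => cl ((D.base Ω).PT (χ σ)))) : Nonempty (D.KF χ) := by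
  obtain ⟨h1, h2⟩ := hc
  have h3 : ∀ σ τ i j, χ (σ * τ) i + (χ σ j + χ τ j) ≡ χ (σ * τ) j + (χ σ i + χ τ i) [MOD ℓ] := by
    intro σ τ
    have h4 := h2 σ τ
    simp only at h4
    rw [D.mC_PT (rs K σ) (χ τ), cl_PT_add] at h4
    exact (D.base Ω).PT_indep h4
  have hc' : (D.base F).Coc (fun σ : Ω ≃ₐ[F] Ω => cl (((D.base F).base Ω).PT (χ σ))) := by
    refine ⟨locConst_congr h1 fun x y h => ?_, fun σ τ => ?_⟩
    · exact (cl_PT_eq_iff _).2 ((cl_PT_eq_iff _).1 h)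
    · rw [(D.base F).mC_PT (au σ) (χ τ), cl_PT_add]
      exact (cl_PT_eq_iff _).2 (h3 σ τ)
  obtain ⟨kd⟩ := (D.base F).exists_KD hc'
  have hz : ((D.base F).base Ω).ζ = (D.base Ω).ζ :=
    (IsScalarTower.algebraMap_apply K F Ω D.ζ).symm
  refine ⟨⟨kd.θ, kd.d, kd.h0, fun σ i j => ?_, kd.hd⟩⟩
  have := kd.hθ σ i j
  rwa [hz] at this

lemma KF.d0 {χ : (Ω ≃ₐ[F] Ω) → Fin n → ℕ} (kd : D.KF χ) (i j : Fin n) : kd.d i j ≠ 0 := by
  intro h0
  have := kd.hd i j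
  rw [h0, map_zero] at this
  exact kd.h0 i j (pow_eq_zero_iff D.pos.ne' |>.1 this)

/-- triviality over an extension of `F` -/
def TrivF (E Ω' : Type) [Field E] [Algebra K E] [Field Ω'] [Algebra K Ω'] [Algebra E Ω']
    [Algebra F Ω'] [IsScalarTower K E Ω'] [IsScalarTower K F Ω']
    (c : (Ω ≃ₐ[F] Ω) → ClassGroup (D.base Ω).A) : Prop :=
  ∃ (ι : Ω →ₐ[F] Ω') (P : ClassGroup (D.base Ω').A), ∀ (τ : Ω' ≃ₐ[E] Ω') (σ : Ω ≃ₐ[F] Ω),
    (∀ x : Ω, τ (ι x) = ι (σ x)) →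
      D.mC (ι.restrictScalars K) (c σ) = D.mC (rs K τ) P / P

end FO

section loc

variable {K : Type} [Field K] (D : Dat ℓ n K)
variable {F Ω : Type} [Field F] [Algebra K F] [Field Ω] [Algebra K Ω] [Algebra F Ω]
  [IsScalarTower K F Ω] (S : LS ℓ F Ω)

/-- norms of Kummer generators -/
theorem nrm_kd [IsGalois F Ω] {χ : (Ω ≃ₐ[F] Ω) → Fin n → ℕ} {R : ClassGroup (D.base Ω).A}
    (hR : ∀ τ, D.mC (rs K τ) R = R * cl ((D.base Ω).PT (χ τ)))
    {i j : Fin n} {θ : Ω} (hθ0 : θ ≠ 0)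
    (hθ : ∀ τ : Ω ≃ₐ[F] Ω, (D.base Ω).ζ ^ χ τ j * τ θ = (D.base Ω).ζ ^ χ τ i * θ)
    {B : Ideal (D.base Ω).A} (hB : B ≠ ⊥) (hi : ∀ τ : Ω ≃ₐ[F] Ω, D.mI (rs K τ) B = B)
    (hcl : cl B * (D.base Ω).sC R = R) :
    ∃ t, S.Gam t ∧ S.nrm θ ^ ℓ * D.Lam S i B = t ^ ℓ * D.Lam S j B := by
  have htop : (⊤ : Ideal (D.base Ω).A) ≠ ⊥ := top_ne_bot
  have hit : ∀ τ : Ω ≃ₐ[F] Ω, D.mI (rs K τ) (⊤ : Ideal (D.base Ω).A) = ⊤ := fun τ =>
    Ideal.map_top _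
  obtain ⟨x, hx, h⟩ := D.locA S hR hθ0 hθ hB htop hi hit (by rw [hcl, cl_top, one_mul])
  rw [Lam_top, Lam_top, mul_one, mul_one] at h
  exact ⟨_, ⟨x, hx, rfl⟩, h⟩

end loc

section place

variable {K : Type} [Field K] (D : Dat ℓ n K)
variable {R F : Type} [CommRing R] [IsDedekindDomain R] [Field F] [Algebra R F]
  [IsFractionRing R F] [Algebra K F]
variable {Ω : Type} [Field Ω] [Algebra K Ω] [Algebra F Ω] [IsScalarTower K F Ω]
variable {v : HeightOneSpectrum R} [Algebra K (v.adicCompletion F)]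
  [IsScalarTower K F (v.adicCompletion F)]
variable {Ω' : Type} [Field Ω'] [Algebra (v.adicCompletion F) Ω'] [Algebra F Ω'] [Algebra K Ω']
  [IsScalarTower F (v.adicCompletion F) Ω'] [IsScalarTower K (v.adicCompletion F) Ω']
  [IsScalarTower K F Ω'] [IsSepClosed Ω'] [IsGalois (v.adicCompletion F) Ω']

lemma e_subF (i j : Fin n) : (D.base Ω').e i - (D.base Ω').e j =
    algebraMap F Ω' (algebraMap K F (D.e i - D.e j)) := by
  rw [← IsScalarTower.algebraMap_apply, map_sub]; rfl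

/-- passing to the place -/
theorem transF [IsGalois F Ω] {χ : (Ω ≃ₐ[F] Ω) → Fin n → ℕ} {ι : Ω →ₐ[F] Ω'}
    {P : ClassGroup (D.base Ω').A}
    (hP : ∀ (τ : Ω' ≃ₐ[v.adicCompletion F] Ω') (σ : Ω ≃ₐ[F] Ω), (∀ x : Ω, τ (ι x) = ι (σ x)) →
      D.mC (ι.restrictScalars K) (cl ((D.base Ω).PT (χ σ))) = D.mC (rs K τ) P / P)
    (kd : D.KF χ) :
    ∃ χv : (Ω' ≃ₐ[v.adicCompletion F] Ω') → Fin n → ℕ,
      (∀ τ, D.mC (rs K τ) P = P * cl ((D.base Ω').PT (χv τ))) ∧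
      ∀ (τ : Ω' ≃ₐ[v.adicCompletion F] Ω') i j, (D.base Ω').ζ ^ χv τ j * τ (ι (kd.θ i j)) =
        (D.base Ω').ζ ^ χv τ i * ι (kd.θ i j) := by
  have hex : ∀ τ : Ω' ≃ₐ[v.adicCompletion F] Ω', ∃ σ : Ω ≃ₐ[F] Ω, ∀ x, τ (ι x) = ι (σ x) :=
    fun τ => exists_restr ι (τ.restrictScalars F)
  choose ρ hρ using hex
  refine ⟨fun τ => χ (ρ τ), fun τ => ?_, fun τ i j => ?_⟩
  · have h1 := hP τ (ρ τ) (hρ τ)
    rw [D.mC_PT (ι.restrictScalars K)] at h1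
    rw [h1, mul_comm, div_mul_cancel]
  · have hζ : ∀ k : ℕ, (D.base Ω').ζ ^ k = ι ((D.base Ω).ζ ^ k) := fun k => by
      rw [map_pow]; congr 1
      exact ((ι.restrictScalars K).commutes D.ζ).symm
    rw [hρ, hζ, hζ, ← map_mul, ← map_mul, kd.hθ]

/-- the condition on a union of clusters -/
theorem clus_place [IsGalois F Ω] {p : ℕ} [ExpChar Ω' p]
    (hδ : v.valuation F (algebraMap K F D.δ) = 1)
    (hle : ∀ i j, v.valuation F (algebraMap K F (D.e i - D.e j)) ≤ 1)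
    (hℓ : v.valuation F (ℓ : F) = 1) {χ : (Ω ≃ₐ[F] Ω) → Fin n → ℕ}
    (ht : D.TrivF (v.adicCompletion F) Ω' (fun σ => cl ((D.base Ω).PT (χ σ))))
    (kd : D.KF χ) {C : Finset (Fin n)}
    (hC : ∀ i ∈ C, ∀ j ∉ C, v.valuation F (algebraMap K F (D.e i - D.e j)) = 1) :
    Pw ℓ (v.valuation F (∏ i ∈ C, ∏ j, kd.d i j)) := by
  classical
  obtain ⟨S, hS⟩ := exists_LSv v ℓ Ω' hℓ
  replace hS : Cpt S := hS
  obtain ⟨ι, P, hP⟩ := ht
  obtain ⟨χv, h1, h2⟩ := D.transF hP kd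
  obtain ⟨B, hB, hBinv, hBc⟩ := D.exists_B h1
  have hθ0 : ∀ i j, ι (kd.θ i j) ≠ 0 := fun i j => (_root_.map_ne_zero _).2 (kd.h0 i j)
  have hδ' : S.nrm (D.base Ω').δ = 1 := by
    have e : (D.base Ω').δ = algebraMap F Ω' (algebraMap K F D.δ) :=
      IsScalarTower.algebraMap_apply K F Ω' D.δ
    rw [e]
    exact hS.one hδ
  have hle' : ∀ i j, S.nrm ((D.base Ω').e i - (D.base Ω').e j) ≤ 1 := by
    intro i j
    rw [D.e_subF (F := F)]
    have h3 : S.nrm (algebraMap (v.adicCompletion F) Ω' (algebraMap F _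
        (algebraMap K F (D.e i - D.e j)))) ≤
        S.nrm (algebraMap (v.adicCompletion F) Ω' 1) := by
      rw [hS, val_coe, map_one]
      exact hle i j
    rwa [map_one, map_one, ← IsScalarTower.algebraMap_apply] at h3
  have hsat : D.Sat S 1 C := by
    intro i hi j hj
    rw [D.e_subF (F := F)]
    exact hS.one (hC i hi j hj)
  have hsatu : D.Sat S 1 Finset.univ := fun i _ j hj => absurd (Finset.mem_univ j) hj
  obtain ⟨μ, hμ, hcl⟩ := D.tameC S (p := p) (M := 1) (g0 := 1) one_pos LS.Gam.one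
    (by rw [hδ', one_pow, one_pow, one_mul]) hle' hB hBinv
  obtain ⟨G, hG, e1⟩ := hcl C hsat
  obtain ⟨G', hG', e2⟩ := hcl Finset.univ hsatu
  rw [Finset.card_univ, Fintype.card_fin] at e2
  have h3 : ∀ i j, ∃ t, S.Gam t ∧ S.nrm (ι (kd.θ i j)) ^ ℓ * D.Lam S i B = t ^ ℓ * D.Lam S j B :=
    fun i j => D.nrm_kd S h1 (hθ0 i j) (fun τ => h2 τ i j) hB hBinv hBc
  choose t ht1 ht2 using h3
  set T : ℝ := ∏ i ∈ C, ∏ j, t i j with hT
  have hGT : S.Gam T := by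
    rw [hT]
    have : ∀ (s : Finset (Fin n)) (f : Fin n → ℝ), (∀ i, S.Gam (f i)) → S.Gam (∏ i ∈ s, f i) := by
      intro s f hf
      induction s using Finset.induction_on with
      | empty => rw [Finset.prod_empty]; exact LS.Gam.one
      | insert a s ha ih => rw [Finset.prod_insert ha]; exact (hf a).mul ih
    exact this _ _ fun i => this _ _ fun j => ht1 i j
  have h4 : S.nrm (algebraMap F Ω' (∏ i ∈ C, ∏ j, kd.d i j)) =
      (T * G' ^ C.card / G ^ n) ^ ℓ := by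
    have e3 : S.nrm (algebraMap F Ω' (∏ i ∈ C, ∏ j, kd.d i j)) =
        ∏ i ∈ C, ∏ j, S.nrm (ι (kd.θ i j)) ^ ℓ := by
      rw [map_prod, map_prod]
      refine Finset.prod_congr rfl fun i _ => ?_
      rw [map_prod, map_prod]
      refine Finset.prod_congr rfl fun j _ => ?_
      rw [← map_pow, ← map_pow, kd.hd, ι.commutes]
    have e4 : (∏ i ∈ C, ∏ j, S.nrm (ι (kd.θ i j)) ^ ℓ) * (∏ i ∈ C, D.Lam S i B) ^ n =
        T ^ ℓ * (∏ j, D.Lam S j B) ^ C.card := by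
      have e5 : ∏ i ∈ C, ∏ j, (S.nrm (ι (kd.θ i j)) ^ ℓ * D.Lam S i B) =
          ∏ i ∈ C, ∏ j, (t i j ^ ℓ * D.Lam S j B) :=
        Finset.prod_congr rfl fun i _ => Finset.prod_congr rfl fun j _ => ht2 i j
      simp only [Finset.prod_mul_distrib, Finset.prod_const, Finset.card_univ, Fintype.card_fin,
        Finset.prod_pow] at e5
      rw [hT]
      simp only [Finset.prod_pow]
      exact e5
    rw [e1, e2] at e4
    rw [e3]
    have hμ1 := pow_ne_zero (C.card * n) hμ.ne'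
    have hGn : (G ^ n) ^ ℓ ≠ 0 := pow_ne_zero _ (pow_ne_zero _ hG.ne)
    rw [div_pow, eq_div_iff hGn]
    apply mul_left_cancel₀ hμ1
    have e6 : μ ^ (C.card * n) * ((∏ i ∈ C, ∏ j, S.nrm (ι (kd.θ i j)) ^ ℓ) * (G ^ n) ^ ℓ) =
        (∏ i ∈ C, ∏ j, S.nrm (ι (kd.θ i j)) ^ ℓ) * (μ ^ C.card * G ^ ℓ) ^ n := by
      rw [mul_pow, ← pow_mul, ← pow_mul, ← pow_mul, mul_comm n ℓ]; ring
    rw [e6, e4, mul_pow, ← pow_mul, mul_comm n C.card, mul_pow, ← pow_mul, ← pow_mul,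
      mul_comm ℓ C.card]
    ring
  obtain ⟨x, hx, hxx⟩ : S.Gam (T * G' ^ C.card / G ^ n) :=
    (hGT.mul (hG'.pow _)).div (hG.pow _)
  rw [← hxx] at h4
  refine hS.pw (x := algebraMap F (v.adicCompletion F) (∏ i ∈ C, ∏ j, kd.d i j)) (y := x) rfl ?_
  rw [← IsScalarTower.algebraMap_apply]
  exact h4

end place

end Dat

end Pool.Agent.Y713.SE
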