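import Pool.Agent.Y713.TG.Geo1

/-! Valuations modulo `ℓ` of the Kummer data. -/

set_option autoImplicit false
set_option linter.all false

open Polynomial IsDedekindDomain

namespace Pool.Agent.Y713.SE

section ov
variable {R F : Type} [CommRing R] [IsDedekindDomain R] [Field F] [Algebra R F]
  [IsFractionRing R F]

/-- a logarithm modulo `ℓ` -/
noncomputable def lg (ℓ : ℕ) (γ : WithZero (Multiplicative ℤ)) : ZMod ℓ :=
  ((WithZero.log γ : ℤ) : ZMod ℓ)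

lemma lg_mul {ℓ : ℕ} {a b : WithZero (Multiplicative ℤ)} (ha : a ≠ 0) (hb : b ≠ 0) :
    lg ℓ (a * b) = lg ℓ a + lg ℓ b := by
  unfold lg
  rw [WithZero.log_mul ha hb, Int.cast_add]

lemma lg_pow {ℓ : ℕ} (a : WithZero (Multiplicative ℤ)) (k : ℕ) :
    lg ℓ (a ^ k) = (k : ZMod ℓ) * lg ℓ a := by
  unfold lg
  rw [WithZero.log_pow, nsmul_eq_mul]
  push_cast
  rfl

lemma lg_one {ℓ : ℕ} : lg ℓ 1 = 0 := by
  unfold lg
  rw [WithZero.log_one, Int.cast_zero]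

lemma lg_powl {ℓ : ℕ} (a : WithZero (Multiplicative ℤ)) : lg ℓ (a ^ ℓ) = 0 := by
  rw [lg_pow, ZMod.natCast_self, zero_mul]

lemma lg_eq_zero {ℓ : ℕ} {a : WithZero (Multiplicative ℤ)} (ha : a ≠ 0) :
    lg ℓ a = 0 ↔ Pw ℓ a := by
  constructor
  · intro h
    unfold lg at h
    rw [ZMod.intCast_zmod_eq_zero_iff_dvd] at h
    obtain ⟨t, ht⟩ := h
    refine ⟨WithZero.exp t, ?_⟩
    rw [← WithZero.exp_nsmul, ← WithZero.exp_log ha, ht]
    simp
  · rintro ⟨b, rfl⟩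
    exact lg_powl b

/-- the valuation modulo `ℓ` -/
noncomputable def ov (ℓ : ℕ) (v : HeightOneSpectrum R) (x : F) : ZMod ℓ := lg ℓ (v.valuation F x)

variable {ℓ : ℕ} {v : HeightOneSpectrum R}

lemma ov_mul {x y : F} (hx : x ≠ 0) (hy : y ≠ 0) : ov ℓ v (x * y) = ov ℓ v x + ov ℓ v y := by
  unfold ov
  rw [map_mul, lg_mul ((Valuation.ne_zero_iff _).2 hx) ((Valuation.ne_zero_iff _).2 hy)]

lemma ov_pow (x : F) (k : ℕ) : ov ℓ v (x ^ k) = (k : ZMod ℓ) * ov ℓ v x := by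
  unfold ov
  rw [map_pow, lg_pow]

lemma ov_powl (x : F) : ov ℓ v (x ^ ℓ) = 0 := by
  unfold ov
  rw [map_pow, lg_powl]

lemma ov_one : ov ℓ v (1 : F) = 0 := by
  unfold ov
  rw [map_one, lg_one]

lemma ov_of_one {x : F} (h : v.valuation F x = 1) : ov ℓ v x = 0 := by
  unfold ov
  rw [h, lg_one]

lemma ov_prod {ι : Type} (s : Finset ι) (f : ι → F) (h : ∀ i ∈ s, f i ≠ 0) :
    ov ℓ v (∏ i ∈ s, f i) = ∑ i ∈ s, ov ℓ v (f i) := by
  classical
  induction s using Finset.induction_on with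
  | empty => rw [Finset.prod_empty, Finset.sum_empty, ov_one]
  | insert a s ha ih =>
    rw [Finset.prod_insert ha, Finset.sum_insert ha, ov_mul (h a (Finset.mem_insert_self _ _))
      (Finset.prod_ne_zero_iff.2 fun i hi => h i (Finset.mem_insert_of_mem hi)),
      ih fun i hi => h i (Finset.mem_insert_of_mem hi)]

lemma ov_eq_zero {x : F} (hx : x ≠ 0) : ov ℓ v x = 0 ↔ Pw ℓ (v.valuation F x) :=
  lg_eq_zero ((Valuation.ne_zero_iff _).2 hx)

lemma ov_inv {x : F} (hx : x ≠ 0) : ov ℓ v x⁻¹ = - ov ℓ v x := by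
  have h := ov_mul (ℓ := ℓ) (v := v) hx (inv_ne_zero hx)
  rw [mul_inv_cancel₀ hx, ov_one] at h
  exact (neg_eq_of_add_eq_zero_right h.symm).symm

lemma ov_neg (x : F) : ov ℓ v (-x) = ov ℓ v x := by
  unfold ov
  rw [Valuation.map_neg]

end ov

namespace Dat

variable {ℓ n : ℕ} {K : Type} [Field K] (D : Dat ℓ n K)

section rel
variable {F Ω : Type} [Field F] [Algebra K F] [Field Ω] [Algebra K Ω] [Algebra F Ω]
  [IsScalarTower K F Ω]

/-- the Kummer data of a product -/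
theorem kf_rel [IsGalois F Ω] {χ1 χ2 χ3 : (Ω ≃ₐ[F] Ω) → Fin n → ℕ} (k1 : D.KF χ1) (k2 : D.KF χ2)
    (k3 : D.KF χ3) (h : ∀ σ, cl ((D.base Ω).PT (χ3 σ)) =
      cl ((D.base Ω).PT (χ1 σ)) * cl ((D.base Ω).PT (χ2 σ))) (i j : Fin n) :
    ∃ y : F, y ≠ 0 ∧ k3.d i j = k1.d i j * k2.d i j * y ^ ℓ := by
  have hfix : ∀ σ : Ω ≃ₐ[F] Ω, σ (k3.θ i j / (k1.θ i j * k2.θ i j)) =
      k3.θ i j / (k1.θ i j * k2.θ i j) := by
    intro σ
    have h1 := h σ
    rw [cl_PT_add] at h1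
    have h2 := (D.base Ω).PT_indep h1 i j
    have e1 := k1.hθ σ i j
    have e2 := k2.hθ σ i j
    have e3 := k3.hθ σ i j
    have hz := (D.base Ω).ζ_ne
    have e4 := (D.base Ω).ζ_pow_of_modEq h2
    simp only [Pi.add_apply] at e4
    have hs1 : σ (k1.θ i j) ≠ 0 := (_root_.map_ne_zero _).2 (k1.h0 i j)
    have hs2 : σ (k2.θ i j) ≠ 0 := (_root_.map_ne_zero _).2 (k2.h0 i j)
    rw [_root_.map_div₀, map_mul, div_eq_div_iff (mul_ne_zero hs1 hs2)
      (mul_ne_zero (k1.h0 i j) (k2.h0 i j))]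
    apply mul_left_cancel₀ (pow_ne_zero (χ3 σ j + (χ1 σ j + χ2 σ j)) hz)
    have e5 : (D.base Ω).ζ ^ (χ3 σ i + (χ1 σ j + χ2 σ j)) =
        (D.base Ω).ζ ^ (χ3 σ j + (χ1 σ i + χ2 σ i)) := e4
    calc (D.base Ω).ζ ^ (χ3 σ j + (χ1 σ j + χ2 σ j)) * (σ (k3.θ i j) * (k1.θ i j * k2.θ i j)) =
        ((D.base Ω).ζ ^ χ3 σ j * σ (k3.θ i j)) * (D.base Ω).ζ ^ (χ1 σ j + χ2 σ j) *
          (k1.θ i j * k2.θ i j) := by rw [pow_add]; ring
      _ = (D.base Ω).ζ ^ (χ3 σ i + (χ1 σ j + χ2 σ j)) * (k3.θ i j * (k1.θ i j * k2.θ i j)) := by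
          rw [e3, pow_add]; ring
      _ = (D.base Ω).ζ ^ χ3 σ j * k3.θ i j * (((D.base Ω).ζ ^ χ1 σ i * k1.θ i j) *
          ((D.base Ω).ζ ^ χ2 σ i * k2.θ i j)) := by rw [e5, pow_add, pow_add]; ring
      _ = (D.base Ω).ζ ^ χ3 σ j * k3.θ i j * (((D.base Ω).ζ ^ χ1 σ j * σ (k1.θ i j)) *
          ((D.base Ω).ζ ^ χ2 σ j * σ (k2.θ i j))) := by rw [e1, e2]
      _ = _ := by rw [pow_add, pow_add]; ring
  obtain ⟨y, hy⟩ := exists_F hfix
  have hy0 : y ≠ 0 := by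
    rintro rfl
    rw [map_zero] at hy
    exact div_ne_zero (k3.h0 i j) (mul_ne_zero (k1.h0 i j) (k2.h0 i j)) hy.symm
  refine ⟨y, hy0, (algebraMap F Ω).injective ?_⟩
  rw [map_mul, map_mul, map_pow, hy, ← k1.hd, ← k2.hd, ← k3.hd, div_pow, mul_pow,
    mul_div_cancel₀ _ (mul_ne_zero (pow_ne_zero _ (k1.h0 i j)) (pow_ne_zero _ (k2.h0 i j)))]

variable {R : Type} [CommRing R] [IsDedekindDomain R] [Algebra R F] [IsFractionRing R F]

/-- the residue data of Kummer data -/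
noncomputable def KF.rr {χ : (Ω ≃ₐ[F] Ω) → Fin n → ℕ} (kd : D.KF χ) (v : HeightOneSpectrum R)
    (i : Fin n) : ZMod ℓ := ov ℓ v (∏ j, kd.d i j)

theorem rr_rel [IsGalois F Ω] {χ1 χ2 χ3 : (Ω ≃ₐ[F] Ω) → Fin n → ℕ} (k1 : D.KF χ1) (k2 : D.KF χ2)
    (k3 : D.KF χ3) (h : ∀ σ, cl ((D.base Ω).PT (χ3 σ)) =
      cl ((D.base Ω).PT (χ1 σ)) * cl ((D.base Ω).PT (χ2 σ))) (v : HeightOneSpectrum R)
    (i : Fin n) : k3.rr D v i = k1.rr D v i + k2.rr D v i := by
  unfold KF.rr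
  rw [ov_prod _ _ fun j _ => k3.d0 D i j, ov_prod _ _ fun j _ => k1.d0 D i j,
    ov_prod _ _ fun j _ => k2.d0 D i j, ← Finset.sum_add_distrib]
  refine Finset.sum_congr rfl fun j _ => ?_
  obtain ⟨y, hy, e⟩ := D.kf_rel k1 k2 k3 h i j
  rw [e, ov_mul (mul_ne_zero (k1.d0 D i j) (k2.d0 D i j)) (pow_ne_zero _ hy),
    ov_mul (k1.d0 D i j) (k2.d0 D i j), ov_powl, add_zero]

end rel

section tors
variable {R F : Type} [CommRing R] [IsDedekindDomain R] [Field F] [Algebra R F]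
  [IsFractionRing R F] [Algebra K F]
variable {Ω : Type} [Field Ω] [Algebra K Ω] [Algebra F Ω] [IsScalarTower K F Ω]
variable {v : HeightOneSpectrum R} [Algebra K (v.adicCompletion F)]
  [IsScalarTower K F (v.adicCompletion F)]
variable {Ω' : Type} [Field Ω'] [Algebra (v.adicCompletion F) Ω'] [Algebra F Ω'] [Algebra K Ω']
  [IsScalarTower F (v.adicCompletion F) Ω'] [IsScalarTower K (v.adicCompletion F) Ω']
  [IsScalarTower K F Ω'] [IsSepClosed Ω'] [IsGalois (v.adicCompletion F) Ω']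

/-- the residue data of the classes of the branch points -/
theorem rr_tors [IsGalois F Ω] {p : ℕ} [ExpChar Ω' p] (ι : Ω →ₐ[F] Ω')
    (hδ : v.valuation F (algebraMap K F D.δ) = 1)
    (hℓ : v.valuation F (ℓ : F) = 1) {χ : (Ω ≃ₐ[F] Ω) → Fin n → ℕ} {m : Fin n → ℕ}
    {Q : ClassGroup (D.base Ω).A} (hQ : cl ((D.base Ω).PT m) * (D.base Ω).sC Q = Q)
    (hχ : ∀ σ, cl ((D.base Ω).PT (χ σ)) = D.mC (rs K σ) Q / Q) (kd : D.KF χ) (i : Fin n) :
    kd.rr D v i = (n : ZMod ℓ) * ∑ k ∈ Finset.univ.erase i, ((m i : ZMod ℓ) - m k) *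
      ov ℓ v (algebraMap K F (D.e i - D.e k)) := by
  classical
  obtain ⟨S, hS⟩ := exists_LSv v ℓ Ω' hℓ
  replace hS : Cpt S := hS
  have hex : ∀ τ : Ω' ≃ₐ[v.adicCompletion F] Ω', ∃ σ : Ω ≃ₐ[F] Ω, ∀ x, τ (ι x) = ι (σ x) :=
    fun τ => exists_restr ι (τ.restrictScalars F)
  choose ρ hρ using hex
  have h1 : ∀ τ : Ω' ≃ₐ[v.adicCompletion F] Ω', D.mC (rs K τ) (D.mC (ι.restrictScalars K) Q) =
      D.mC (ι.restrictScalars K) Q * cl ((D.base Ω').PT (χ (ρ τ))) := by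
    intro τ
    have e1 : (rs K τ).comp (ι.restrictScalars K) = (ι.restrictScalars K).comp (rs K (ρ τ)) :=
      AlgHom.ext (hρ τ)
    rw [mC_mC, e1, ← mC_mC, ← D.mC_PT (ι.restrictScalars K), hχ, ← map_mul, mul_div_cancel]
  have h2 : ∀ (τ : Ω' ≃ₐ[v.adicCompletion F] Ω') i j, (D.base Ω').ζ ^ χ (ρ τ) j *
      τ (ι (kd.θ i j)) = (D.base Ω').ζ ^ χ (ρ τ) i * ι (kd.θ i j) := by
    intro τ i j
    have hζ : ∀ k : ℕ, (D.base Ω').ζ ^ k = ι ((D.base Ω).ζ ^ k) := fun k => by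
      rw [map_pow]; congr 1
      exact ((ι.restrictScalars K).commutes D.ζ).symm
    rw [hρ, hζ, hζ, ← map_mul, ← map_mul, kd.hθ]
  have hcl : cl ((D.base Ω').PT m) * (D.base Ω').sC (D.mC (ι.restrictScalars K) Q) =
      D.mC (ι.restrictScalars K) Q := by
    rw [← mC_sC, ← D.mC_PT (ι.restrictScalars K), ← map_mul, hQ]
  have hθ0 : ∀ i j, ι (kd.θ i j) ≠ 0 := fun i j => (_root_.map_ne_zero _).2 (kd.h0 i j)
  have h3 : ∀ j, ∃ x : v.adicCompletion F, x ≠ 0 ∧ S.nrm (ι (kd.θ i j)) ^ ℓ *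
      D.Lam S i ((D.base Ω').PT m) = S.nrm (algebraMap _ Ω' x) ^ ℓ *
        D.Lam S j ((D.base Ω').PT m) := by
    intro j
    obtain ⟨t, ⟨x, hx, hxt⟩, h⟩ := D.nrm_kd S h1 (hθ0 i j) (fun τ => h2 τ i j)
      ((D.base Ω').PT_ne m) (fun τ => D.mI_PT _ m) hcl
    exact ⟨x, hx, by rw [hxt]; exact h⟩
  choose x hx0 hx using h3
  have hδ' : S.nrm (D.base Ω').δ = 1 := by
    have e : (D.base Ω').δ = algebraMap F Ω' (algebraMap K F D.δ) :=
      IsScalarTower.algebraMap_apply K F Ω' D.δ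
    rw [e]
    exact hS.one hδ
  -- the total product
  have htot : ∏ j, D.Lam S j ((D.base Ω').PT m) = 1 := by
    have e1 : ∀ k, ∏ j, D.Lam S j ((D.base Ω').PP k) = 1 := by
      intro k
      rw [← Finset.mul_prod_erase Finset.univ _ (Finset.mem_univ k), D.Lam_PP_self, nrm_ge, hδ',
        one_mul, inv_mul_eq_iff_eq_mul₀, mul_one]
      · refine Finset.prod_congr rfl fun j hj => ?_
        rw [D.Lam_PP_ne S (Finset.ne_of_mem_erase hj), ← S.nrm.map_neg, neg_sub]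
      · refine Finset.prod_ne_zero_iff.2 fun j hj => S.nrm.ne_zero (sub_ne_zero.2 fun h => ?_)
        exact Finset.ne_of_mem_erase hj ((D.base Ω').he h).symm
    rw [Finset.prod_congr rfl fun j _ => D.Lam_PT S j m, Finset.prod_comm]
    refine Finset.prod_eq_one fun k _ => ?_
    rw [Finset.prod_pow, e1, one_pow]
  -- the factor at `i`
  set N : Fin n → ℝ := fun k => S.nrm ((D.base Ω').e i - (D.base Ω').e k) with hN
  have hN0 : ∀ k ∈ Finset.univ.erase i, N k ≠ 0 := fun k hk =>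
    S.nrm.ne_zero (sub_ne_zero.2 fun h => Finset.ne_of_mem_erase hk ((D.base Ω').he h).symm)
  have hLi : D.Lam S i ((D.base Ω').PT m) * (∏ k ∈ Finset.univ.erase i, N k) ^ m i =
      ∏ k ∈ Finset.univ.erase i, N k ^ m k := by
    rw [Lam_PT, ← Finset.mul_prod_erase Finset.univ _ (Finset.mem_univ i), D.Lam_PP_self, nrm_ge,
      hδ', one_mul, inv_pow]
    have e1 : ∏ k ∈ Finset.univ.erase i, D.Lam S i ((D.base Ω').PP k) ^ m k =
        ∏ k ∈ Finset.univ.erase i, N k ^ m k :=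
      Finset.prod_congr rfl fun k hk => by
        rw [D.Lam_PP_ne S (Finset.ne_of_mem_erase hk).symm]
    rw [e1]
    have e2 : (∏ k ∈ Finset.univ.erase i, N k) ^ m i ≠ 0 :=
      pow_ne_zero _ (Finset.prod_ne_zero_iff.2 hN0)
    rw [mul_comm, ← mul_assoc, mul_inv_cancel₀ e2, one_mul]
  -- the identity of norms
  set E : Fin n → F := fun k => algebraMap K F (D.e i - D.e k) with hE
  have hNE : ∀ k, N k = S.nrm (algebraMap (v.adicCompletion F) Ω' (algebraMap F _ (E k))) := by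
    intro k
    rw [hN, hE]
    simp only
    rw [D.e_subF (F := F), ← IsScalarTower.algebraMap_apply F (v.adicCompletion F) Ω']
  have hE0 : ∀ k ∈ Finset.univ.erase i, E k ≠ 0 := by
    intro k hk
    rw [hE]
    refine (_root_.map_ne_zero _).2 (sub_ne_zero.2 fun h => ?_)
    exact Finset.ne_of_mem_erase hk (D.he h).symm
  have hprod : S.nrm (algebraMap F Ω' (∏ j, kd.d i j)) * (D.Lam S i ((D.base Ω').PT m)) ^ n =
      S.nrm (algebraMap (v.adicCompletion F) Ω' (∏ j, x j)) ^ ℓ := by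
    have e1 : ∏ j, (S.nrm (ι (kd.θ i j)) ^ ℓ * D.Lam S i ((D.base Ω').PT m)) =
        ∏ j, (S.nrm (algebraMap _ Ω' (x j)) ^ ℓ * D.Lam S j ((D.base Ω').PT m)) :=
      Finset.prod_congr rfl fun j _ => hx j
    rw [Finset.prod_mul_distrib, Finset.prod_mul_distrib, htot, mul_one, Finset.prod_const,
      Finset.card_univ, Fintype.card_fin] at e1
    have e2 : S.nrm (algebraMap F Ω' (∏ j, kd.d i j)) = ∏ j, S.nrm (ι (kd.θ i j)) ^ ℓ := by
      rw [map_prod, map_prod]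
      refine Finset.prod_congr rfl fun j _ => ?_
      rw [← map_pow, ← map_pow, kd.hd, ι.commutes]
    rw [e2, e1, map_prod, map_prod, Finset.prod_pow]
  have hfin : S.nrm (algebraMap (v.adicCompletion F) Ω' (algebraMap F _
      ((∏ j, kd.d i j) * (∏ k ∈ Finset.univ.erase i, E k ^ m k) ^ n))) =
      S.nrm (algebraMap (v.adicCompletion F) Ω' ((∏ j, x j) ^ ℓ * (algebraMap F _
        ((∏ k ∈ Finset.univ.erase i, E k) ^ m i)) ^ n)) := by
    have e1 : ∏ k ∈ Finset.univ.erase i, N k ^ m k =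
        S.nrm (algebraMap (v.adicCompletion F) Ω' (algebraMap F _
          (∏ k ∈ Finset.univ.erase i, E k ^ m k))) := by
      rw [map_prod, map_prod, map_prod]
      refine Finset.prod_congr rfl fun k _ => ?_
      rw [map_pow, map_pow, map_pow, hNE]
    have e2 : ∏ k ∈ Finset.univ.erase i, N k =
        S.nrm (algebraMap (v.adicCompletion F) Ω' (algebraMap F _
          (∏ k ∈ Finset.univ.erase i, E k))) := by
      rw [map_prod, map_prod, map_prod]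
      exact Finset.prod_congr rfl fun k _ => hNE k
    rw [map_mul (algebraMap F (v.adicCompletion F)), map_mul, map_mul S.nrm,
      ← IsScalarTower.algebraMap_apply F (v.adicCompletion F) Ω' (∏ j, kd.d i j),
      map_pow (algebraMap F (v.adicCompletion F)), map_pow (algebraMap (v.adicCompletion F) Ω'),
      map_pow S.nrm, ← e1, ← hLi, mul_pow, ← mul_assoc, hprod, e2]
    simp only [map_mul, map_pow]
  have hfin2 : v.valuation F ((∏ j, kd.d i j) * (∏ k ∈ Finset.univ.erase i, E k ^ m k) ^ n) =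
      (Valued.v (∏ j, x j) : WithZero (Multiplicative ℤ)) ^ ℓ *
        (v.valuation F ((∏ k ∈ Finset.univ.erase i, E k) ^ m i)) ^ n := by
    have h := (hS.eq_iff _ _).1 hfin
    rw [val_coe] at h
    rw [h, map_mul, map_pow, map_pow, val_coe]
  have hD0 : ∏ j, kd.d i j ≠ 0 := Finset.prod_ne_zero_iff.2 fun j _ => kd.d0 D i j
  have hP1 : ∏ k ∈ Finset.univ.erase i, E k ^ m k ≠ 0 :=
    Finset.prod_ne_zero_iff.2 fun k hk => pow_ne_zero _ (hE0 k hk)
  have hP2 : ∏ k ∈ Finset.univ.erase i, E k ≠ 0 := Finset.prod_ne_zero_iff.2 hE0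
  have hX0 : (Valued.v (∏ j, x j) : WithZero (Multiplicative ℤ)) ≠ 0 :=
    (Valuation.ne_zero_iff _).2 (Finset.prod_ne_zero_iff.2 fun j _ => hx0 j)
  have hlog := congrArg (lg ℓ) hfin2
  rw [lg_mul (pow_ne_zero _ hX0) (pow_ne_zero _ ((Valuation.ne_zero_iff _).2
    (pow_ne_zero _ hP2))), lg_powl, zero_add, lg_pow] at hlog
  have hl1 : lg ℓ (v.valuation F ((∏ j, kd.d i j) *
      (∏ k ∈ Finset.univ.erase i, E k ^ m k) ^ n)) = kd.rr D v i +
      (n : ZMod ℓ) * ∑ k ∈ Finset.univ.erase i, (m k : ZMod ℓ) * ov ℓ v (E k) := by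
    show ov ℓ v _ = _
    rw [ov_mul hD0 (pow_ne_zero _ hP1), ov_pow, ov_prod _ _ fun k hk => pow_ne_zero _ (hE0 k hk)]
    simp only [ov_pow]
    rfl
  have hl2 : lg ℓ (v.valuation F ((∏ k ∈ Finset.univ.erase i, E k) ^ m i)) =
      (m i : ZMod ℓ) * ∑ k ∈ Finset.univ.erase i, ov ℓ v (E k) := by
    show ov ℓ v _ = _
    rw [ov_pow, ov_prod _ _ hE0]
  rw [hl1, hl2] at hlog
  rw [eq_sub_of_add_eq hlog, ← mul_sub, Finset.mul_sum, ← Finset.sum_sub_distrib]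
  congr 1
  refine Finset.sum_congr rfl fun k _ => ?_
  rw [sub_mul]

end tors

end Dat

end Pool.Agent.Y713.SE
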