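import Pool.Agent.Y713.TG.Xk

/-! Injectivity of the base change of the class group, and of the map to the vectors. -/

set_option autoImplicit false
set_option linter.all false

open Polynomial IsDedekindDomain

namespace Pool.Agent.Y713.SE

open Pool.Agent.TH115.GD (pl Preserves Comp Sep exists_conj lift restr preserves incl)

namespace Dat

section one
variable {ℓ n : ℕ} {E : Type} [Field E] (D : Dat ℓ n E)

lemma NI_le (I : Ideal D.A) : D.NI I ≤ I := by
  have h : D.sI 0 I = I := by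
    unfold sI
    have e : (D.s 0 : D.A →+* D.A) = RingHom.id _ := by
      apply RingHom.ext
      intro a
      apply D.ext_c
      intro j
      show D.c j (D.s 0 a) = D.c j a
      rw [c_s, zero_mul, pow_zero, C_1, one_mul]
    have : I.map (D.s 0) = I.map (D.s 0 : D.A →+* D.A) := rfl
    rw [this, e, Ideal.map_id]
  unfold NI
  have h0 : 0 ∈ Finset.range ℓ := Finset.mem_range.2 D.pos
  rw [← Finset.mul_prod_erase _ _ h0, h]
  exact Ideal.mul_le_left

lemma eq_of_le_of_U {I J : Ideal D.A} (hI : I ≠ ⊥) (h : I ≤ J) (hU : D.U J = D.U I) : I = J := by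
  obtain ⟨L, hL⟩ := Ideal.dvd_iff_le.2 h
  have hJ : J ≠ ⊥ := by
    rintro rfl
    exact hI (le_bot_iff.1 h)
  have hL0 : L ≠ ⊥ := by
    rintro rfl
    rw [Ideal.mul_bot] at hL
    exact hI hL
  have h1 := congrArg D.U hL
  rw [D.U_mul hJ hL0, ← hU] at h1
  have h2 : D.U L = 1 := (mul_eq_left₀ (D.U_ne J)).1 h1.symm
  have h3 := D.NI_eq hL0
  rw [h2, map_one, Ideal.span_singleton_one] at h3
  have h4 : L = ⊤ := top_le_iff.1 (h3.symm.le.trans (D.NI_le L))
  rw [h4, Ideal.mul_top] at hL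
  exact hL

lemma span_of_mul {a b : D.A} (ha : a ≠ 0) {I : Ideal D.A}
    (h : Ideal.span {a} * I = Ideal.span {b}) : ∃ g, I = Ideal.span {g} := by
  have hb : b ∈ Ideal.span {a} := by
    have h1 : b ∈ Ideal.span {a} * I := by
      rw [h]
      exact Ideal.mem_span_singleton_self b
    exact Ideal.mul_le_left h1
  obtain ⟨g, rfl⟩ := Ideal.mem_span_singleton.1 hb
  refine ⟨g, ?_⟩
  rw [← Ideal.span_singleton_mul_span_singleton] at h
  exact (Ideal.span_singleton_mul_right_inj ha).1 h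

end one

section inj
variable {ℓ n : ℕ} {K Ω : Type} [Field K] [Field Ω] [Algebra K Ω] [IsGalois K Ω] {D : Dat ℓ n K}

lemma exists_descend {g : (D.base Ω).A} (h : ∀ τ : Ω ≃ₐ[K] Ω, D.mp (au τ) g = g) :
    ∃ g' : (D.base K).A, D.mp (incl K K Ω) g' = g := by
  have h1 : ∀ j, ∃ q : K[X], q.map ((incl K K Ω : K →ₐ[K] Ω) : K →+* Ω) = (D.base Ω).c j g := by
    intro j
    have h2 : (D.base Ω).c j g ∈ lifts ((incl K K Ω : K →ₐ[K] Ω) : K →+* Ω) := by
      rw [lifts_iff_coeff_lifts]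
      intro m
      have h3 : ∀ τ : Ω ≃ₐ[K] Ω, τ (((D.base Ω).c j g).coeff m) = ((D.base Ω).c j g).coeff m := by
        intro τ
        have h4 := congrArg (fun p => ((D.base Ω).c j p).coeff m) (h τ)
        simp only [c_mp, coeff_map] at h4
        exact h4
      obtain ⟨x, hx⟩ := (InfiniteGalois.mem_range_algebraMap_iff_fixed _).2 h3
      exact ⟨x, hx⟩
    exact (mem_lifts _).1 h2
  choose q hq using h1
  refine ⟨∑ j : Fin ℓ, q j • (D.base K).y ^ (j : ℕ), ?_⟩
  apply (D.base Ω).ext_c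
  intro j
  rw [c_mp, c_sum, hq]

theorem mC_incl_inj (c : ClassGroup (D.base K).A) (h : D.mC (incl K K Ω) c = 1) : c = 1 := by
  obtain ⟨I, hI, rfl⟩ := exists_cl c
  rw [mC_cl _ _ hI, ← cl_top, cl_eq_iff (D.mI_ne _ hI) (by exact top_ne_bot)] at h
  obtain ⟨a, b, ha, hb, hab⟩ := h
  rw [Ideal.mul_top] at hab
  obtain ⟨g0, hg0⟩ := (D.base Ω).span_of_mul ha hab
  have hg0ne : g0 ≠ 0 := by
    rintro rfl
    apply D.mI_ne (incl K K Ω) hI
    rw [hg0]
    exact Ideal.span_singleton_eq_bot.2 rfl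
  obtain ⟨j0, hj0⟩ : ∃ j, (D.base Ω).c j g0 ≠ 0 := by
    by_contra hne
    push Not at hne
    exact hg0ne ((D.base Ω).ext_c fun j => by rw [hne, map_zero])
  set u := ((D.base Ω).c j0 g0).leadingCoeff with hu
  have hu0 : u ≠ 0 := leadingCoeff_ne_zero.2 hj0
  set g := algebraMap (Polynomial Ω) (D.base Ω).A (C u⁻¹) * g0 with hg
  have hunit : ∀ {v : Ω}, v ≠ 0 → IsUnit (algebraMap (Polynomial Ω) (D.base Ω).A (C v)) := fun hv =>
    (isUnit_C.2 (isUnit_iff_ne_zero.2 hv)).map _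
  have hgI : D.mI (incl K K Ω) I = Ideal.span {g} := by
    rw [hg0, hg]
    exact (Ideal.span_singleton_mul_left_unit (hunit (inv_ne_zero hu0)) g0).symm
  have hgne : g ≠ 0 := mul_ne_zero (hunit (inv_ne_zero hu0)).ne_zero hg0ne
  have hcm : ∀ (v : Ω) (w : (D.base Ω).A) j, (D.base Ω).c j
      (algebraMap (Polynomial Ω) (D.base Ω).A (C v) * w) = C v * (D.base Ω).c j w := by
    intro v w j
    rw [← Algebra.smul_def, map_smul, smul_eq_mul]
  have hmon : ((D.base Ω).c j0 g).Monic := by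
    rw [hg, hcm, Monic, leadingCoeff_mul, leadingCoeff_C, ← hu, inv_mul_cancel₀ hu0]
  have hfix : ∀ τ : Ω ≃ₐ[K] Ω, D.mp (au τ) g = g := by
    intro τ
    have e1 : (au τ).comp (incl K K Ω) = incl K K Ω := AlgHom.ext fun x => τ.commutes x
    have h1 := congrArg (D.mI (au τ)) hgI
    rw [mI_mI, e1, hgI, mI_span] at h1
    obtain ⟨w, hw⟩ := Ideal.span_singleton_eq_span_singleton.1 h1
    obtain ⟨v, hv, hvw⟩ := (D.base Ω).unit_const w.isUnit
    rw [hvw, mul_comm] at hw
    have h2 : ((D.base Ω).c j0 (D.mp (au τ) g)).Monic := by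
      rw [c_mp]
      exact hmon.map _
    rw [← hw, hcm, Monic, leadingCoeff_mul, leadingCoeff_C, hmon.leadingCoeff, mul_one] at h2
    rw [← hw, h2, C_1, map_one, one_mul]
  obtain ⟨g', hg'⟩ := exists_descend hfix
  have hg'ne : g' ≠ 0 := by
    rintro rfl
    rw [map_zero] at hg'
    exact hgne hg'.symm
  set J := I ⊔ Ideal.span {g'} with hJ
  have hJne : J ≠ ⊥ := by
    intro h
    rw [hJ, sup_eq_bot_iff] at h
    exact hI h.1
  have hmJ : D.mI (incl K K Ω) J = Ideal.span {g} := by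
    have : D.mI (incl K K Ω) J = D.mI (incl K K Ω) I ⊔ D.mI (incl K K Ω) (Ideal.span {g'}) :=
      Ideal.map_sup _ _ _
    rw [this, hgI, mI_span, hg', sup_idem]
  have hUinj : ∀ {I' J' : Ideal (D.base K).A}, I' ≠ ⊥ → J' ≠ ⊥ →
      D.mI (incl K K Ω) I' = D.mI (incl K K Ω) J' → (D.base K).U I' = (D.base K).U J' := by
    intro I' J' hI' hJ' h
    have h1 := congrArg (D.base Ω).U h
    rw [D.U_mI _ hI', D.U_mI _ hJ'] at h1
    exact Polynomial.map_injective _ (RingHom.injective _) h1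
  have h1 : I = J := (D.base K).eq_of_le_of_U hI le_sup_left
    (hUinj hJne hI (by rw [hmJ, hgI]))
  have h2 : Ideal.span {g'} = J := (D.base K).eq_of_le_of_U ((D.base K).span_ne hg'ne) le_sup_right
    (hUinj hJne ((D.base K).span_ne hg'ne) (by rw [hmJ, mI_span, hg']))
  rw [h1, ← h2]
  exact cl_span hg'ne

end inj

end Dat

end Pool.Agent.Y713.SE
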