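import Pool.Agent.Y713.TG.Inj
import Pool.Agent.Y713.TG.Brd

/-! The vectors which come from classes over `K`: injectivity modulo `1 - σ`. -/

set_option autoImplicit false
set_option linter.all false

open Polynomial IsDedekindDomain

namespace Pool.Agent.Y713.SE

open Pool.Agent.TH115.GD (pl Preserves Comp Sep exists_conj lift restr preserves incl)

namespace Dat

section rel
variable {ℓ n : ℕ} {k' K F Ω : Type} [Field k']
  [Field K] [Field F] [Algebra k'[X] F]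
  [IsFractionRing k'[X] F] [Algebra K F] [Field Ω] [Algebra F Ω] [Algebra K Ω]
  [IsScalarTower K F Ω] [IsGalois F Ω] [IsGalois K Ω] [IsSepClosed Ω]
  {D : Dat ℓ n K}

theorem Adm.rel {R : ClassGroup (D.base Ω).A} (hR : D.Adm F R) (τ : Ω ≃ₐ[K] Ω) {m : Fin n → ℕ}
    (hm : D.mC (au τ) ((D.base Ω).phi R) = (D.base Ω).phi R * cl ((D.base Ω).PT m)) :
    (∀ σ σ' : Ω ≃ₐ[F] Ω, (∀ x, τ (σ' x) = σ (τ x)) →
      D.mC (rs K σ') R / R = D.mC (rs K σ) R / R *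
        (D.mC (rs K σ) (D.mC (au τ) R / R) / (D.mC (au τ) R / R))) ∧
    cl ((D.base Ω).PT m) * (D.base Ω).sC (D.mC (au τ) R / R) = D.mC (au τ) R / R := by
  have hfix : ∀ σ : Ω ≃ₐ[F] Ω, (D.base Ω).phi (D.mC (rs K σ) R / R) = 1 := by
    intro σ
    rw [_root_.map_div, ← mC_phi, hR.fix, div_self']
  refine ⟨fun σ σ' h => ?_, ?_⟩
  · have hPT : D.mC (au τ) (D.mC (rs K σ') R / R) = D.mC (rs K σ') R / R := by
      obtain ⟨p, hp⟩ := ExpChar.exists Ω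
      haveI := hp
      obtain ⟨m', hm'⟩ := (D.base Ω).phi_ker (p := p) (phi_eq_one_iff.1 (hfix σ'))
      rw [hm', ← cl_PT, D.mC_PT]
    have e1 : (au τ).comp (rs K σ') = (rs K σ).comp (au τ) := AlgHom.ext fun x => h x
    rw [← hPT, _root_.map_div, _root_.map_div, mC_mC, mC_mC, e1]
    generalize D.mC ((rs K σ).comp (au τ)) R = a
    generalize D.mC (rs K σ) R = b
    generalize D.mC (au τ) R = d
    rw [div_div_div_comm, mul_comm, div_mul_cancel]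
  · rw [← phi_eq_iff, _root_.map_div, ← mC_phi, hm, mul_div_cancel_left]

end rel

variable {ℓ n : ℕ} {k k' K F Ω : Type} [Field k] [Field k'] [Algebra k k'] [IsSepClosure k k']
  [Field K] [Algebra k[X] K] [IsFractionRing k[X] K] [Field F] [Algebra k'[X] F]
  [IsFractionRing k'[X] F] [Algebra K F] [Field Ω] [Algebra F Ω] [Algebra K Ω]
  [IsScalarTower K F Ω] [IsSepClosure F Ω] [IsGalois F Ω] [IsGalois K Ω] [IsSepClosed Ω]
  {D : Dat ℓ n K}
  (hKF : ∀ p : k[X], algebraMap K F (algebraMap k[X] K p) =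
    algebraMap k'[X] F (p.map (algebraMap k k')))
  {e : Fin n → k[X]} (hDe : ∀ i, D.e i = algebraMap k[X] K (e i)) (hδ : D.δ = 1)
  (hℓ : (ℓ : k') ≠ 0) {rt : {π // π ∈ pis e} → k'} (hrt : ∀ π, aeval (rt π) (π : k[X]) = 0)

include hKF hDe hδ hℓ hrt in
/-- a class over `K` with the zero vector is divisible by `1 - σ` over `Ω`, and the quotient is
fixed by the Galois group of `K` -/
theorem fix_of_zero {ζ : k} (hζ : IsPrimitiveRoot ζ ℓ)
    (hsep : ∀ i j, i ≠ j → ∀ π : k[X], Irreducible π → π ∣ e i - e j → π.Separable)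
    (hR : Rigid ℓ e) {P : ClassGroup (D.base K).A} {R : ClassGroup (D.base Ω).A}
    (h1 : (D.base Ω).phi R = D.mC (incl K K Ω) P) (h2 : D.IsV rt (D.cob F R) 0)
    (τ : Ω ≃ₐ[K] Ω) : D.mC (au τ) R = R := by
  obtain ⟨p, hp⟩ := ExpChar.exists Ω
  haveI := hp
  have hA : D.Adm F R := Adm.ofK h1
  have hfx : ∀ σ : Ω ≃ₐ[F] Ω, D.mC (rs K σ) R = R := fun σ =>
    div_eq_one.1 (h2.zero hKF hDe hδ hℓ hrt hζ hsep hR (hA.gd (k' := k')) σ)
  obtain ⟨R1, hR1⟩ := (D.base Ω).phi_surj (p := p) R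
  have hR1' : (D.base Ω).phi R1 = R := phi_eq_iff.2 hR1
  have hm : ∀ τ : Ω ≃ₐ[K] Ω, ∃ m : Fin n → ℕ, D.mC (au τ) R = R * cl ((D.base Ω).PT m) := by
    intro τ
    have h3 : (D.base Ω).phi (D.mC (au τ) R / R) = 1 := by
      have h4 : (au τ).comp (incl K K Ω) = incl K K Ω := AlgHom.ext fun x => τ.commutes x
      rw [_root_.map_div, ← mC_phi, h1, mC_mC, h4, div_self']
    obtain ⟨m, hm⟩ := (D.base Ω).phi_ker (p := p) (phi_eq_one_iff.1 h3)
    refine ⟨m, ?_⟩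
    rw [cl_PT, ← hm, mul_div_cancel]
  have hA1 : D.Adm F R1 := by
    refine ⟨fun σ => ?_, fun τ => ?_⟩
    · rw [hR1', hfx]
    · rw [hR1']
      exact hm τ
  have hg1 := hA1.gd (k' := k')
  have hfix1 : ∀ σ : Ω ≃ₐ[F] Ω, ∃ m : Fin n → ℕ, D.mC (rs K σ) R1 / R1 =
      cl ((D.base Ω).PT m) := by
    intro σ
    obtain ⟨m, hm⟩ := (D.base Ω).phi_ker (p := p) (hg1.fix σ)
    exact ⟨m, by rw [hm, cl_PT]⟩
  choose χ hχ using hfix1
  have hcoc := hg1.coc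
  have e1 : (fun σ : Ω ≃ₐ[F] Ω => D.mC (rs K σ) R1 / R1) =
      fun σ => cl ((D.base Ω).PT (χ σ)) := funext hχ
  rw [e1] at hcoc
  obtain ⟨kd⟩ := D.exists_KF hcoc
  have hI : D.Inv χ := ⟨fun τ => by
    obtain ⟨T, m, h3, h4⟩ := hg1.inv τ
    exact ⟨T, m, fun σ σ' h => by rw [← hχ, ← hχ]; exact h3 σ σ' h, h4⟩⟩
  obtain ⟨m, hmτ⟩ := hm τ
  obtain ⟨h5, h6⟩ := hA1.rel τ (m := m) (by rw [hR1']; exact hmτ)
  have h7 := hI.rigid hKF hDe hδ hℓ hζ hsep hR kd (τ := τ) (T := D.mC (au τ) R1 / R1) (m := m)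
    (fun σ σ' h => by rw [← hχ, ← hχ]; exact h5 σ σ' h) h6
  have h8 := phi_eq_one_iff.2 h7
  rw [_root_.map_div, ← mC_phi, hR1'] at h8
  exact div_eq_one.1 h8

end Dat

end Pool.Agent.Y713.SE
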