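import Pool.Agent.Y713.TG.Gdd

/-! The vectors of the residues: where they lie, the torsion classes, injectivity. -/

set_option autoImplicit false
set_option linter.all false

open Polynomial IsDedekindDomain

namespace Pool.Agent.Y713.SE

open Pool.Agent.TH115.GD (pl Preserves Comp Sep exists_conj lift restr preserves)

section lin
variable {n : ℕ} {k : Type} [Field k]

/-- vectors whose sums over the unions of clusters are zero -/
def Wt (ℓ : ℕ) (e : Fin n → k[X]) (π : k[X]) : Submodule (ZMod ℓ) (Fin n → ZMod ℓ) where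
  carrier := {r | ∀ C : Finset (Fin n), (∀ i ∈ C, ∀ j ∉ C, ¬ π ∣ e i - e j) → ∑ i ∈ C, r i = 0}
  add_mem' := by
    intro a b ha hb C hC
    simp only [Pi.add_apply, Finset.sum_add_distrib]
    rw [ha C hC, hb C hC, add_zero]
  zero_mem' := by
    intro C hC
    simp
  smul_mem' := by
    intro c a ha C hC
    simp only [Pi.smul_apply, smul_eq_mul, ← Finset.mul_sum]
    rw [ha C hC, mul_zero]

/-- the Laplacian -/
noncomputable def Lap (ℓ : ℕ) (e : Fin n → k[X]) (π : k[X]) :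
    (Fin n → ZMod ℓ) →ₗ[ZMod ℓ] (Fin n → ZMod ℓ) where
  toFun a i := ∑ j ∈ Finset.univ.erase i, (multiplicity π (e i - e j) : ZMod ℓ) * (a i - a j)
  map_add' a b := by
    funext i
    simp only [Pi.add_apply, ← Finset.sum_add_distrib]
    exact Finset.sum_congr rfl fun j _ => by ring
  map_smul' c a := by
    funext i
    simp only [Pi.smul_apply, smul_eq_mul, RingHom.id_apply, Finset.mul_sum]
    exact Finset.sum_congr rfl fun j _ => by ring

lemma Lap_apply (ℓ : ℕ) (e : Fin n → k[X]) (π : k[X]) (a : Fin n → ZMod ℓ) (i : Fin n) :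
    Lap ℓ e π a i = ∑ j ∈ Finset.univ.erase i, (multiplicity π (e i - e j) : ZMod ℓ) *
      (a i - a j) := rfl

end lin

namespace Dat

variable {ℓ n : ℕ} {k k' K F Ω : Type} [Field k] [Field k'] [Algebra k k'] [IsSepClosure k k']
  [Field K] [Algebra k[X] K] [IsFractionRing k[X] K] [Field F] [Algebra k'[X] F]
  [IsFractionRing k'[X] F] [Algebra K F] [Field Ω] [Algebra F Ω] [Algebra K Ω]
  [IsScalarTower K F Ω] [IsSepClosure F Ω] [IsGalois F Ω] [IsGalois K Ω] [IsSepClosed Ω]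
  {D : Dat ℓ n K}
  (hKF : ∀ p : k[X], algebraMap K F (algebraMap k[X] K p) =
    algebraMap k'[X] F (p.map (algebraMap k k')))
  {e : Fin n → k[X]} (hDe : ∀ i, D.e i = algebraMap k[X] K (e i)) (hδ : D.δ = 1)
  (hℓ : (ℓ : k') ≠ 0) {rt : {π // π ∈ pis e} → k'} (hrt : ∀ π, aeval (rt π) (π : k[X]) = 0)

include hDe in
omit [Field k'] [Algebra k k'] [IsSepClosure k k'] [IsFractionRing k[X] K] [Field F]
  [Algebra k'[X] F] [IsFractionRing k'[X] F] [Algebra K F] [Field Ω] [Algebra F Ω] [Algebra K Ω]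
  [IsScalarTower K F Ω] [IsSepClosure F Ω] [IsGalois F Ω] [IsGalois K Ω] [IsSepClosed Ω] in
lemma e_inj' : Function.Injective e := fun i j h => D.he (by rw [hDe, hDe, h])

include hKF hDe in
omit [IsSepClosure k k'] [IsSepClosure F Ω] [IsGalois F Ω] [IsGalois K Ω] [IsSepClosed Ω]
  [Field Ω] [Algebra F Ω] [Algebra K Ω] [IsScalarTower K F Ω] [IsFractionRing k[X] K] in
lemma val_e_le (v : HeightOneSpectrum k'[X]) (i j : Fin n) :
    v.valuation F (algebraMap K F (D.e i - D.e j)) ≤ 1 := by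
  rw [D.alg_e hKF hDe]
  exact v.valuation_le_one _

include hKF hDe in
omit [IsSepClosure k k'] [IsSepClosure F Ω] [IsGalois F Ω] [IsGalois K Ω] [IsSepClosed Ω]
  [Field Ω] [Algebra F Ω] [Algebra K Ω] [IsScalarTower K F Ω] [IsFractionRing k[X] K] in
lemma val_e_one (v : HeightOneSpectrum k'[X]) (i j : Fin n) :
    v.valuation F (algebraMap K F (D.e i - D.e j)) = 1 ↔
      (e i - e j).map (algebraMap k k') ∉ v.asIdeal := by
  rw [D.alg_e hKF hDe, val_eq_one_iff]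

lemma mem_pl {k' : Type} [Field k'] (θ : k') (r : k'[X]) : r ∈ (pl θ).asIdeal ↔ r.eval θ = 0 := by
  show r ∈ Ideal.span {X - C θ} ↔ _
  rw [Ideal.mem_span_singleton, dvd_iff_isRoot]
  rfl

include hKF hDe hδ hℓ hrt in
omit [IsSepClosure k k'] [IsSepClosure F Ω] [IsGalois K Ω] [IsSepClosed Ω]
  [IsFractionRing k[X] K] in
theorem IsV.mem {c : (Ω ≃ₐ[F] Ω) → ClassGroup (D.base Ω).A} (hc : D.Gd k' c)
    {r : {π // π ∈ pis e} → Fin n → ZMod ℓ} (hr : D.IsV rt c r) (π : {π // π ∈ pis e}) :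
    r π ∈ Wt ℓ e π.1 := by
  obtain ⟨χ, kd, h1, h2⟩ := hr
  intro C hC
  have e1 : c = fun σ => cl ((D.base Ω).PT (χ σ)) := funext h1
  have hπ := (mem_pis (e_inj' hDe) π.2).1
  have ht := hc.triv (pl (rt π))
  rw [e1] at ht
  have h3 := D.sum_rr hδ hℓ kd (pl (rt π)) ht (fun i j => val_e_le hKF hDe _ i j) (C := C)
    (fun i hi j hj => by
      rw [val_e_one hKF hDe, mem_pl, eval_map_algebraMap, ← dvd_iff_root hπ (hrt π)]
      exact hC i hi j hj)
  rw [← h3]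
  exact Finset.sum_congr rfl fun i _ => h2 π i

include hKF hDe hδ hℓ hrt in
theorem IsV.zero {ζ : k} (hζ : IsPrimitiveRoot ζ ℓ)
    (hsep : ∀ i j, i ≠ j → ∀ π : k[X], Irreducible π → π ∣ e i - e j → π.Separable)
    (hR : Rigid ℓ e) {c : (Ω ≃ₐ[F] Ω) → ClassGroup (D.base Ω).A} (hc : D.Gd k' c)
    (hr : D.IsV rt c 0) (σ : Ω ≃ₐ[F] Ω) : c σ = 1 := by
  haveI : IsGalois k k' := inferInstance
  haveI : IsSepClosed k' := IsSepClosure.sep_closed k
  obtain ⟨χ, kd, h1, h2⟩ := hr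
  have e1 : c = fun σ => cl ((D.base Ω).PT (χ σ)) := funext h1
  have hI : D.Inv χ := ⟨fun τ => by
    obtain ⟨T, m, h3, h4⟩ := hc.inv τ
    exact ⟨T, m, fun σ σ' h => by rw [← h1, ← h1]; exact h3 σ σ' h, h4⟩⟩
  rw [h1]
  refine D.triv_of_rr hℓ kd (fun v i => ?_) σ
  by_cases hv : ∀ j, j ≠ i → v.valuation F (algebraMap K F (D.e i - D.e j)) = 1
  · have ht := hc.triv v
    rw [e1] at ht
    have h3 := D.sum_rr hδ hℓ kd v ht (fun i j => val_e_le hKF hDe _ i j) (C := {i})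
      (fun i' hi' j hj => by
        rw [Finset.mem_singleton] at hi' hj
        subst hi'
        exact hv j hj)
    rwa [Finset.sum_singleton] at h3
  · push Not at hv
    obtain ⟨j, hj, hj'⟩ := hv
    rw [Ne, val_e_one hKF hDe, not_not] at hj'
    obtain ⟨π, hπ, θ, hθ, rfl⟩ := v_cases (D.e_ne hDe hj.symm) (hsep i j hj.symm) v hj'
    have hπ' := mem_pis_of (e_inj' hDe) hj.symm hπ
    obtain ⟨s, hs⟩ := conj_roots (k' := k') (mem_pis (e_inj' hDe) hπ').1 (hrt ⟨π, hπ'⟩) hθ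
    rw [← hs, hI.rr hKF hDe hδ hℓ hζ hsep hR kd s (rt ⟨π, hπ'⟩) i, ← h2 ⟨π, hπ'⟩ i]
    rfl

include hKF hDe hδ hℓ hrt in
omit [IsSepClosure k k'] [IsSepClosure F Ω] in
theorem IsV.tors 
    (hsep : ∀ i j, i ≠ j → ∀ π : k[X], Irreducible π → π ∣ e i - e j → π.Separable)
    {Q : ClassGroup (D.base Ω).A} {m : Fin n → ℕ}
    (hQ : cl ((D.base Ω).PT m) * (D.base Ω).sC Q = Q) :
    D.IsV (F := F) rt (fun σ : Ω ≃ₐ[F] Ω => D.mC (rs K σ) Q / Q)
      (fun π => (-(n : ZMod ℓ)) • Lap ℓ e π.1 (fun i => (m i : ZMod ℓ))) := by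
  obtain ⟨p, hp⟩ := ExpChar.exists Ω
  haveI := hp
  obtain ⟨χ, hχ⟩ := D.exists_chi (p := p) (F := F) hQ
  have hcoc := D.cob_CocF (F := F) Q
  have e1 : (fun σ : Ω ≃ₐ[F] Ω => D.mC (rs K σ) Q / Q) =
    fun σ : Ω ≃ₐ[F] Ω => cl ((D.base Ω).PT (χ σ)) := funext fun σ => (hχ σ).symm
  rw [e1] at hcoc
  obtain ⟨kd⟩ := D.exists_KF hcoc
  refine ⟨χ, kd, fun σ => (hχ σ).symm, fun π i => ?_⟩
  have hπ := mem_pis (e_inj' hDe) π.2
  obtain ⟨i0, j0, h0, hdv⟩ := hπ.2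
  have hs := hsep i0 j0 h0 π.1 hπ.1 hdv
  show (-(n : ZMod ℓ)) * Lap ℓ e π.1 (fun i => (m i : ZMod ℓ)) i = kd.rr D (pl (rt π)) i
  rw [D.rr_torsR (v := pl (rt π)) (Q := Q) (m := m) (by rw [hδ, map_one, map_one])
    (val_nat hℓ _) hQ hχ kd i, Lap_apply, neg_mul, ← mul_neg, ← Finset.sum_neg_distrib]
  congr 1
  refine Finset.sum_congr rfl fun j hj => ?_
  rw [D.ov_e hKF hDe hπ.1 hs (hrt π) (Finset.ne_of_mem_erase hj).symm]
  ring

end Dat

end Pool.Agent.Y713.SE
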