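import Pool.Agent.Y713.TG.Inj2
import Pool.Agent.Y713.TG.Thm

/-! The bound for the number of the generators modulo the classes from `J(K)`. -/

set_option autoImplicit false
set_option linter.all false

open Polynomial IsDedekindDomain

namespace Pool.Agent.Y713.SE

open Pool.Agent.Y160.SE (Jac jm sg pe Good IsTateClass IsTC IsTM IsCoc LocTriv hyps jm_pe pe_mul
  first_tor exists_W1' exists_W' tate_of_first TateAt exists_U' fixed_class)
open Pool.Agent.TH115.GD (pl Preserves Comp Sep exists_conj lift restr preserves incl ak IsTower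
  sepKΩ)
open Pool.Agent.Y713.TG (tate_add tate_smul tate_zero gen_of_first)

section lin
variable {ℓ n : ℕ} [Fact ℓ.Prime] {k : Type} [Field k] {e : Fin n → k[X]} {G : Type}
  [AddCommGroup G]

/-- the choice of the generators -/
theorem exists_gens' (T : Submodule (ZMod ℓ) ({π // π ∈ pis e} → Fin n → ZMod ℓ))
    (hT : T ≤ WW ℓ e)
    (vec : G →+ ({π // π ∈ pis e} → Fin n → ZMod ℓ)) (hW : ∀ c, vec c ∈ WW ℓ e) :
    ∃ (m : ℕ) (E : Fin m → G), m + Module.finrank (ZMod ℓ) T ≤ Coll e ∧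
      ∀ c : G, ∃ (z : Fin m → ℤ), vec (c - ∑ i, z i • E i) ∈ T := by
  classical
  set S : Submodule (ZMod ℓ) ({π // π ∈ pis e} → Fin n → ZMod ℓ) :=
    AddSubgroup.toZModSubmodule ℓ vec.range with hS
  have hmemS : ∀ x, x ∈ S ↔ ∃ c, vec c = x := by
    intro x
    rw [hS, AddSubgroup.mem_toZModSubmodule]
    rfl
  set B := S.map T.mkQ with hB
  have hSW : S ≤ WW ℓ e := by
    intro x hx
    obtain ⟨c, rfl⟩ := (hmemS x).1 hx
    exact hW c
  have hfr : Module.finrank (ZMod ℓ) B + Module.finrank (ZMod ℓ) T ≤ Coll e := by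
    have h1 : Module.finrank (ZMod ℓ) B ≤ Module.finrank (ZMod ℓ) ((WW ℓ e).map T.mkQ) :=
      Submodule.finrank_mono (Submodule.map_mono hSW)
    have h2 := LinearMap.finrank_range_add_finrank_ker (T.mkQ.domRestrict (WW ℓ e))
    have h3 : LinearMap.range (T.mkQ.domRestrict (WW ℓ e)) = (WW ℓ e).map T.mkQ :=
      LinearMap.range_domRestrict _ _
    have h4 : LinearMap.ker (T.mkQ.domRestrict (WW ℓ e)) = T.comap (WW ℓ e).subtype := by
      ext x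
      rw [LinearMap.mem_ker, Submodule.mem_comap, LinearMap.domRestrict_apply,
        Submodule.mkQ_apply, Submodule.Quotient.mk_eq_zero]
      rfl
    rw [h3, h4, (Submodule.comapSubtypeEquivOfLe hT).finrank_eq] at h2
    have h6 := finrank_WW (ℓ := ℓ) e
    omega
  let b := Module.finBasis (ZMod ℓ) B
  have hbE : ∀ i, ∃ c : G, T.mkQ (vec c) = (b i : _) := by
    intro i
    obtain ⟨x, hx, hx'⟩ := Submodule.mem_map.1 (b i).2
    obtain ⟨c, rfl⟩ := (hmemS x).1 hx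
    exact ⟨c, hx'⟩
  choose E hE using hbE
  refine ⟨_, E, hfr, fun c => ?_⟩
  have hc : T.mkQ (vec c) ∈ B := Submodule.mem_map_of_mem ((hmemS _).2 ⟨c, rfl⟩)
  set y : B := ⟨T.mkQ (vec c), hc⟩ with hy
  have h1 : T.mkQ (vec c) = ∑ i, b.repr y i • T.mkQ (vec (E i)) := by
    have h2 := congrArg Subtype.val (b.sum_repr y)
    rw [AddSubmonoidClass.coe_finset_sum] at h2
    rw [hy] at h2
    refine h2.symm.trans (Finset.sum_congr rfl fun i _ => ?_)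
    rw [hE]
    rfl
  have h3 : vec (c - ∑ i, ((b.repr y i).val : ℤ) • E i) ∈ T := by
    rw [← Submodule.Quotient.mk_eq_zero, ← Submodule.mkQ_apply, map_sub, map_sub, h1, map_sum,
      map_sum, sub_eq_zero]
    refine Finset.sum_congr rfl fun i _ => ?_
    rw [map_zsmul, map_zsmul, ← Int.cast_smul_eq_zsmul (ZMod ℓ)]
    congr 1
    rw [Int.cast_natCast, ZMod.natCast_zmod_val]
  exact ⟨_, h3⟩

end lin

namespace Dat

variable {ℓ n : ℕ} {k k' K F : Type} [Field k] [Field k'] [Algebra k k'] [IsSepClosure k k']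
  [Field K] [Algebra k[X] K] [IsFractionRing k[X] K] [Field F] [Algebra k'[X] F]
  [IsFractionRing k'[X] F] [Algebra K F] [IsGalois K (Sep F)]
  {D : Dat ℓ n K}
  (hKF : ∀ p : k[X], algebraMap K F (algebraMap k[X] K p) =
    algebraMap k'[X] F (p.map (algebraMap k k')))
  {e : Fin n → k[X]} (hDe : ∀ i, D.e i = algebraMap k[X] K (e i)) (hδ : D.δ = 1)
  (hℓ : (ℓ : k') ≠ 0) (hg : Good ℓ D.ζ D.f)
  (hsep : ∀ i j, i ≠ j → ∀ π : k[X], Irreducible π → π ∣ e i - e j → π.Separable)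
  (hR : Rigid ℓ e) {rt : {π // π ∈ pis e} → k'} (hrt : ∀ π, aeval (rt π) (π : k[X]) = 0)
  {ζ : k} (hζ : IsPrimitiveRoot ζ ℓ)

include hKF hDe hδ hℓ hg hsep hR hrt hζ in
theorem phi_of_zero {P : ClassGroup (D.base K).A} {R : ClassGroup (D.base (Sep F)).A}
    (h1 : (D.base (Sep F)).phi R = D.mC (incl K K (Sep F)) P) (h2 : D.IsV rt (D.cob F R) 0) :
    ∃ P', (D.base K).phi P' = P := by
  have hfx := fix_of_zero hKF hDe hδ hℓ hrt hζ hsep hR h1 h2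
  obtain ⟨x, rfl⟩ := D.tj_surj (Sep F) R
  obtain ⟨y, hy⟩ := fixed_class (E := K) hyps hg x (fun τ => by
    apply D.tj_inj
    rw [D.tj_jm]
    exact hfx τ)
  refine ⟨D.tj K y, ?_⟩
  have h3 : D.mC (incl K K (Sep F)) ((D.base K).phi (D.tj K y) / P) = 1 := by
    rw [_root_.map_div, mC_phi, ← D.tj_jm, hy, h1, div_self']
  exact div_eq_one.1 (mC_incl_inj _ h3)

include hKF hDe hδ hℓ hsep hR hrt hζ in
theorem exists_surj [Fact ℓ.Prime] : ∃ g : D.XK F (Sep F) rt →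
    Jac ℓ D.f K ⧸ (pe hg K (1 - X)).range, Function.Surjective g := by
  classical
  obtain ⟨p, hp⟩ := ExpChar.exists (Sep F)
  haveI := hp
  haveI : NeZero ℓ := ⟨D.hp.ne_zero⟩
  have hx : ∀ x : D.XK F (Sep F) rt, ∃ (P : Jac ℓ D.f K) (R : ClassGroup (D.base (Sep F)).A),
      (D.base (Sep F)).phi R = D.mC (incl K K (Sep F)) (D.tj K P) ∧
        D.IsV rt (D.cob F R) x.1 := by
    intro x
    obtain ⟨P, R, h1, h2⟩ := x.2
    obtain ⟨P', rfl⟩ := D.tj_surj K P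
    exact ⟨P', R, h1, h2⟩
  choose P R h1 h2 using hx
  refine ⟨fun x => (QuotientAddGroup.mk (P x) : Jac ℓ D.f K ⧸ (pe hg K (1 - X)).range), ?_⟩
  intro q
  obtain ⟨Q, rfl⟩ := QuotientAddGroup.mk_surjective q
  obtain ⟨S, hS⟩ := (D.base (Sep F)).phi_surj (p := p) (D.mC (incl K K (Sep F)) (D.tj K Q))
  have hS' : (D.base (Sep F)).phi S = D.mC (incl K K (Sep F)) (D.tj K Q) := phi_eq_iff.2 hS
  have hgd := (Adm.ofK (F := F) hS').gd (k' := k')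
  obtain ⟨r, hr⟩ := IsV.exists (rt := rt) hgd.coc hgd.fix
  have hr' : D.IsV rt (D.cob F S) r := hr
  have hrX : r ∈ D.XK F (Sep F) rt := ⟨_, S, hS', hr'⟩
  refine ⟨⟨r, hrX⟩, ?_⟩
  have h3 := h1 ⟨r, hrX⟩
  have h4 := h2 ⟨r, hrX⟩
  have h5 : D.IsV rt (D.cob F (S * (R ⟨r, hrX⟩)⁻¹)) 0 := by
    have h6 := IsV.cob_mul (Adm.ofK (F := F) hS') (Adm.ofK (F := F) h3).inv' hr'
      (IsV.cob_inv (Adm.ofK (F := F) h3) h4)
    rwa [add_neg_cancel] at h6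
  obtain ⟨P', hP'⟩ := phi_of_zero hKF hDe hδ hℓ hg hsep hR hrt hζ
    (P := D.tj K (Q - P ⟨r, hrX⟩)) (R := S * (R ⟨r, hrX⟩)⁻¹) (by
      rw [map_mul, map_inv, hS', h3, D.tj_sub, _root_.map_div, div_eq_mul_inv]) h5
  obtain ⟨x, rfl⟩ := D.tj_surj K P'
  rw [← D.tj_lam hg] at hP'
  have h7 := D.tj_inj K hP'
  rw [QuotientAddGroup.eq]
  exact ⟨x, h7.trans (by abel)⟩

include hKF hDe hδ hℓ hsep hR hrt hζ in
/-- the order of `J(K) / (1 - σ)` is at most the number of the vectors -/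
theorem card_le [Fact ℓ.Prime] :
    Nat.card (Jac ℓ D.f K ⧸ (pe hg K (1 - X)).range) ≤ Nat.card (D.XK F (Sep F) rt) := by
  classical
  haveI : NeZero ℓ := ⟨D.hp.ne_zero⟩
  obtain ⟨g, hg'⟩ := exists_surj (F := F) hKF hDe hδ hℓ hg hsep hR hrt hζ
  exact Nat.card_le_card_of_surjective g hg'

include hKF hDe hδ hℓ hsep hR hrt hζ in
/-- `J(K) / (1 - σ)` is finite -/
theorem finite_quot [Fact ℓ.Prime] :
    Finite (Jac ℓ D.f K ⧸ (pe hg K (1 - X)).range) := by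
  classical
  haveI : NeZero ℓ := ⟨D.hp.ne_zero⟩
  obtain ⟨g, hg'⟩ := exists_surj (F := F) hKF hDe hδ hℓ hg hsep hR hrt hζ
  exact Finite.of_surjective g hg'

include hKF hDe hδ hℓ hsep hR hrt hζ in
/-- the generators modulo `J(K)` -/
theorem genB [Fact ℓ.Prime] : ∃ (m : ℕ)
    (E : Fin m → ℕ → (Sep F ≃ₐ[F] Sep F) → Jac ℓ D.f (Sep F)),
    ℓ ^ m * Nat.card (Jac ℓ D.f K ⧸ (pe hg K (1 - X)).range) ≤ ℓ ^ Coll e ∧
    m + (n - 1) ≤ Coll e ∧
    (∀ i, IsTateClass ℓ k' D.f (E i)) ∧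
    ∀ c : ℕ → (Sep F ≃ₐ[F] Sep F) → Jac ℓ D.f (Sep F), IsTateClass ℓ k' D.f c → ∀ N,
      ∃ (p : Fin m → ℤ[X]) (P : Jac ℓ D.f K) (R : Jac ℓ D.f (Sep F)),
        ℓ ^ N • R = jm ℓ D.f (incl K K (Sep F)) P ∧
        ∀ σ, c N σ = ∑ i, pe hg (Sep F) (p i) (E i N σ) +
          (jm ℓ D.f (Pool.Agent.TH115.GD.rs K σ) R - R) := by
  have hn : (n : ZMod ℓ) ≠ 0 := by
    rw [Ne, ZMod.natCast_eq_zero_iff]
    exact D.hn
  haveI : NeZero ℓ := ⟨D.hp.ne_zero⟩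
  obtain ⟨vec, hvec⟩ := exists_vec (F := F) hKF hDe hδ hℓ hg hsep hR rt
  set T : Submodule (ZMod ℓ) ({π // π ∈ pis e} → Fin n → ZMod ℓ) :=
    AddSubgroup.toZModSubmodule ℓ (D.XK F (Sep F) rt) with hTdef
  have hmemT : ∀ x, x ∈ T ↔ x ∈ D.XK F (Sep F) rt := by
    intro x
    rw [hTdef, AddSubgroup.mem_toZModSubmodule]
  have hTW : T ≤ WW ℓ e := by
    intro x hx
    obtain ⟨P, R, h1, h2⟩ := (hmemT x).1 hx
    rw [mem_WW]
    exact h2.mem hKF hDe hδ hℓ hrt ((Adm.ofK (F := F) h1).gd (k' := k'))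
  have hTT : LinearMap.range (TT ℓ e) ≤ T := by
    rintro _ ⟨a, rfl⟩
    exact (hmemT _).2 (TT_mem hKF hDe hδ hℓ hrt hsep a)
  obtain ⟨m, E, hm, hE⟩ := exists_gens' T hTW vec (fun c => by
    rw [mem_WW]
    exact (hvec c).mem hKF hDe hδ hℓ hrt (fl_gd hKF hDe hδ hℓ hg hsep hR c.2))
  have hE1 : ∀ i, IsTateClass ℓ k' D.f (E i).1 := fun i => (E i).2
  refine ⟨m, fun i => (E i).1, ?_, ?_, hE1, fun c hc N => ?_⟩
  · have h1 := card_le hKF hDe hδ hℓ hg hsep hR hrt hζ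
    have h2 : Nat.card (D.XK F (Sep F) rt) = ℓ ^ Module.finrank (ZMod ℓ) T := by
      have h3 : Nat.card (D.XK F (Sep F) rt) = Nat.card T :=
        Nat.card_congr (Equiv.subtypeEquivRight fun x => (hmemT x).symm)
      rw [h3, Module.natCard_eq_pow_finrank (K := ZMod ℓ), Nat.card_zmod]
    rw [h2] at h1
    calc ℓ ^ m * Nat.card (Jac ℓ D.f K ⧸ (pe hg K (1 - X)).range)
        ≤ ℓ ^ m * ℓ ^ Module.finrank (ZMod ℓ) T := Nat.mul_le_mul_left _ h1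
      _ = ℓ ^ (m + Module.finrank (ZMod ℓ) T) := (pow_add _ _ _).symm
      _ ≤ ℓ ^ Coll e := Nat.pow_le_pow_right D.pos hm
  · have h5 := TT_rank (ℓ := ℓ) e (e_inj' hDe) hn hR
    have h6 := Submodule.finrank_mono hTT
    omega
  have hF : Pool.Agent.Y713.TG.FirstHyp k' hg (fun i => (E i).1) (⊤ : AddSubgroup (Jac ℓ D.f K)) := by
    intro c hc
    obtain ⟨z, hz⟩ := hE ⟨c, hc⟩
    obtain ⟨x, hx⟩ : ∃ x : TCl (F := F) ℓ k' D.f, x = ⟨c, hc⟩ - ∑ i, z i • E i := ⟨_, rfl⟩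
    rw [← hx] at hz
    have h3 := hvec x
    have hx2 : IsTateClass ℓ k' D.f x.1 := x.2
    obtain ⟨P, R, h5, h6⟩ := first_of hKF hDe hδ hℓ hg hsep hR hrt hζ hx2 h3 ((hmemT _).1 hz)
    have h7 : ∀ σ, x.1 1 σ = c 1 σ - ∑ i, z i • (E i).1 1 σ := by
      intro σ
      rw [hx]
      exact sub_sum_apply (TCl (F := F) ℓ k' D.f) ⟨c, hc⟩ E z 1 σ
    refine ⟨z, P, R, AddSubgroup.mem_top _, h5, fun σ => ?_⟩
    rw [← h6 σ, h7 σ]
  obtain ⟨p, P, R, hP, h1, h2⟩ := gen_of_first hyps hg hE1 ⊤ (fun _ _ _ => AddSubgroup.mem_top _)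
    hF hc N
  exact ⟨p, P, R, h1, h2⟩

include hKF hDe hδ hℓ hsep hR hrt hζ in
/-- the Tate conjecture, if `J(K) / (1 - σ)` is maximal -/
theorem tateD (h : ℓ ^ Coll e < ℓ * Nat.card (Jac ℓ D.f K ⧸ (pe hg K (1 - X)).range)) :
    TateAt (F := F) ℓ k' D.f := by
  haveI := Fact.mk D.hp
  obtain ⟨m, E, h1, -, -, h3⟩ := genB (F := F) hKF hDe hδ hℓ hg hsep hR hrt hζ
  have hm : m = 0 := by
    by_contra hm
    have h4 : ℓ * Nat.card (Jac ℓ D.f K ⧸ (pe hg K (1 - X)).range) ≤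
        ℓ ^ m * Nat.card (Jac ℓ D.f K ⧸ (pe hg K (1 - X)).range) :=
      Nat.mul_le_mul_right _ (Nat.le_self_pow hm ℓ)
    omega
  subst hm
  intro c h4 h5 h6 N
  obtain ⟨p, P, R, h7, h8⟩ := h3 c ⟨h4, h5, h6⟩ N
  refine ⟨P, R, h7, fun σ => ?_⟩
  rw [h8, Finset.univ_eq_empty, Finset.sum_empty, zero_add]

end Dat

end Pool.Agent.Y713.SE
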