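import Pool.Agent.Y713.TG.Geo2
import Pool.Agent.Y713.SE.Ari

/-! Classes without residues are trivial. -/

set_option autoImplicit false
set_option linter.all false

open Polynomial IsDedekindDomain

namespace Pool.Agent.Y713.SE

lemma mod_of_pow {M : Type} [Field M] {ℓ : ℕ} {z : M} (hz : IsPrimitiveRoot z ℓ) (hℓ : 0 < ℓ)
    {a b : ℕ} (e : z ^ a = z ^ b) : a ≡ b [MOD ℓ] := by
  rcases le_total a b with h | h
  · have h1 : z ^ (b - a) = 1 := by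
      have : z ^ b = z ^ a * z ^ (b - a) := by rw [← pow_add, Nat.add_sub_cancel' h]
      rw [← e] at this
      exact (mul_eq_left₀ (pow_ne_zero _ (hz.ne_zero hℓ.ne'))).1 this.symm
    exact (Nat.modEq_iff_dvd' h).2 ((hz.pow_eq_one_iff_dvd _).1 h1)
  · have h1 : z ^ (a - b) = 1 := by
      have : z ^ a = z ^ b * z ^ (a - b) := by rw [← pow_add, Nat.add_sub_cancel' h]
      rw [e] at this
      exact (mul_eq_left₀ (pow_ne_zero _ (hz.ne_zero hℓ.ne'))).1 this.symm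
    exact ((Nat.modEq_iff_dvd' h).2 ((hz.pow_eq_one_iff_dvd _).1 h1)).symm

namespace Dat

variable {ℓ n : ℕ} {K : Type} [Field K] (D : Dat ℓ n K)

section triv
variable {k' F Ω : Type} [Field k'] [IsSepClosed k'] [Field F] [Algebra k'[X] F]
  [IsFractionRing k'[X] F] [Algebra K F] [Field Ω] [Algebra K Ω] [Algebra F Ω]
  [IsScalarTower K F Ω]

/-- an element all whose valuations are divisible by `ℓ` is an `ℓ`-th power -/
lemma pow_of_ov {ℓ : ℕ} (hp : ℓ.Prime) (hℓ : (ℓ : k') ≠ 0) {x : F} (hx : x ≠ 0)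
    (h : ∀ v : HeightOneSpectrum k'[X], ov ℓ v x = 0) : ∃ y : F, y ≠ 0 ∧ x = y ^ ℓ := by
  obtain ⟨c, a, z, hc, hz, e⟩ := rep (K := F) hp ∅ (by simp) hx
    (fun v _ => (ov_eq_zero hx).1 (h v))
  haveI : NeZero (ℓ : k') := ⟨hℓ⟩
  obtain ⟨b, hb⟩ := IsSepClosed.exists_pow_nat_eq c ℓ
  have hb0 : b ≠ 0 := by
    rintro rfl
    rw [zero_pow hp.ne_zero] at hb
    exact hc hb.symm
  refine ⟨algebraMap k'[X] F (C b) * z, mul_ne_zero (by simpa using hb0) hz, ?_⟩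
  rw [e, Finset.prod_empty, mul_one, mul_pow, ← map_pow, ← C_pow, hb]

theorem triv_of_rr (hℓ : (ℓ : k') ≠ 0) {χ : (Ω ≃ₐ[F] Ω) → Fin n → ℕ} (kd : D.KF χ)
    (h : ∀ (v : HeightOneSpectrum k'[X]) i, kd.rr D v i = 0) (σ : Ω ≃ₐ[F] Ω) :
    cl ((D.base Ω).PT (χ σ)) = 1 := by
  have hz0 : (D.base Ω).ζ ≠ 0 := (D.base Ω).ζ_ne
  have hζ := (D.base Ω).hζ
  have hD0 : ∀ i, ∏ j, kd.d i j ≠ 0 := fun i => Finset.prod_ne_zero_iff.2 fun j _ => kd.d0 D i j
  have hw : ∀ i, ∃ w : F, w ≠ 0 ∧ ∏ j, kd.d i j = w ^ ℓ := fun i =>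
    pow_of_ov D.hp hℓ (hD0 i) fun v => h v i
  choose w hw0 hw using hw
  have hΘ0 : ∀ i, ∏ j, kd.θ i j ≠ 0 := fun i => Finset.prod_ne_zero_iff.2 fun j _ => kd.h0 i j
  have hfixζ : ∀ a : ℕ, σ ((D.base Ω).ζ ^ a) = (D.base Ω).ζ ^ a := by
    intro a
    rw [map_pow]
    congr 1
    have e : (D.base Ω).ζ = algebraMap F Ω (algebraMap K F D.ζ) :=
      IsScalarTower.algebraMap_apply K F Ω D.ζ
    rw [e, σ.commutes]
  have hfix : ∀ i, σ (∏ j, kd.θ i j) = ∏ j, kd.θ i j := by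
    intro i
    have hwΩ : algebraMap F Ω (w i) ≠ 0 := (_root_.map_ne_zero _).2 (hw0 i)
    have h1 : ((∏ j, kd.θ i j) / algebraMap F Ω (w i)) ^ ℓ = 1 := by
      rw [div_pow, ← Finset.prod_pow, ← map_pow, ← hw i, map_prod]
      rw [Finset.prod_congr rfl fun j _ => kd.hd i j, div_self]
      rw [← map_prod]
      exact (_root_.map_ne_zero _).2 (hD0 i)
    haveI : NeZero ℓ := ⟨D.hp.ne_zero⟩
    obtain ⟨a, -, ha⟩ := hζ.eq_pow_of_pow_eq_one h1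
    have h2 : ∏ j, kd.θ i j = (D.base Ω).ζ ^ a * algebraMap F Ω (w i) := by
      rw [ha, div_mul_cancel₀ _ hwΩ]
    rw [h2, map_mul, hfixζ, σ.commutes]
  have hkey : ∀ i, (D.base Ω).ζ ^ (∑ j, χ σ j) = (D.base Ω).ζ ^ (n * χ σ i) := by
    intro i
    have h1 : ∏ j, ((D.base Ω).ζ ^ χ σ j * σ (kd.θ i j)) =
        ∏ j, ((D.base Ω).ζ ^ χ σ i * kd.θ i j) :=
      Finset.prod_congr rfl fun j _ => kd.hθ σ i j
    rw [Finset.prod_mul_distrib, Finset.prod_mul_distrib, ← map_prod, hfix, Finset.prod_const,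
      Finset.card_univ, Fintype.card_fin, Finset.prod_pow_eq_pow_sum, ← pow_mul, mul_comm (χ σ i)]
      at h1
    exact mul_right_cancel₀ (hΘ0 i) h1
  apply (D.base Ω).cl_PT_of_modEq
  intro i j
  have h1 := (hkey i).symm.trans (hkey j)
  have h2 : n * χ σ i ≡ n * χ σ j [MOD ℓ] := mod_of_pow hζ D.pos h1
  exact Nat.ModEq.cancel_left_of_coprime ((Nat.Prime.coprime_iff_not_dvd D.hp).2 D.hn) h2

end triv

end Dat

end Pool.Agent.Y713.SE
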