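import Pool.Agent.Y713.TG.Pla

/-! The vector of the residues of an invariant locally trivial class. -/

set_option autoImplicit false
set_option linter.all false

open Polynomial IsDedekindDomain

namespace Pool.Agent.Y713.SE

open Pool.Agent.TH115.GD (pl Preserves Comp Sep exists_conj lift restr preserves)

section pis
variable {n : ℕ} {k : Type} [Field k]

/-- The product of the differences `e i - e j`, `i ≠ j`. -/
noncomputable def prd (e : Fin n → k[X]) : k[X] :=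
  ∏ i, ∏ j ∈ Finset.univ.erase i, (e i - e j)

open Classical in
/-- The monic irreducible factors of the differences `e i - e j`. -/
noncomputable def pis (e : Fin n → k[X]) : Finset k[X] :=
  (UniqueFactorizationMonoid.normalizedFactors (prd e)).toFinset

lemma prd_ne {e : Fin n → k[X]} (he : Function.Injective e) : prd e ≠ 0 :=
  Finset.prod_ne_zero_iff.2 fun i _ => Finset.prod_ne_zero_iff.2 fun j hj =>
    sub_ne_zero.2 fun h => Finset.ne_of_mem_erase hj (he h).symm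

lemma mem_pis {e : Fin n → k[X]} (he : Function.Injective e) {π : k[X]} (h : π ∈ pis e) :
    Irreducible π ∧ ∃ i j, i ≠ j ∧ π ∣ e i - e j := by
  classical
  unfold pis at h
  rw [Multiset.mem_toFinset] at h
  have h1 := UniqueFactorizationMonoid.irreducible_of_normalized_factor π h
  refine ⟨h1, ?_⟩
  have h2 := UniqueFactorizationMonoid.dvd_of_mem_normalizedFactors h
  unfold prd at h2
  obtain ⟨i, -, hi⟩ := (h1.prime.dvd_finset_prod_iff _).1 h2
  obtain ⟨j, hj, hj'⟩ := (h1.prime.dvd_finset_prod_iff _).1 hi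
  exact ⟨i, j, (Finset.ne_of_mem_erase hj).symm, hj'⟩

open Classical in
lemma mem_pis_of {e : Fin n → k[X]} (he : Function.Injective e) {i j : Fin n} (h : i ≠ j)
    {π : k[X]} (hπ : π ∈ UniqueFactorizationMonoid.normalizedFactors (e i - e j)) :
    π ∈ pis e := by
  have h0 : e i - e j ≠ 0 := sub_ne_zero.2 fun h' => h (he h')
  have h1 := UniqueFactorizationMonoid.irreducible_of_normalized_factor π hπ
  have h2 := UniqueFactorizationMonoid.dvd_of_mem_normalizedFactors hπ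
  unfold pis
  rw [Multiset.mem_toFinset]
  rw [UniqueFactorizationMonoid.mem_normalizedFactors_iff' (prd_ne he)]
  refine ⟨h1, UniqueFactorizationMonoid.normalize_normalized_factor π hπ, h2.trans ?_⟩
  unfold prd
  refine dvd_trans ?_ (Finset.dvd_prod_of_mem _ (Finset.mem_univ i))
  exact Finset.dvd_prod_of_mem (fun j => e i - e j)
    (Finset.mem_erase.2 ⟨h.symm, Finset.mem_univ j⟩)

end pis

namespace Dat

variable {ℓ n : ℕ} {k k' K F Ω : Type} [Field k] [Field k'] [Algebra k k'] [IsSepClosure k k']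
  [Field K] [Algebra k[X] K] [IsFractionRing k[X] K] [Field F] [Algebra k'[X] F]
  [IsFractionRing k'[X] F] [Algebra K F] [Field Ω] [Algebra F Ω] [Algebra K Ω]
  [IsScalarTower K F Ω] [IsSepClosure F Ω] [IsGalois F Ω] [IsGalois K Ω] [IsSepClosed Ω]
  (D : Dat ℓ n K)

/-- an invariant locally trivial class with values in the kernel of `1 - s` -/
structure Gd (k' : Type) [Field k'] [Algebra k'[X] F] [IsFractionRing k'[X] F]
    (c : (Ω ≃ₐ[F] Ω) → ClassGroup (D.base Ω).A) : Prop where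
  coc : D.CocF c
  fix : ∀ σ, (D.base Ω).sC (c σ) = c σ
  triv : ∀ v : HeightOneSpectrum k'[X], D.TrivF (Comp k'[X] F v) (Sep (Comp k'[X] F v)) c
  inv : ∀ τ : Ω ≃ₐ[K] Ω, ∃ (T : ClassGroup (D.base Ω).A) (m : Fin n → ℕ),
    (∀ σ σ' : Ω ≃ₐ[F] Ω, (∀ x, τ (σ' x) = σ (τ x)) → c σ' = c σ * (D.mC (rs K σ) T / T)) ∧
      cl ((D.base Ω).PT m) * (D.base Ω).sC T = T

/-- the vector of the residues of a class -/
def IsV {ι : Type} (rt : ι → k') (c : (Ω ≃ₐ[F] Ω) → ClassGroup (D.base Ω).A)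
    (r : ι → Fin n → ZMod ℓ) : Prop :=
  ∃ (χ : (Ω ≃ₐ[F] Ω) → Fin n → ℕ) (kd : D.KF χ), (∀ σ, c σ = cl ((D.base Ω).PT (χ σ))) ∧
    ∀ π i, r π i = kd.rr D (pl (k' := k') (rt π)) i

variable {ι : Type} {rt : ι → k'} {D}

omit [Algebra k k'] [IsSepClosure k k'] [Field k] [Algebra k[X] K] [IsFractionRing k[X] K]
  [IsSepClosure F Ω] [IsGalois K Ω] [IsSepClosed Ω] in
lemma IsV.add {c1 c2 c3 : (Ω ≃ₐ[F] Ω) → ClassGroup (D.base Ω).A} {r1 r2 r3 : ι → Fin n → ZMod ℓ}
    (h1 : D.IsV rt c1 r1) (h2 : D.IsV rt c2 r2) (h3 : D.IsV rt c3 r3)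
    (h : ∀ σ, c3 σ = c1 σ * c2 σ) : r3 = r1 + r2 := by
  obtain ⟨χ1, k1, e1, f1⟩ := h1
  obtain ⟨χ2, k2, e2, f2⟩ := h2
  obtain ⟨χ3, k3, e3, f3⟩ := h3
  funext π i
  rw [f3, Pi.add_apply, Pi.add_apply, f1, f2]
  exact D.rr_rel k1 k2 k3 (fun σ => by rw [← e1, ← e2, ← e3, h]) _ _

omit [Algebra k k'] [IsSepClosure k k'] [Field k] [Algebra k[X] K] [IsFractionRing k[X] K]
  [IsSepClosure F Ω] [IsGalois K Ω] [IsSepClosed Ω] in
variable (D) in
lemma IsV.one : D.IsV (F := F) (Ω := Ω) rt (fun _ => 1) 0 := by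
  refine ⟨fun _ _ => 0, ⟨fun _ _ => 1, fun _ _ => 1, fun _ _ => one_ne_zero, fun σ i j => by
      rw [pow_zero, map_one], fun i j => by rw [one_pow, map_one]⟩, fun σ =>
        ((D.base Ω).cl_PT_of_modEq fun i j => Nat.ModEq.refl _).symm, fun π i => ?_⟩
  show (0 : ZMod ℓ) = ov ℓ _ (∏ j : Fin n, (1 : F))
  rw [Finset.prod_const_one, ov_one]

omit [Algebra k k'] [IsSepClosure k k'] [Field k] [Algebra k[X] K] [IsFractionRing k[X] K]
  [IsSepClosure F Ω] [IsGalois K Ω] [IsSepClosed Ω] in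
lemma IsV.uniq {c : (Ω ≃ₐ[F] Ω) → ClassGroup (D.base Ω).A} {r1 r2 : ι → Fin n → ZMod ℓ}
    (h1 : D.IsV rt c r1) (h2 : D.IsV rt c r2) : r1 = r2 := by
  have := h2.add (IsV.one D) h1 (fun σ => by rw [mul_one])
  rw [this, add_zero]

omit [Algebra k k'] [IsSepClosure k k'] [Field k] [Algebra k[X] K] [IsFractionRing k[X] K]
  [IsSepClosure F Ω] [IsGalois K Ω] in
lemma IsV.exists {c : (Ω ≃ₐ[F] Ω) → ClassGroup (D.base Ω).A} (hc : D.CocF c)
    (hf : ∀ σ, (D.base Ω).sC (c σ) = c σ) : ∃ r, D.IsV rt c r := by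
  obtain ⟨p, hp⟩ := ExpChar.exists Ω
  haveI := hp
  have h : ∀ σ, ∃ m : Fin n → ℕ, c σ = cl ((D.base Ω).PT m) := by
    intro σ
    obtain ⟨m, hm⟩ := (D.base Ω).phi_ker (p := p) (hf σ)
    exact ⟨m, by rw [hm, cl_PT]⟩
  choose χ hχ using h
  have e : c = fun σ => cl ((D.base Ω).PT (χ σ)) := funext hχ
  rw [e] at hc
  obtain ⟨kd⟩ := D.exists_KF hc
  exact ⟨_, χ, kd, hχ, fun π i => rfl⟩

end Dat

end Pool.Agent.Y713.SE
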